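import Mathlib
import Pool.Agent.Helper961.Aub.Phys

/-!
A smooth three stack machine (Hanoi towers) with carries and borrows.  This is a modification of
the machine of `Pool.Agent.Helper961.Aub`: digits lie in `{0..mm}`, the base is `BB = mm - 1`,
the digit `mm` produces a carry and the digit `0` a borrow.
-/

set_option autoImplicit false

open Set Filter Topology

namespace Pool.Agent.H385A

open Pool.Agent.Aub

noncomputable section

/-- the base -/
def BB : ℕ := 4095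
/-- weight ratio between consecutive levels, `BB ^ 3` -/
def MM : ℝ := 68669157375

/-- removal part of the borrow -/
def bT (a b : ℝ) : ℝ := (1 - stp (1/4) (3/8) b) * stp (3/8) (1/2) a
/-- addition part of the borrow -/
def bt (a b : ℝ) : ℝ := (1 - stp (1/8) (1/4) b) * stp (1/2) (3/4) a

/-- signed reading of a register -/
def Sg (t : ℝ) : ℝ := Sc t - Sc (-t)

/-- carry and borrow between two neighbouring digits, `a` more significant than `b` -/
def carryHi (a b : ℝ) : ℝ := a + ct a b - bT a b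
def carryLo (a b : ℝ) : ℝ := b - BB * cT a b + BB * bt a b

/-- the three digits pushed on the target stack; `a` the digits read, `t` incoming carry -/
def GG (a0 a1 a2 t : ℝ) : Fin 3 → ℝ :=
  ![carryHi a0 (carryHi a1 (a2 + t)),
    carryLo a0 (carryHi a1 (a2 + t)),
    carryLo a1 (a2 + t)]

/-- value of three digits -/
def Vz (g : Fin 3 → ℤ) : ℝ := (BB : ℝ) ^ 2 * g 0 + BB * g 1 + g 2

/-- data part of a move from stack `s` to stack `d` -/
def DatRel (s d : Fin 3) (β : ℝ) (z z' : Stk) : Prop :=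
  ∃ (db bw : Bool) (g : Fin 3 → ℤ),
    (db = true → β = 0 ∧ (z d 0 ≤ 1/8 ∨ 7/8 ≤ z d 0) ∧
      (mm : ℝ) - 1/4 ≤ z d 2 ∧ z d 2 ≤ mm + 1/4 ∧ bw = false) ∧
    Vz g + (if bw then 1 else 0) ≤ Vz (fun k => Dg 0 (z s (dt k))) + (if db then 1 else 0) ∧
    ∀ k : Fin 3,
      hX (z' s (dt k)) ≤ max (hX (lam * (hX (z s (dt k)) - Dg 0 (z s (dt k))))) 0 ∧
      -1/8 ≤ z' d (dt k) ∧ z' d (dt k) ≤ mm + 1/8 ∧
      Dg (1/16) (z' d (dt k)) ≤ g k ∧
      (Dg (1/16) (z' d (dt k)) = g k →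
        hX (lam * (z' d (dt k) - g k)) ≤
          max (hX (z d (dt k) - (if db = true ∧ k = 0 then (BB : ℝ) else 0))) 0 +
            (if bw = true ∧ k = 0 then (BB : ℝ) else 0))

/-- a move of the top cell of `s` (with bit `b` equal to `β`) to `d` -/
def MvB (s d : Fin 3) (β : ℝ) (z z' : Stk) : Prop :=
  hC (z' s 0) = hC (lam * (hC (z s 0) - β)) ∧
  |z' d 0 - (1 - β)| ≤ 1/16 ∧ hC (lam * (z' d 0 - (1 - β))) = hC (z d 0) ∧
  (z s 1 ≤ 1/4 → hC (z' s 1) = hC (lam * hC (z s 1))) ∧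
  (3/4 ≤ z s 1 → hC (z' s 1) = hC (lam * (hC (z s 1) - 1))) ∧
  (β = 1 → |z' d 1| ≤ 1/16 ∧ hC (lam * z' d 1) = hC (z d 1)) ∧
  (β = 0 → (z d 1 ≤ 1/4 → |z' d 1 - 1| ≤ 1/16 ∧ hC (lam * (z' d 1 - 1)) = hC (z d 1)) ∧
    (3/4 ≤ z d 1 → |z' d 1| ≤ 1/16 ∧ hC (lam * z' d 1) = hC (z d 1))) ∧
  DatRel s d β z z'

def Mv (s d : Fin 3) (z z' : Stk) : Prop :=
  (z s 0 ≤ 1/4 → MvB s d 0 z z') ∧ (3/4 ≤ z s 0 → MvB s d 1 z z')

/-- one tick of the machine with orientation `δ` and virtual tower at peg `p` -/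
def TickRel (δ : Fin 3) (ty : Ty) (p : Fin 3) (z z' : Stk) : Prop :=
  (∀ tr, z' p tr = z p tr) ∧
  (ty = Ty.E → Mv (p - δ) (p + δ) z z') ∧
  (ty = Ty.F → (z p 1 ≤ 1/4 → Mv (p + δ) (p - δ) z z') ∧
    (3/4 ≤ z p 1 → Mv (p - δ) (p + δ) z z'))

/-- cost of raising arbitrarily data track `k` -/
def kap (k : Fin 3) : ℝ := (mm : ℝ) * (BB : ℝ) ^ (2 - k.1) / (MM - 1)

/-- a coordinate without debit: paid in full, or noise only, or a paid borrow -/
def Nr (κ pd ν t t' : ℝ) : Prop :=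
  κ ≤ pd ∨ t' ≤ max t 0 + ν ∨ (1 ≤ pd ∧ t' ≤ max t 0 + BB + ν)

/-- one coordinate of `Md`; `sp` says whether a debit is taken here, `κ` is the price,
`pd` the amount paid, `t` the old and `t'` the new value -/
def Cd (sp : Prop) (κ pd ν t t' : ℝ) : Prop :=
  (¬ sp → Nr κ pd ν t t') ∧
  (sp →
    ((mm : ℝ) - 1/4 - ν ≤ max t 0 ∧
      ((t' ≤ max t 0 - BB + ν ∧ t' ≤ 5/4 + 2 * ν) ∨ κ ≤ pd)) ∨
    (κ ≤ pd ∧ t' ≤ 5/4 + 2 * ν) ∨ (1 ≤ pd ∧ Nr κ (pd - 1) ν t t'))

/-- harmless modifications plus noise of size `ν`, credit `cr` and (if `db`) one debit -/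
def Md (ty : Ty) (p : Fin 3) (ν cr : ℝ) (db : Bool) (z z' : Stk) : Prop :=
  0 ≤ ν ∧ (∀ i, |z' i 0 - z i 0| ≤ ν) ∧
  (∀ i, |z' i 1 - z i 1| ≤ ν ∨ (1/4 - ν < z i 1 ∧ z i 1 < 3/4 + ν)) ∧
  (db = true → ty = Ty.F ∧ (z p 0 ≤ 1/8 + ν ∨ 7/8 - ν ≤ z p 0)) ∧
  ∃ pd : Fin 3 → Fin 3 → ℝ, (∀ i k, 0 ≤ pd i k) ∧ ∑ i, ∑ k, pd i k ≤ cr ∧
    ∀ i k, Cd (db = true ∧ i = p ∧ k = 0) (kap k) (pd i k) ν (z i (dt k)) (z' i (dt k))

/-- generalised trajectories -/
inductive Tr (δ : Fin 3) (ty0 : Ty) (p0 : Fin 3) (z0 : Stk) :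
    Ty → Fin 3 → Stk → ℝ → ℝ → ℝ → ℕ → ℕ → Prop
  | base (ν cr : ℝ) (db : Bool) (z : Stk) (h : Md ty0 p0 ν cr db z0 z) :
      Tr δ ty0 p0 z0 ty0 p0 z 0 ν cr db.toNat 0
  | step (ty : Ty) (p : Fin 3) (z : Stk) (e ν cr : ℝ) (d n : ℕ)
      (h : Tr δ ty0 p0 z0 ty p z e ν cr d n) (z1 z2 : Stk) (h1 : TickRel δ ty p z z1)
      (ν' cr' : ℝ) (db : Bool) (h2 : Md ty.other (p + δ) ν' cr' db z1 z2) :
      Tr δ ty0 p0 z0 ty.other (p + δ) z2 (e + ν ^ 2) ν' (cr + cr') (d + db.toNat) (n + 1)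

open Classical in
/-- the potential, truncated at level `N` -/
def UU : ℕ → Bool → Fin 3 → Ty → Fin 3 → Stk → ℝ
  | 0, _, _, _, _, _ => 2
  | (N + 1), post, δ, ty, p, z =>
    match rb ty post (posn δ ty p) z with
    | none => 2
    | some β =>
      (Vz (DD ty post (posn δ ty p) z) +
        (if broken ty post (posn δ ty p) β z then 2
         else UU N post (-δ) (subTy ty β) (subP δ ty p) (sub δ ty post p β z))) / MM

/-! ### the physical machine -/

def f2 (d : Fin 3) (z : Zs) : Zs :=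
  mkz 0 ![0, 0, 0, 0, 0, 0, 0, 0, 0, 0,
    (1 - Sc (reg z 1)) * gT (stk z d 0) * cT (Qx (reg z 6)) (stk z d 2) -
      (1 - Sc (reg z 1)) * bt (Qx (reg z 6)) (stk z d 2),
    (1 - Sc (reg z 1)) * gt (stk z d 0) * ct (Qx (reg z 6)) (stk z d 2) -
      (1 - Sc (reg z 1)) * bT (Qx (reg z 6)) (stk z d 2)]

def f3 (b : Bool) (s d : Fin 3) (z : Zs) : Zs :=
  mkz (fun i tr => if i = s then
      -(Wt b z * ![Sc (reg z 1), Sc (reg z 2), Qx (reg z 7), Qx (reg z 8), Qx (reg z 9)] tr)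
    else if i = d ∧ tr = 2 then -(Wt b z * (BB * Sg (reg z 10))) else 0) 0

/-- the digits to be pushed -/
def pushed (r : ℝ) (z : Zs) : Fin 5 → ℝ :=
  ![1 - Sc (reg z 1), (1 - Sc (reg z 1)) * (1 - Sc (reg z 3)),
    Qx (GG (Qx (reg z 4)) (Qx (reg z 5)) (Qx (reg z 6)) (Sg (reg z 11)) 0 * (1 - r)),
    Qx (GG (Qx (reg z 4)) (Qx (reg z 5)) (Qx (reg z 6)) (Sg (reg z 11)) 1 * (1 - r)),
    Qx (GG (Qx (reg z 4)) (Qx (reg z 5)) (Qx (reg z 6)) (Sg (reg z 11)) 2 * (1 - r))]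

def f5 (b : Bool) (d : Fin 3) (r : ℝ) (z : Zs) : Zs :=
  mkz (fun i tr => if i = d then Wt b z * pushed r z tr else 0) 0

/-- conditional move -/
def cm (cc : Clamp (5/4)) (cx : Clamp (mm + 1/2)) (b : Bool) (s d : Fin 3) (r : ℝ)
    (z : Zs) : Zs :=
  let z0 := M0 cc cx s d z
  let z1 := z0 + f1 s d z0
  let z2 := z1 + f2 d z1
  let z3 := z2 + f3 b s d z2
  let z4 := M4 b s d z3
  let z5 := z4 + f5 b d r z4
  M6 z5

/-- one tick of the machine -/
def tick (cc : Clamp (5/4)) (cx : Clamp (mm + 1/2)) (ty : Ty) (p : Fin 3) (r : ℝ)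
    (z : Zs) : Zs :=
  N1 (cm cc cx false (p + 1) (p - 1) 0
    (cm cc cx true (p - 1) (p + 1) (if ty = Ty.E then r else 0) (z + g0 ty p z)))

/-- the field of slot `j` of the tick -/
def slotf (cc : Clamp (5/4)) (cx : Clamp (mm + 1/2)) (ty : Ty) (p : Fin 3) (r : ℝ)
    (j : Fin 16) : Zs → Zs :=
  ![g0 ty p,
    f0 cc cx (p - 1) (p + 1), f1 (p - 1) (p + 1), f2 (p + 1), f3 true (p - 1) (p + 1),
    f4 true (p - 1) (p + 1), f5 true (p + 1) (if ty = Ty.E then r else 0), f6,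
    f0 cc cx (p + 1) (p - 1), f1 (p + 1) (p - 1), f2 (p - 1), f3 false (p + 1) (p - 1),
    f4 false (p + 1) (p - 1), f5 false (p - 1) 0, f6,
    g1] j

/-- the fields of the `97` slots of one period of the clock -/
def YY (cc : Clamp (5/4)) (cx : Clamp (mm + 1/2)) (rh : Rho) (k : Fin 97)
    (x : Zs × ℝ) : Zs × ℝ :=
  if h : k.1 < 96 then
    (slotf cc cx (tyj (k.1 / 16)) (pj (k.1 / 16)) (rh.ρ x.2)
      ⟨k.1 % 16, Nat.mod_lt _ (by norm_num)⟩ x.1, 0)
  else (0, psi x.2)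

end

/-! ### the symbolic machine -/

/-- the default cell -/
def zc : Cell := ⟨false, false, fun _ => 1⟩

/-- the next cell, lists are continued by default cells -/
def hd : List Cell → Cell
  | [] => zc
  | a :: _ => a

/-- carry bit -/
def cb (a b : ℕ) : ℕ := if b = mm ∧ a < mm then 1 else 0
/-- borrow bit -/
def bb (a b : ℕ) : ℕ := if b = 0 ∧ 0 < a then 1 else 0
/-- new value of the more significant digit -/
def hi (a b : ℕ) : ℕ := a + cb a b - bb a b
/-- new value of the less significant digit -/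
def lo (a b : ℕ) : ℕ := b + BB * bb a b - BB * cb a b

/-- internal carries of the digits, `x` the new value of the last digit -/
def carry (D : Fin 3 → ℕ) (x : ℕ) : Fin 3 → ℕ :=
  ![hi (D 0) (hi (D 1) x), lo (D 0) (hi (D 1) x), lo (D 1) x]

/-- last digit of the moving cell `a` after the exchange with the next cell `e` -/
def nx (a e : Cell) : ℕ := if a.b then a.D 2 else hi (a.D 2) (e.D 0)
/-- first digit of the next cell `e` after the exchange -/
def ny (a e : Cell) : ℕ := if a.b then e.D 0 else lo (a.D 2) (e.D 0)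

/-- the moved cell -/
def newc (r : Bool) (a e : Cell) : Cell :=
  ⟨!a.b, !a.b && !e.c, if r then 0 else carry a.D (nx a e)⟩

/-- the first digit of the head is adjusted -/
def adj (a : Cell) : List Cell → List Cell
  | [] => []
  | e :: tl => ⟨e.b, e.c, Function.update e.D 0 (ny a e)⟩ :: tl

def stE (r : Bool) : List Cell → List Cell
  | [] => [newc r zc zc]
  | a :: tl => newc r a (hd tl) :: adj a tl

def stF : List Cell → List Cell
  | [] => zc :: stE false []
  | a :: tl => a :: (if a.b then stF tl else stE false tl)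

/-- symbolic step; `r` is the reset flag, only used in type `E` -/
def st (ty : Ty) (r : Bool) (l : List Cell) : List Cell :=
  match ty with
  | Ty.E => stE r l
  | Ty.F => stF l

/-- validity of a configuration -/
def Val : Ty → List Cell → Prop
  | _, [] => True
  | ty, a :: tl => (ty = Ty.F → a.c = (a.b && !(hd tl).c)) ∧ Val (sT ty a.b) tl

/-- the stacks of a configuration -/
noncomputable def rl : Ty → Fin 3 → Fin 3 → List Cell → Stk
  | _, _, _, [] => fun _ tr => if tr.1 < 2 then 0 else lam / (lam - 1)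
  | ty, δ, p, a :: tl => fun i tr =>
      if i = posn δ ty p then a.val tr + rl (sT ty a.b) (-δ) (subP δ ty p) tl i tr / lam
      else rl (sT ty a.b) (-δ) (subP δ ty p) tl i tr

/-- the first `N` cells have bit `b = 0` -/
def base : ℕ → List Cell → Prop
  | 0, _ => True
  | N + 1, l => (hd l).b = false ∧ base N l.tail

/-- `n` steps, starting with type `ty`; `r k` is the reset flag of step number `k` -/
def run : ℕ → (ℕ → Bool) → Ty → List Cell → List Cell
  | 0, _, _, l => l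
  | n + 1, r, ty, l => run n (fun k => r (k + 1)) ty.other (st ty (r 0) l)

/-- first `N` cells (completed by default cells), then a fresh cell with first digit `τ` -/
def refill (τ : ℕ) : ℕ → List Cell → List Cell
  | 0, _ => [⟨false, false, ![τ, 1, 1]⟩]
  | N + 1, l => hd l :: refill τ N l.tail

/-- the state of a configuration at the beginning of a period -/
noncomputable def pt (l : List Cell) (R : Fin 12 → ℝ) (y : ℝ) : EE :=
  mkp (mkz (rl Ty.E 1 0 l) R) y 0

/-- truncated value of a configuration -/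
noncomputable def vN : ℕ → List Cell → ℝ
  | 0, _ => 2
  | (N + 1), l => (Vz (fun k => ((hd l).D k : ℤ)) + vN N l.tail) / MM

/-- value of a configuration -/
noncomputable def val : List Cell → ℝ
  | [] => 1 / 4094
  | a :: tl => (Vz (fun k => (a.D k : ℤ)) + val tl) / MM

/-- configurations without carries and borrows, all bits zero -/
def Good (l : List Cell) : Prop :=
  ∀ a ∈ l, a.b = false ∧ a.c = false ∧ ∀ k, 1 ≤ a.D k ∧ a.D k ≤ BB

end Pool.Agent.H385A
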