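import Mathlib
import Pool.Agent.H385Z.Defs
import Pool.Agent.Helper981.QA.P13
import Pool.Agent.Helper981.QA.P14

/-!
MP_7d4c8f_an, vN versus val: vN_val, val_range, good_facts, val_dense 
-/

set_option autoImplicit false

open Set Filter Topology MeasureTheory
open scoped ContDiff

namespace Pool.Agent.H385A

open Pool.Agent.Aub
open Pool.Agent.QA (bN bN_tri bN_move bN_lat bN_omega hT_flow hT_concat hT_lat gen_flow)


theorem P18_MMpos : (0 : ℝ) < MM := by unfold MM; norm_num

theorem P18_Vz (D : Fin 3 → ℕ) :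
    Vz (fun k => (D k : ℤ)) = 16769025 * (D 0 : ℝ) + 4095 * (D 1 : ℝ) + D 2 := by
  unfold Vz BB
  push_cast
  ring

theorem P18_range (l : List Cell) (h : Dle l) : 0 ≤ val l ∧ val l ≤ 2 := by
  induction l with
  | nil => rw [val]; norm_num
  | cons a tl ih =>
    have h1 : Dle tl := fun b hb k => h b (List.mem_cons_of_mem _ hb) k
    obtain ⟨h2, h3⟩ := ih h1
    have ha : ∀ k, (a.D k : ℝ) ≤ 4096 := by
      intro k
      have := h a List.mem_cons_self k
      unfold mm at this
      exact_mod_cast this
    have ha0 : ∀ k, (0 : ℝ) ≤ (a.D k : ℝ) := fun k => Nat.cast_nonneg _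
    rw [val, P18_Vz]
    have e0 := ha 0; have e1 := ha 1; have e2 := ha 2
    have f0 := ha0 0; have f1 := ha0 1; have f2 := ha0 2
    constructor
    · apply div_nonneg _ P18_MMpos.le
      positivity
    · rw [div_le_iff₀ P18_MMpos]
      unfold MM
      linarith

theorem vN_val (N : ℕ) (l : List Cell) (h : Dle l) : |vN N l - val l| ≤ 2 / MM ^ N := by
  induction N generalizing l with
  | zero =>
    obtain ⟨h1, h2⟩ := P18_range l h
    rw [vN, pow_zero, div_one, abs_le]
    constructor <;> linarith
  | succ N ih =>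
    have hMM := P18_MMpos
    cases l with
    | nil =>
      have h1 := ih [] h
      have e1 : vN (N + 1) [] - val [] = (vN N [] - val []) / MM := by
        rw [vN, P18_Vz]
        simp only [hd, zc, val, List.tail_nil]
        unfold MM
        push_cast
        ring
      rw [e1, abs_div, abs_of_pos hMM, pow_succ, ← div_div]
      exact div_le_div_of_nonneg_right h1 hMM.le
    | cons a tl =>
      have h1 := ih tl (fun b hb k => h b (List.mem_cons_of_mem _ hb) k)
      have e1 : vN (N + 1) (a :: tl) - val (a :: tl) = (vN N tl - val tl) / MM := by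
        rw [vN, val]
        simp only [hd, List.tail_cons]
        ring
      rw [e1, abs_div, abs_of_pos hMM, pow_succ, ← div_div]
      exact div_le_div_of_nonneg_right h1 hMM.le

theorem val_range (l : List Cell) (h : Dle l) : 0 ≤ val l ∧ val l ≤ 2 := by
  exact P18_range l h

theorem good_facts (l : List Cell) (h : Good l) :
    Dle l ∧ (∀ ty, Val ty l) ∧ (∀ N, base N l) := by
  induction l with
  | nil =>
    refine ⟨fun a ha => absurd ha (by simp), fun ty => by rw [Val]; trivial, fun N => ?_⟩
    induction N with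
    | zero => trivial
    | succ N ih => exact ⟨rfl, ih⟩
  | cons a tl ih =>
    obtain ⟨h1, h2, h3⟩ := ih (fun b hb => h b (List.mem_cons_of_mem _ hb))
    obtain ⟨hb, hc, hD⟩ := h a List.mem_cons_self
    refine ⟨?_, ?_, ?_⟩
    · intro b hb' k
      rcases List.mem_cons.mp hb' with rfl | hb'
      · have := (hD k).2
        unfold BB at this
        unfold mm
        omega
      · exact h1 b hb' k
    · intro ty
      rw [Val]
      refine ⟨fun _ => by rw [hb, hc]; rfl, h2 _⟩
    · intro N
      cases N with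
      | zero => trivial
      | succ N => exact ⟨hb, h3 N⟩

theorem val_dense (t : ℝ) (h0 : 0 ≤ t) (h1 : t ≤ 1) (j : ℕ) :
    ∃ l : List Cell, Good l ∧ |val l - (1 / 4094 + t)| ≤ 1 / MM ^ j := by
  induction j generalizing t with
  | zero =>
    refine ⟨[], fun a ha => absurd ha (by simp), ?_⟩
    simp only [val, pow_zero, div_one]
    rw [abs_le]
    constructor <;> linarith
  | succ j ih =>
    have hMM := P18_MMpos
    obtain ⟨n, hn, hn0, hn1⟩ : ∃ n : ℕ, n < 68669157375 ∧ 0 ≤ t * MM - n ∧ t * MM - n ≤ 1 := by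
      have hx0 : 0 ≤ t * MM := mul_nonneg h0 hMM.le
      have hx1 : t * MM ≤ 68669157375 := by
        have : (MM : ℝ) = 68669157375 := rfl
        rw [this]; nlinarith
      rcases Nat.lt_or_ge ⌊t * MM⌋₊ 68669157375 with h | h
      · refine ⟨⌊t * MM⌋₊, h, ?_, ?_⟩
        · have := Nat.floor_le hx0
          linarith
        · have := (Nat.lt_floor_add_one (t * MM)).le
          linarith
      · have h2 : ((68669157375 : ℕ) : ℝ) ≤ t * MM := (Nat.le_floor_iff hx0).mp h
        refine ⟨68669157374, by norm_num, ?_, ?_⟩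
        · push_cast at h2 ⊢; linarith
        · push_cast; linarith
    obtain ⟨l', hl', hv⟩ := ih (t * MM - n) hn0 hn1
    have hdig : n + 16773121 = 16769025 * (n / 16769025 + 1) + 4095 * (n / 4095 % 4095 + 1) +
      (n % 4095 + 1) := by omega
    refine ⟨⟨false, false, ![n / 16769025 + 1, n / 4095 % 4095 + 1, n % 4095 + 1]⟩ :: l', ?_, ?_⟩
    · intro a ha
      rcases List.mem_cons.mp ha with rfl | ha
      · refine ⟨rfl, rfl, fun k => ?_⟩
        unfold BB
        fin_cases k
        · show 1 ≤ n / 16769025 + 1 ∧ n / 16769025 + 1 ≤ 4095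
          omega
        · show 1 ≤ n / 4095 % 4095 + 1 ∧ n / 4095 % 4095 + 1 ≤ 4095
          omega
        · show 1 ≤ n % 4095 + 1 ∧ n % 4095 + 1 ≤ 4095
          omega
      · exact hl' a ha
    · rw [val, P18_Vz]
      have e1 : (16769025 * (((![n / 16769025 + 1, n / 4095 % 4095 + 1, n % 4095 + 1] :
          Fin 3 → ℕ) 0 : ℕ) : ℝ) +
          4095 * (((![n / 16769025 + 1, n / 4095 % 4095 + 1, n % 4095 + 1] : Fin 3 → ℕ) 1 : ℕ) : ℝ) +
          (((![n / 16769025 + 1, n / 4095 % 4095 + 1, n % 4095 + 1] : Fin 3 → ℕ) 2 : ℕ) : ℝ)) =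
          n + 16773121 := by
        show (16769025 * ((n / 16769025 + 1 : ℕ) : ℝ) + 4095 * ((n / 4095 % 4095 + 1 : ℕ) : ℝ) +
          ((n % 4095 + 1 : ℕ) : ℝ)) = n + 16773121
        exact_mod_cast hdig.symm
      rw [e1]
      have e2 : (n + 16773121 + val l') / MM - (1 / 4094 + t) =
          (val l' - (1 / 4094 + (t * MM - n))) / MM := by
        unfold MM
        field_simp; ring
      rw [e2, abs_div, abs_of_pos hMM, pow_succ, ← div_div]
      exact div_le_div_of_nonneg_right hv hMM.le

end Pool.Agent.H385A
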