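import Mathlib
import Pool.Agent.H385Z.Defs

set_option autoImplicit false

open Set Filter Topology

namespace Pool.Agent.H385A

open Pool.Agent.Aub

theorem X07_vb (b : Bool) : 0 ≤ vb b ∧ vb b ≤ 1 := by
  cases b <;> simp [vb]

theorem X07_val (a : Cell) (ha : ∀ k, a.D k ≤ mm) (tr : Fin 5) :
    0 ≤ a.val tr ∧ a.val tr ≤ mm ∧ (tr = 0 ∨ tr = 1 → a.val tr ≤ 1) := by
  have hmm : (1 : ℝ) ≤ (mm : ℝ) := by
    unfold mm
    norm_num
  have h0 : ((a.D 0 : ℕ) : ℝ) ≤ mm := by exact_mod_cast ha 0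
  have h1 : ((a.D 1 : ℕ) : ℝ) ≤ mm := by exact_mod_cast ha 1
  have h2 : ((a.D 2 : ℕ) : ℝ) ≤ mm := by exact_mod_cast ha 2
  have hb := X07_vb a.b
  have hc := X07_vb a.c
  fin_cases tr
  · change 0 ≤ vb a.b ∧ vb a.b ≤ mm ∧ (_ → vb a.b ≤ 1)
    exact ⟨hb.1, by linarith, fun _ => hb.2⟩
  · change 0 ≤ vb a.c ∧ vb a.c ≤ mm ∧ (_ → vb a.c ≤ 1)
    exact ⟨hc.1, by linarith, fun _ => hc.2⟩
  · refine ⟨?_, ?_, ?_⟩
    · change (0 : ℝ) ≤ ((a.D 0 : ℕ) : ℝ)
      positivity
    · exact h0
    · rintro (h | h) <;> exact absurd h (by decide)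
  · refine ⟨?_, ?_, ?_⟩
    · change (0 : ℝ) ≤ ((a.D 1 : ℕ) : ℝ)
      positivity
    · exact h1
    · rintro (h | h) <;> exact absurd h (by decide)
  · refine ⟨?_, ?_, ?_⟩
    · change (0 : ℝ) ≤ ((a.D 2 : ℕ) : ℝ)
      positivity
    · exact h2
    · rintro (h | h) <;> exact absurd h (by decide)

/-- TARGET -/
theorem rl_range (l : List Cell) (hD : Dle l) : ∀ (ty : Ty) (δ p : Fin 3) (i : Fin 3) (tr : Fin 5),
    0 ≤ rl ty δ p l i tr ∧ rl ty δ p l i tr ≤ mm + 1/16 ∧
    (tr = 0 ∨ tr = 1 → rl ty δ p l i tr ≤ 1 + 1/16) := by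
  have hmm : (mm : ℝ) = 4096 := by
    unfold mm
    norm_num
  induction l with
  | nil =>
    intro ty δ p i tr
    have h0 : rl ty δ p [] i tr = if tr.1 < 2 then 0 else lam / (lam - 1) := by
      unfold rl
      rfl
    rw [h0, hmm]
    unfold lam
    split_ifs with h
    · exact ⟨le_rfl, by norm_num, fun _ => by norm_num⟩
    · refine ⟨by norm_num, by norm_num, ?_⟩
      rintro (rfl | rfl) <;> exact absurd (by decide) h
  | cons a tl ih =>
    intro ty δ p i tr
    have ha : ∀ k, a.D k ≤ mm := hD a List.mem_cons_self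
    have htl : Dle tl := fun c hc => hD c (List.mem_cons_of_mem _ hc)
    have h1 : rl ty δ p (a :: tl) i tr = if i = posn δ ty p then a.val tr +
        rl (sT ty a.b) (-δ) (subP δ ty p) tl i tr / lam
        else rl (sT ty a.b) (-δ) (subP δ ty p) tl i tr := by
      rw [rl]
    obtain ⟨g0, g1, g2⟩ := ih htl (sT ty a.b) (-δ) (subP δ ty p) i tr
    obtain ⟨v0, v1, v2⟩ := X07_val a ha tr
    rw [h1]
    obtain ⟨v, hv⟩ : ∃ v, v = rl (sT ty a.b) (-δ) (subP δ ty p) tl i tr := ⟨_, rfl⟩
    rw [← hv] at g0 g1 g2 ⊢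
    by_cases hi : i = posn δ ty p
    · rw [if_pos hi]
      have hl : v / lam ≤ 1 / 16 := by
        unfold lam
        rw [div_le_iff₀ (by norm_num)]
        rw [hmm] at g1
        linarith
      have hl0 : 0 ≤ v / lam := by
        unfold lam
        positivity
      refine ⟨by linarith, by linarith, ?_⟩
      intro ht
      have := v2 ht
      linarith
    · rw [if_neg hi]
      exact ⟨g0, g1, g2⟩

theorem X07_hi {a : ℕ} (b : ℕ) (ha : a ≤ mm) : hi a b ≤ mm := by
  unfold hi cb bb
  split_ifs <;> omega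

theorem X07_lo (a : ℕ) {b : ℕ} (hb : b ≤ mm) : lo a b ≤ mm := by
  unfold lo cb bb BB
  unfold mm at *
  split_ifs <;> omega

theorem X07_carry_le (D : Fin 3 → ℕ) (x : ℕ) (h : ∀ k, D k ≤ mm) (hx : x ≤ mm) (k : Fin 3) :
    carry D x k ≤ mm := by
  unfold carry
  fin_cases k
  · exact X07_hi _ (h 0)
  · exact X07_lo _ (X07_hi _ (h 1))
  · exact X07_lo _ hx

theorem X07_nx (a e : Cell) (h : a.D 2 ≤ mm) : nx a e ≤ mm := by
  unfold nx
  split_ifs with c
  · exact h
  · exact X07_hi _ h

theorem X07_ny (a e : Cell) (h : e.D 0 ≤ mm) : ny a e ≤ mm := by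
  unfold ny
  split_ifs with c
  · exact h
  · exact X07_lo _ h

theorem X07_newc (r : Bool) (a e : Cell) (h : ∀ k, a.D k ≤ mm) (k : Fin 3) :
    (newc r a e).D k ≤ mm := by
  unfold newc
  cases r with
  | true => exact Nat.zero_le _
  | false => exact X07_carry_le a.D (nx a e) h (X07_nx a e (h 2)) k

theorem X07_Dle_adj (a0 : Cell) (l : List Cell) (h : Dle l) : Dle (adj a0 l) := by
  cases l with
  | nil => exact h
  | cons a tl =>
    intro c hc k
    rw [adj, List.mem_cons] at hc
    rcases hc with rfl | hc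
    · by_cases hk : k = 0
      · subst hk
        change Function.update a.D 0 (ny a0 a) 0 ≤ mm
        rw [Function.update_self]
        exact X07_ny _ _ (h a List.mem_cons_self 0)
      · change Function.update a.D 0 (ny a0 a) k ≤ mm
        rw [Function.update_of_ne hk]
        exact h a List.mem_cons_self k
    · exact h c (List.mem_cons_of_mem _ hc) k

theorem X07_Dle_cons {a : Cell} {l : List Cell} (ha : ∀ k, a.D k ≤ mm) (h : Dle l) :
    Dle (a :: l) := by
  intro c hc
  rw [List.mem_cons] at hc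
  rcases hc with rfl | hc
  · exact ha
  · exact h c hc

theorem X07_zc (k : Fin 3) : zc.D k ≤ mm := by
  change 1 ≤ mm
  unfold mm
  norm_num

theorem X07_Dle_stE (r : Bool) (l : List Cell) (h : Dle l) : Dle (stE r l) := by
  cases l with
  | nil =>
    rw [stE]
    exact X07_Dle_cons (X07_newc r zc zc X07_zc) (fun c hc => absurd hc (by simp))
  | cons a tl =>
    have ha : ∀ k, a.D k ≤ mm := h a List.mem_cons_self
    have htl : Dle tl := fun c hc => h c (List.mem_cons_of_mem _ hc)
    rw [stE]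
    exact X07_Dle_cons (X07_newc r a _ ha) (X07_Dle_adj a tl htl)

theorem X07_Dle_stF (l : List Cell) (h : Dle l) : Dle (stF l) := by
  induction l with
  | nil =>
    rw [stF]
    exact X07_Dle_cons X07_zc (X07_Dle_stE false [] h)
  | cons a tl ih =>
    have ha : ∀ k, a.D k ≤ mm := h a List.mem_cons_self
    have htl : Dle tl := fun c hc => h c (List.mem_cons_of_mem _ hc)
    rw [stF]
    refine X07_Dle_cons ha ?_
    split_ifs
    · exact ih htl
    · exact X07_Dle_stE false tl htl

theorem X07_val_adj (a0 : Cell) (ty : Ty) (l : List Cell) (h : Val ty l) :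
    Val ty (adj a0 l) := by
  cases l with
  | nil => exact h
  | cons a tl =>
    rw [adj, Val]
    rw [Val] at h
    exact h

theorem X07_hd_adj (a0 : Cell) (l : List Cell) : (hd (adj a0 l)).c = (hd l).c := by
  cases l with
  | nil => rfl
  | cons a tl => rfl

theorem X07_val_stE (r : Bool) (l : List Cell) (h : Val Ty.E l) : Val Ty.F (stE r l) := by
  cases l with
  | nil =>
    rw [stE, Val]
    refine ⟨fun _ => rfl, ?_⟩
    rw [Val]
    trivial
  | cons a tl =>
    rw [Val] at h
    rw [stE, Val]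
    constructor
    · intro _
      rw [X07_hd_adj]
      rfl
    · have h2 : sT Ty.F (newc r a (hd tl)).b = sT Ty.E a.b := by
        change sT Ty.F (!a.b) = sT Ty.E a.b
        cases a.b <;> rfl
      rw [h2]
      exact X07_val_adj _ _ _ h.2

theorem X07_val_stF (l : List Cell) (h : Val Ty.F l) : Val Ty.E (stF l) := by
  induction l with
  | nil =>
    rw [stF, Val]
    refine ⟨fun h0 => (by cases h0), ?_⟩
    exact X07_val_stE false [] (by rw [Val]; trivial)
  | cons a tl ih =>
    rw [Val] at h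
    rw [stF, Val]
    refine ⟨fun h0 => (by cases h0), ?_⟩
    obtain ⟨_, h2⟩ := h
    cases hb : a.b with
    | true =>
      rw [hb] at h2
      rw [if_pos rfl]
      exact ih h2
    | false =>
      rw [hb] at h2
      rw [if_neg (by simp)]
      exact X07_val_stE false tl h2

/-- TARGET -/
theorem st_val (ty : Ty) (r : Bool) (l : List Cell) (hD : Dle l) (hv : Val ty l) :
    Val ty.other (st ty r l) ∧ Dle (st ty r l) := by
  cases ty with
  | E => exact ⟨X07_val_stE r l hv, X07_Dle_stE r l hD⟩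
  | F => exact ⟨X07_val_stF l hv, X07_Dle_stF l hD⟩

end Pool.Agent.H385A
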