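import Mathlib
import Pool.Agent.H385Z.Defs

set_option autoImplicit false

open Set Filter Topology

namespace Pool.Agent.H385A

open Pool.Agent.Aub

theorem X02_stk_mkz (S : Stk) (R : Fin 12 → ℝ) : stk (mkz S R) = S := rfl
theorem X02_reg_mkz (S : Stk) (R : Fin 12 → ℝ) : reg (mkz S R) = R := rfl
theorem X02_stk_add (z w : Zs) (i : Fin 3) (tr : Fin 5) :
    stk (z + w) i tr = stk z i tr + stk w i tr := rfl
theorem X02_reg_add (z w : Zs) (k : Fin 12) : reg (z + w) k = reg z k + reg w k := rfl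

theorem X02_stp (a b t : ℝ) : 0 ≤ stp a b t ∧ stp a b t ≤ 1 :=
  ⟨Real.smoothTransition.nonneg _, Real.smoothTransition.le_one _⟩

theorem X02_Sc (t : ℝ) : 0 ≤ Sc t ∧ Sc t ≤ 1 := X02_stp _ _ _

theorem X02_sum (f : ℕ → ℝ) (hf : ∀ j, 0 ≤ f j ∧ f j ≤ 1) :
    0 ≤ ∑ j ∈ Finset.range mm, f j ∧ ∑ j ∈ Finset.range mm, f j ≤ (mm : ℝ) := by
  constructor
  · exact Finset.sum_nonneg fun j _ => (hf j).1
  · calc ∑ j ∈ Finset.range mm, f j ≤ ∑ _j ∈ Finset.range mm, (1 : ℝ) :=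
          Finset.sum_le_sum fun j _ => (hf j).2
      _ = (mm : ℝ) := by simp

theorem X02_S1 (t : ℝ) : 0 ≤ S1 t ∧ S1 t ≤ (mm : ℝ) := X02_sum _ fun _ => X02_stp _ _ _
theorem X02_S2 (t : ℝ) : 0 ≤ S2 t ∧ S2 t ≤ (mm : ℝ) := X02_sum _ fun _ => X02_stp _ _ _
theorem X02_Qx (t : ℝ) : 0 ≤ Qx t ∧ Qx t ≤ (mm : ℝ) := X02_sum _ fun _ => X02_stp _ _ _

attribute [local irreducible] S1 S2 Qx

theorem X02_mul {a b : ℝ} (ha : 0 ≤ a ∧ a ≤ 1) (hb : 0 ≤ b ∧ b ≤ 1) : 0 ≤ a * b ∧ a * b ≤ 1 :=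
  ⟨mul_nonneg ha.1 hb.1, mul_le_one₀ ha.2 hb.1 hb.2⟩

theorem X02_sub {a : ℝ} (ha : 0 ≤ a ∧ a ≤ 1) : 0 ≤ 1 - a ∧ 1 - a ≤ 1 :=
  ⟨by linarith [ha.2], by linarith [ha.1]⟩

theorem X02_mulm {a b : ℝ} (ha : 0 ≤ a ∧ a ≤ 1) (hb : 0 ≤ b ∧ b ≤ (mm : ℝ)) :
    0 ≤ a * b ∧ a * b ≤ (mm : ℝ) :=
  ⟨mul_nonneg ha.1 hb.1, by nlinarith [ha.1, ha.2, hb.1, hb.2]⟩

theorem X02_one : (1 : ℝ) ≤ (mm : ℝ) := by norm_num [mm]

theorem X02_up {a : ℝ} (ha : 0 ≤ a ∧ a ≤ 1) : 0 ≤ a ∧ a ≤ (mm : ℝ) :=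
  ⟨ha.1, ha.2.trans X02_one⟩

theorem X02_gT (t : ℝ) : 0 ≤ gT t ∧ gT t ≤ 1 :=
  X02_sub (X02_mul (X02_stp _ _ _) (X02_sub (X02_stp _ _ _)))
theorem X02_gt (t : ℝ) : 0 ≤ gt t ∧ gt t ≤ 1 :=
  X02_sub (X02_mul (X02_stp _ _ _) (X02_sub (X02_stp _ _ _)))
theorem X02_cT (a b : ℝ) : 0 ≤ cT a b ∧ cT a b ≤ 1 :=
  X02_mul (X02_mul (X02_stp _ _ _) (X02_sub (X02_stp _ _ _))) (X02_sub (X02_stp _ _ _))
theorem X02_ct (a b : ℝ) : 0 ≤ ct a b ∧ ct a b ≤ 1 :=
  X02_mul (X02_mul (X02_stp _ _ _) (X02_sub (X02_stp _ _ _))) (X02_sub (X02_stp _ _ _))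

theorem X02_bT (a b : ℝ) : 0 ≤ bT a b ∧ bT a b ≤ 1 :=
  X02_mul (X02_sub (X02_stp _ _ _)) (X02_stp _ _ _)
theorem X02_bt (a b : ℝ) : 0 ≤ bt a b ∧ bt a b ≤ 1 :=
  X02_mul (X02_sub (X02_stp _ _ _)) (X02_stp _ _ _)
theorem X02_Sg (t : ℝ) : -1 ≤ Sg t ∧ Sg t ≤ 1 := by
  unfold Sg
  have := X02_Sc t
  have := X02_Sc (-t)
  constructor <;> linarith [this.1, this.2]
theorem X02_dif {a b : ℝ} (ha : 0 ≤ a ∧ a ≤ 1) (hb : 0 ≤ b ∧ b ≤ 1) :
    -1 ≤ a - b ∧ a - b ≤ 1 :=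
  ⟨by linarith [ha.1, hb.2], by linarith [ha.2, hb.1]⟩
theorem X02_BB : (BB : ℝ) = 4095 := by norm_num [BB]

theorem X02_Wt (b : Bool) (z : Zs) : 0 ≤ Wt b z ∧ Wt b z ≤ 1 := by
  unfold Wt
  cases b
  · simpa using X02_sub (X02_Sc (reg z 0))
  · simpa using X02_Sc (reg z 0)

theorem X02_Wt_congr (b : Bool) (z w : Zs) (h : reg z 0 = reg w 0) : Wt b z = Wt b w := by
  unfold Wt; rw [h]

theorem X02_zero : (0 : ℝ) ≤ 0 ∧ (0 : ℝ) ≤ (mm : ℝ) := ⟨le_refl _, by norm_num [mm]⟩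

theorem X02_f1 (s d : Fin 3) (z : Zs) (k : Fin 12) :
    0 ≤ reg (f1 s d z) k ∧ reg (f1 s d z) k ≤ (mm : ℝ) := by
  rw [f1, X02_reg_mkz]
  fin_cases k
  · exact X02_zero
  · exact X02_up (X02_Sc _)
  · exact X02_up (X02_Sc _)
  · exact X02_up (X02_Sc _)
  · exact X02_S1 _
  · exact X02_S1 _
  · exact X02_S1 _
  · exact X02_S2 _
  · exact X02_S2 _
  · exact X02_S2 _
  · exact X02_zero
  · exact X02_zero

theorem X02_f2 (d : Fin 3) (z : Zs) (k : Fin 12) :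
    -1 ≤ reg (f2 d z) k ∧ reg (f2 d z) k ≤ 1 := by
  rw [f2, X02_reg_mkz]
  have h0 : (-1 : ℝ) ≤ 0 ∧ (0 : ℝ) ≤ 1 := ⟨by norm_num, zero_le_one⟩
  fin_cases k
  · exact h0
  · exact h0
  · exact h0
  · exact h0
  · exact h0
  · exact h0
  · exact h0
  · exact h0
  · exact h0
  · exact h0
  · exact X02_dif (X02_mul (X02_mul (X02_sub (X02_Sc _)) (X02_gT _)) (X02_cT _ _))
      (X02_mul (X02_sub (X02_Sc _)) (X02_bt _ _))
  · exact X02_dif (X02_mul (X02_mul (X02_sub (X02_Sc _)) (X02_gt _)) (X02_ct _ _))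
      (X02_mul (X02_sub (X02_Sc _)) (X02_bT _ _))

theorem X02_f1_zero (s d : Fin 3) (z : Zs) : reg (f1 s d z) 0 = 0 := rfl
theorem X02_f2_zero (d : Fin 3) (z : Zs) : reg (f2 d z) 0 = 0 := rfl

theorem X02_exp : Real.exp (-16) ≤ 1 / 1000000 := by
  have h1 : (2.7 : ℝ) < Real.exp 1 := by
    have := Real.exp_one_gt_d9; linarith
  have h2 : Real.exp 16 = Real.exp 1 ^ 16 := by
    rw [← Real.exp_nat_mul]; norm_num
  have h3 : (1000000 : ℝ) ≤ Real.exp 16 := by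
    rw [h2]
    have : (2.7 : ℝ) ^ 16 ≤ Real.exp 1 ^ 16 := pow_le_pow_left₀ (by norm_num) h1.le 16
    refine le_trans ?_ this
    norm_num
  rw [Real.exp_neg, one_div]
  exact inv_anti₀ (by norm_num) h3

/-- the intermediate states -/
theorem X02_cm (cc : Clamp (5/4)) (cx : Clamp (mm + 1/2)) (b : Bool) (s d : Fin 3) (r : ℝ)
    (z : Zs) : ∃ z1 z2 z3 z4 z5 : Zs,
      z1 = M0 cc cx s d z + f1 s d (M0 cc cx s d z) ∧ z2 = z1 + f2 d z1 ∧
      z3 = z2 + f3 b s d z2 ∧ z4 = M4 b s d z3 ∧ z5 = z4 + f5 b d r z4 ∧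
      cm cc cx b s d r z = M6 z5 :=
  ⟨_, _, _, _, _, rfl, rfl, rfl, rfl, rfl, rfl⟩

theorem X02_r0 (cc : Clamp (5/4)) (cx : Clamp (mm + 1/2)) (b : Bool) (s d : Fin 3) (r : ℝ)
    (z z1 z2 z3 z4 z5 : Zs)
    (h1 : z1 = M0 cc cx s d z + f1 s d (M0 cc cx s d z)) (h2 : z2 = z1 + f2 d z1)
    (h3 : z3 = z2 + f3 b s d z2) (h4 : z4 = M4 b s d z3) (h5 : z5 = z4 + f5 b d r z4) :
    reg z1 0 = reg z 0 ∧ reg z2 0 = reg z 0 ∧ reg z3 0 = reg z 0 ∧ reg z4 0 = reg z 0 ∧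
      reg z5 0 = reg z 0 := by
  have e1 : reg z1 0 = reg z 0 := by
    rw [h1, X02_reg_add, X02_f1_zero, add_zero]; rfl
  have e2 : reg z2 0 = reg z 0 := by
    rw [h2, X02_reg_add, X02_f2_zero, add_zero, e1]
  have e3 : reg z3 0 = reg z 0 := by
    rw [h3, X02_reg_add, e2]
    simp [f3, X02_reg_mkz]
  have e4 : reg z4 0 = reg z 0 := by
    rw [h4, M4, X02_reg_mkz, e3]
  have e5 : reg z5 0 = reg z 0 := by
    rw [h5, X02_reg_add, e4]
    simp [f5, X02_reg_mkz]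
  exact ⟨e1, e2, e3, e4, e5⟩

/-- TARGET -/
theorem cm_reg (cc : Clamp (5/4)) (cx : Clamp (mm + 1/2)) (b : Bool) (s d : Fin 3)
    (hsd : s ≠ d) (r : ℝ) (z : Zs) (hR : ∀ k, k ≠ 0 → |reg z k| ≤ 1/16) :
    reg (cm cc cx b s d r z) 0 = reg z 0 ∧
    ∀ k, k ≠ 0 → |reg (cm cc cx b s d r z) k| ≤ 1/32 := by
  obtain ⟨z1, z2, z3, z4, z5, h1, h2, h3, h4, h5, h6⟩ := X02_cm cc cx b s d r z
  obtain ⟨e1, e2, e3, e4, e5⟩ := X02_r0 cc cx b s d r z z1 z2 z3 z4 z5 h1 h2 h3 h4 h5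
  constructor
  · rw [h6, M6, X02_reg_mkz]
    simp [e5]
  · intro k hk
    rw [h6, M6, X02_reg_mkz]
    simp only [hk, if_false]
    have a5 : reg z5 k = reg z4 k := by
      rw [h5, X02_reg_add]; simp [f5, X02_reg_mkz]
    have a4 : reg z4 k = reg z3 k := by rw [h4, M4, X02_reg_mkz]
    have a3 : reg z3 k = reg z2 k := by
      rw [h3, X02_reg_add]; simp [f3, X02_reg_mkz]
    have a2 : reg z2 k = reg z1 k + reg (f2 d z1) k := by rw [h2, X02_reg_add]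
    have a1 : reg z1 k = reg z k + reg (f1 s d (M0 cc cx s d z)) k := by
      rw [h1, X02_reg_add]; rfl
    rw [a5, a4, a3, a2, a1, abs_mul, abs_of_pos (Real.exp_pos _)]
    have b1 := X02_f1 s d (M0 cc cx s d z) k
    have b2 := X02_f2 d z1 k
    have b0 := abs_le.1 (hR k hk)
    have hmm : (mm : ℝ) = 4096 := by norm_num [mm]
    rw [hmm] at b1
    have hb : |reg z k + reg (f1 s d (M0 cc cx s d z)) k + reg (f2 d z1) k| ≤ 4098 := by
      rw [abs_le]; constructor <;> linarith [b0.1, b0.2, b1.1, b1.2, b2.1, b2.2]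
    calc Real.exp (-16) * |reg z k + reg (f1 s d (M0 cc cx s d z)) k + reg (f2 d z1) k|
        ≤ (1 / 1000000) * 4098 := mul_le_mul X02_exp hb (abs_nonneg _) (by norm_num)
      _ ≤ 1 / 32 := by norm_num

theorem X02_pushed (r : ℝ) (z : Zs) (tr : Fin 5) :
    0 ≤ pushed r z tr ∧ pushed r z tr ≤ (mm : ℝ) := by
  unfold pushed
  fin_cases tr
  · exact X02_up (X02_sub (X02_Sc _))
  · exact X02_up (X02_mul (X02_sub (X02_Sc _)) (X02_sub (X02_Sc _)))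
  · exact X02_Qx _
  · exact X02_Qx _
  · exact X02_Qx _

theorem X02_rd (z : Zs) (tr : Fin 5) :
    0 ≤ (![Sc (reg z 1), Sc (reg z 2), Qx (reg z 7), Qx (reg z 8), Qx (reg z 9)] : Fin 5 → ℝ) tr ∧
    (![Sc (reg z 1), Sc (reg z 2), Qx (reg z 7), Qx (reg z 8), Qx (reg z 9)] : Fin 5 → ℝ) tr
      ≤ (mm : ℝ) := by
  fin_cases tr
  · exact X02_up (X02_Sc _)
  · exact X02_up (X02_Sc _)
  · exact X02_Qx _
  · exact X02_Qx _
  · exact X02_Qx _

theorem X02_M0 (cc : Clamp (5/4)) (cx : Clamp (mm + 1/2)) (s d : Fin 3) (z : Zs)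
    (hS : ∀ i tr, |stk z i tr| ≤ 2 ^ 32) (i : Fin 3) (tr : Fin 5) (hi : i = s ∨ i = d) :
    -1/2 ≤ stk (M0 cc cx s d z) i tr ∧ stk (M0 cc cx s d z) i tr ≤ (mm : ℝ) + 3/4 := by
  rw [M0, X02_stk_mkz]
  simp only [hi, if_true]
  have hmm : (mm : ℝ) = 4096 := by norm_num [mm]
  split_ifs with h
  · have := cc.rng _ (hS i tr)
    constructor
    · exact this.1
    · rw [hmm]; linarith [this.2]
  · have := cx.rng _ (hS i tr)
    constructor
    · exact this.1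
    · linarith [this.2]

/-- TARGET -/
theorem cm_bound (cc : Clamp (5/4)) (cx : Clamp (mm + 1/2)) (b : Bool) (s d : Fin 3)
    (hsd : s ≠ d) (r : ℝ) (z : Zs) (hS : ∀ i tr, |stk z i tr| ≤ 2 ^ 32) :
    (∀ i tr, (i = s ∨ i = d) → |stk (cm cc cx b s d r z) i tr| ≤ 2 ^ 31) ∧
    ∀ i tr, i ≠ s → i ≠ d → stk (cm cc cx b s d r z) i tr = stk z i tr := by
  obtain ⟨z1, z2, z3, z4, z5, h1, h2, h3, h4, h5, h6⟩ := X02_cm cc cx b s d r z
  obtain ⟨e1, e2, e3, e4, e5⟩ := X02_r0 cc cx b s d r z z1 z2 z3 z4 z5 h1 h2 h3 h4 h5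
  have hmm : (mm : ℝ) = 4096 := by norm_num [mm]
  have c1 : ∀ i tr, stk z1 i tr = stk (M0 cc cx s d z) i tr := by
    intro i tr; rw [h1, X02_stk_add]; simp [f1, X02_stk_mkz]
  have c2 : ∀ i tr, stk z2 i tr = stk z1 i tr := by
    intro i tr; rw [h2, X02_stk_add]; simp [f2, X02_stk_mkz]
  have c6 : ∀ i tr, stk (cm cc cx b s d r z) i tr = stk z5 i tr := by
    intro i tr; rw [h6, M6, X02_stk_mkz]
  constructor
  · intro i tr hi
    have g0 := X02_M0 cc cx s d z hS i tr hi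
    rw [← c1, ← c2, hmm] at g0
    rw [c6]
    have w3 := X02_Wt b z2
    have w4 := X02_Wt b z3
    have w5 := X02_Wt b z4
    by_cases his : i = s
    · have hid : i ≠ d := by rw [his]; exact hsd
      have g3 : |stk z3 i tr| ≤ 8193 := by
        rw [h3, X02_stk_add, f3, X02_stk_mkz]
        simp only [his, if_true]
        have hr := X02_mulm w3 (X02_rd z2 tr)
        rw [hmm] at hr
        rw [his] at g0
        rw [abs_le]
        constructor <;> linarith [g0.1, g0.2, hr.1, hr.2]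
      have g4 : |stk z4 i tr| ≤ 131072 * 8193 := by
        rw [h4, M4, X02_stk_mkz]
        simp only [his, if_true]
        rw [his] at g3
        rw [abs_mul, abs_of_pos (Real.exp_pos _)]
        have hl : Real.exp (Wt b z3 * Real.log lam) ≤ 131072 := by
          have hlog : 0 ≤ Real.log lam := Real.log_nonneg (by norm_num [lam])
          calc Real.exp (Wt b z3 * Real.log lam) ≤ Real.exp (Real.log lam) := by
                apply Real.exp_le_exp.2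
                nlinarith [w4.1, w4.2]
            _ = 131072 := by rw [Real.exp_log (by norm_num [lam])]; rfl
        exact mul_le_mul hl g3 (abs_nonneg _) (by norm_num)
      have g5 : stk z5 i tr = stk z4 i tr := by
        rw [h5, X02_stk_add, f5, X02_stk_mkz]
        simp [hid]
      rw [g5]
      refine g4.trans (by norm_num)
    · have hid : i = d := by
        rcases hi with h | h
        · exact absurd h his
        · exact h
      have g3 : |stk z3 i tr| ≤ 8193 := by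
        rw [h3, X02_stk_add, f3, X02_stk_mkz]
        simp only [his, if_false]
        have hr : -4096 ≤ Wt b z2 * ((BB : ℝ) * Sg (reg z2 10)) ∧
            Wt b z2 * ((BB : ℝ) * Sg (reg z2 10)) ≤ 4096 := by
          rw [X02_BB]
          have := X02_Sg (reg z2 10)
          constructor <;> nlinarith [this.1, this.2, w3.1, w3.2]
        rw [abs_le]
        split_ifs
        · constructor <;> linarith [g0.1, g0.2, hr.1, hr.2]
        · constructor <;> linarith [g0.1, g0.2]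
      have g4 : |stk z4 i tr| ≤ 8193 := by
        rw [h4, M4, X02_stk_mkz]
        simp only [his, if_false, hid, if_true]
        rw [hid] at g3
        have hne : d ≠ s := fun h => hsd h.symm
        simp only [hne, if_false]
        rw [abs_mul, abs_of_pos (Real.exp_pos _)]
        have hl : Real.exp (-(Wt b z3 * Real.log lam)) ≤ 1 := by
          have hlog : 0 ≤ Real.log lam := Real.log_nonneg (by norm_num [lam])
          rw [Real.exp_le_one_iff]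
          nlinarith [w4.1, w4.2]
        calc Real.exp (-(Wt b z3 * Real.log lam)) * |stk z3 d tr| ≤ 1 * 8193 :=
              mul_le_mul hl g3 (abs_nonneg _) (by norm_num)
          _ = 8193 := by norm_num
      have g5 : |stk z5 i tr| ≤ 8193 + 4096 := by
        rw [h5, X02_stk_add, f5, X02_stk_mkz]
        simp only [hid, if_true]
        rw [hid] at g4
        have hr := X02_mulm w5 (X02_pushed r z4 tr)
        rw [hmm] at hr
        have := abs_le.1 g4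
        rw [abs_le]
        constructor <;> linarith [this.1, this.2, hr.1, hr.2]
      refine g5.trans (by norm_num)
  · intro i tr his hid
    rw [c6, h5, X02_stk_add, f5, X02_stk_mkz, h4, M4, X02_stk_mkz, h3, X02_stk_add, f3,
      X02_stk_mkz]
    simp only [his, hid, if_false, false_and, add_zero]
    rw [c2, c1, M0, X02_stk_mkz]
    simp [his, hid]

/-- TARGET -/
theorem cm_zero (cc : Clamp (5/4)) (cx : Clamp (mm + 1/2)) (b : Bool) (s d : Fin 3)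
    (hsd : s ≠ d) (r : ℝ) (z : Zs) (hw : Wt b z = 0) :
    stk (cm cc cx b s d r z) = stk (M0 cc cx s d z) := by
  obtain ⟨z1, z2, z3, z4, z5, h1, h2, h3, h4, h5, h6⟩ := X02_cm cc cx b s d r z
  obtain ⟨e1, e2, e3, e4, e5⟩ := X02_r0 cc cx b s d r z z1 z2 z3 z4 z5 h1 h2 h3 h4 h5
  have c1 : ∀ i tr, stk z1 i tr = stk (M0 cc cx s d z) i tr := by
    intro i tr; rw [h1, X02_stk_add]; simp [f1, X02_stk_mkz]
  have c2 : ∀ i tr, stk z2 i tr = stk z1 i tr := by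
    intro i tr; rw [h2, X02_stk_add]; simp [f2, X02_stk_mkz]
  have c6 : ∀ i tr, stk (cm cc cx b s d r z) i tr = stk z5 i tr := by
    intro i tr; rw [h6, M6, X02_stk_mkz]
  have w2 : Wt b z2 = 0 := by rw [X02_Wt_congr b z2 z e2, hw]
  have w3 : Wt b z3 = 0 := by rw [X02_Wt_congr b z3 z e3, hw]
  have w4 : Wt b z4 = 0 := by rw [X02_Wt_congr b z4 z e4, hw]
  funext i tr
  rw [c6, h5, X02_stk_add, f5, X02_stk_mkz, w4, h4, M4, X02_stk_mkz, w3, h3, X02_stk_add, f3,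
      X02_stk_mkz, w2]
  simp [c2, c1]

end Pool.Agent.H385A
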