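import Mathlib
import Pool.Agent.H385Z.Defs
import Pool.Agent.H385Z.XReg
import Pool.Agent.H385Z.XRange

set_option autoImplicit false

open Set Filter Topology

namespace Pool.Agent.H385A

open Pool.Agent.Aub

theorem X06_mm : (mm : ℝ) = 4096 := by unfold mm; norm_num

theorem X06_stp0 {a b t : ℝ} (hab : a < b) (h : t ≤ a) : stp a b t = 0 := by
  unfold stp
  apply Real.smoothTransition.zero_of_nonpos
  exact div_nonpos_of_nonpos_of_nonneg (by linarith) (by linarith)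

theorem X06_stp1 {a b t : ℝ} (hab : a < b) (h : b ≤ t) : stp a b t = 1 := by
  unfold stp
  apply Real.smoothTransition.one_of_one_le
  rw [le_div_iff₀ (by linarith)]
  linarith

theorem X06_sum {α β t : ℝ} (hαβ : α < β) (D : ℕ) (h1 : (D : ℝ) - 1 + β ≤ t)
    (h2 : t ≤ D + α) (N : ℕ) (hN : D ≤ N) :
    ∑ j ∈ Finset.range N, stp ((j : ℝ) + α) ((j : ℝ) + β) t = D := by
  obtain ⟨k, rfl⟩ := Nat.exists_eq_add_of_le hN
  rw [Finset.sum_range_add]
  have e1 : ∑ j ∈ Finset.range D, stp ((j : ℝ) + α) ((j : ℝ) + β) t = D := by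
    have : ∑ j ∈ Finset.range D, stp ((j : ℝ) + α) ((j : ℝ) + β) t
        = ∑ j ∈ Finset.range D, (1 : ℝ) := by
      refine Finset.sum_congr rfl fun j hj => ?_
      rw [Finset.mem_range] at hj
      have : (j : ℝ) + 1 ≤ D := by exact_mod_cast hj
      exact X06_stp1 (by linarith) (by linarith)
    rw [this]; simp
  have e2 : ∑ j ∈ Finset.range k, stp (((D + j : ℕ) : ℝ) + α) (((D + j : ℕ) : ℝ) + β) t = 0 := by
    refine Finset.sum_eq_zero fun j _ => ?_
    have h0 : (0 : ℝ) ≤ j := by positivity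
    refine X06_stp0 (by linarith) ?_
    push_cast
    linarith
  rw [e1, e2, add_zero]

theorem X06_S1 {D : ℕ} (hD : D ≤ mm) {t : ℝ} (h1 : (D : ℝ) - 1/4 ≤ t) (h2 : t ≤ D + 5/8) :
    S1 t = D := by
  unfold S1
  exact X06_sum (by norm_num) D (by linarith) h2 mm hD

theorem X06_S2 {D : ℕ} (hD : D ≤ mm) {t : ℝ} (h1 : (D : ℝ) - 3/8 ≤ t) (h2 : t ≤ D + 1/2) :
    S2 t = D := by
  unfold S2
  exact X06_sum (by norm_num) D (by linarith) h2 mm hD

theorem X06_Qx {D : ℕ} (hD : D ≤ mm) {t : ℝ} (h : |t - D| ≤ 1/16) : Qx t = D := by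
  have h' := abs_le.1 h
  unfold Qx
  exact X06_sum (by norm_num) D (by linarith) (by linarith) mm hD

theorem X06_Sc {β : Bool} {t : ℝ} (h : |t - vb β| ≤ 1/8) : Sc t = vb β := by
  have h' := abs_le.1 h
  unfold Sc
  cases β
  · simp only [vb] at h' ⊢
    norm_num at h'
    rw [X06_stp0 (by norm_num) (by linarith)]
    simp
  · simp only [vb] at h' ⊢
    norm_num at h'
    rw [X06_stp1 (by norm_num) (by linarith)]
    simp

theorem X06_ct {a b : ℕ} (ha : a ≤ mm) (hb : b ≤ mm) {t : ℝ} (h0 : (b : ℝ) ≤ t)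
    (h1 : t ≤ b + 1/16) : ct a t = cb a b := by
  unfold ct cb
  rcases hb.lt_or_eq with h | h
  · rw [if_neg (by omega)]
    have : (b : ℝ) + 1 ≤ mm := by exact_mod_cast h
    rw [X06_stp0 (a := mm - 1/4) (b := mm - 1/8) (by linarith) (by linarith)]
    simp
  · have hb' : (b : ℝ) = mm := by rw [h]
    rw [X06_stp1 (a := mm - 1/4) (b := mm - 1/8) (by linarith) (by linarith),
      X06_stp0 (a := mm + 1/8) (b := mm + 1/4) (by linarith) (by linarith)]
    rcases ha.lt_or_eq with h' | h'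
    · have : (a : ℝ) + 1 ≤ mm := by exact_mod_cast h'
      rw [X06_stp0 (a := mm - 3/4) (b := mm - 1/2) (by linarith) (by linarith), if_pos ⟨h, h'⟩]
      norm_num
    · have : (a : ℝ) = mm := by rw [h']
      rw [X06_stp1 (a := mm - 3/4) (b := mm - 1/2) (by linarith) (by linarith),
        if_neg (by omega)]
      norm_num

theorem X06_cT {a b : ℕ} (ha : a ≤ mm) (hb : b ≤ mm) {t : ℝ} (h0 : (b : ℝ) ≤ t)
    (h1 : t ≤ b + 1/16) : cT a t = cb a b := by
  unfold cT cb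
  rcases hb.lt_or_eq with h | h
  · rw [if_neg (by omega)]
    have : (b : ℝ) + 1 ≤ mm := by exact_mod_cast h
    rw [X06_stp0 (a := mm - 1/2) (b := mm - 3/8) (by linarith) (by linarith)]
    simp
  · have hb' : (b : ℝ) = mm := by rw [h]
    rw [X06_stp1 (a := mm - 1/2) (b := mm - 3/8) (by linarith) (by linarith),
      X06_stp0 (a := mm + 3/8) (b := mm + 1/2) (by linarith) (by linarith)]
    rcases ha.lt_or_eq with h' | h'
    · have : (a : ℝ) + 1 ≤ mm := by exact_mod_cast h'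
      rw [X06_stp0 (a := mm - 3/8) (b := mm - 1/4) (by linarith) (by linarith), if_pos ⟨h, h'⟩]
      norm_num
    · have : (a : ℝ) = mm := by rw [h']
      rw [X06_stp1 (a := mm - 3/8) (b := mm - 1/4) (by linarith) (by linarith),
        if_neg (by omega)]
      norm_num

theorem X06_bt (a b : ℕ) {t : ℝ} (h0 : (b : ℝ) ≤ t)
    (h1 : t ≤ b + 1/16) : bt a t = bb a b := by
  unfold bt bb
  rcases Nat.eq_zero_or_pos b with h | h
  · subst h
    push_cast at h0 h1
    rw [X06_stp0 (a := 1/8) (b := 1/4) (by norm_num) (by linarith)]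
    rcases Nat.eq_zero_or_pos a with h' | h'
    · subst h'
      rw [X06_stp0 (a := 1/2) (b := 3/4) (by norm_num) (by norm_num), if_neg (by omega)]
      norm_num
    · have : (1 : ℝ) ≤ a := by exact_mod_cast h'
      rw [X06_stp1 (a := 1/2) (b := 3/4) (by norm_num) (by linarith), if_pos ⟨rfl, h'⟩]
      norm_num
  · have : (1 : ℝ) ≤ b := by exact_mod_cast h
    rw [X06_stp1 (a := 1/8) (b := 1/4) (by norm_num) (by linarith), if_neg (by omega)]
    norm_num

theorem X06_bT (a b : ℕ) {t : ℝ} (h0 : (b : ℝ) ≤ t)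
    (h1 : t ≤ b + 1/16) : bT a t = bb a b := by
  unfold bT bb
  rcases Nat.eq_zero_or_pos b with h | h
  · subst h
    push_cast at h0 h1
    rw [X06_stp0 (a := 1/4) (b := 3/8) (by norm_num) (by linarith)]
    rcases Nat.eq_zero_or_pos a with h' | h'
    · subst h'
      rw [X06_stp0 (a := 3/8) (b := 1/2) (by norm_num) (by norm_num), if_neg (by omega)]
      norm_num
    · have : (1 : ℝ) ≤ a := by exact_mod_cast h'
      rw [X06_stp1 (a := 3/8) (b := 1/2) (by norm_num) (by linarith), if_pos ⟨rfl, h'⟩]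
      norm_num
  · have : (1 : ℝ) ≤ b := by exact_mod_cast h
    rw [X06_stp1 (a := 1/4) (b := 3/8) (by norm_num) (by linarith), if_neg (by omega)]
    norm_num

theorem X06_hi (a b : ℕ) : ((hi a b : ℕ) : ℝ) = a + cb a b - bb a b := by
  have : bb a b ≤ a + cb a b := by
    unfold bb
    split_ifs with h <;> omega
  unfold hi
  rw [Nat.cast_sub this]
  push_cast
  ring

theorem X06_lo (a b : ℕ) : ((lo a b : ℕ) : ℝ) = b - BB * cb a b + BB * bb a b := by
  have : BB * cb a b ≤ b + BB * bb a b := by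
    unfold cb BB mm
    split_ifs with h <;> omega
  unfold lo
  rw [Nat.cast_sub this]
  push_cast
  ring

theorem X06_Hi {a b : ℕ} (ha : a ≤ mm) (hb : b ≤ mm) :
    carryHi a b = ((hi a b : ℕ) : ℝ) := by
  unfold carryHi
  rw [X06_ct ha hb le_rfl (by linarith), X06_bT a b le_rfl (by linarith), X06_hi]

theorem X06_Lo {a b : ℕ} (ha : a ≤ mm) (hb : b ≤ mm) :
    carryLo a b = ((lo a b : ℕ) : ℝ) := by
  unfold carryLo
  rw [X06_cT ha hb le_rfl (by linarith), X06_bt a b le_rfl (by linarith), X06_lo]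

theorem X06_GG (D : Fin 3 → ℕ) (x : ℕ) (t : ℝ) (hD : ∀ k, D k ≤ mm) (hx : x ≤ mm)
    (ht : ((D 2 : ℕ) : ℝ) + t = x) (k : Fin 3) :
    GG (D 0) (D 1) (D 2) t k = (carry D x k : ℕ) ∧ carry D x k ≤ mm := by
  have h0 := hD 0
  have h1 := hD 1
  refine ⟨?_, X07_carry_le D x hD hx k⟩
  have h3 : hi (D 1) x ≤ mm := X07_hi _ h1
  fin_cases k
  · show carryHi (D 0) (carryHi (D 1) (((D 2 : ℕ) : ℝ) + t)) = (hi (D 0) (hi (D 1) x) : ℕ)
    rw [ht, X06_Hi h1 hx, X06_Hi h0 h3]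
  · show carryLo (D 0) (carryHi (D 1) (((D 2 : ℕ) : ℝ) + t)) = (lo (D 0) (hi (D 1) x) : ℕ)
    rw [ht, X06_Hi h1 hx, X06_Lo h0 h3]
  · show carryLo (D 1) (((D 2 : ℕ) : ℝ) + t) = (lo (D 1) x : ℕ)
    rw [ht, X06_Lo h1 hx]

/-- signed exchange between two consecutive cells -/
noncomputable def X06_ts (a e : Cell) : ℝ :=
  if a.b then 0 else (cb (a.D 2) (e.D 0) : ℝ) - bb (a.D 2) (e.D 0)

theorem X06_ts_nx (a e : Cell) : ((a.D 2 : ℕ) : ℝ) + X06_ts a e = nx a e := by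
  unfold X06_ts nx
  split_ifs
  · simp
  · rw [X06_hi]; ring

theorem X06_ts_ny (a e : Cell) : (BB : ℝ) * X06_ts a e = (e.D 0 : ℝ) - ny a e := by
  unfold X06_ts ny
  split_ifs
  · simp
  · rw [X06_lo]; ring

theorem X06_ts_cases (a e : Cell) : X06_ts a e = 0 ∨ X06_ts a e = 1 ∨ X06_ts a e = -1 := by
  unfold X06_ts cb bb
  split_ifs <;> simp

theorem X06_Sg {n t : ℝ} (hn : n = 0 ∨ n = 1 ∨ n = -1) (h : |t - n| ≤ 1/8) : Sg t = n := by
  have h' := abs_le.1 h
  unfold Sg Sc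
  rcases hn with rfl | rfl | rfl
  · rw [X06_stp0 (by norm_num) (by linarith), X06_stp0 (by norm_num) (by linarith)]
    norm_num
  · rw [X06_stp1 (by norm_num) (by linarith), X06_stp0 (by norm_num) (by linarith)]
    norm_num
  · rw [X06_stp0 (by norm_num) (by linarith), X06_stp1 (by norm_num) (by linarith)]
    norm_num

theorem X06_Sc01 {n : ℕ} (hn : n ≤ 1) {t : ℝ} (h : |t - n| ≤ 1/8) : Sc t = n := by
  have h' := abs_le.1 h
  unfold Sc
  rcases Nat.le_one_iff_eq_zero_or_eq_one.1 hn with rfl | rfl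
  · push_cast at h' ⊢
    exact X06_stp0 (by norm_num) (by linarith)
  · push_cast at h' ⊢
    exact X06_stp1 (by norm_num) (by linarith)

theorem X06_gT {β : Bool} {t : ℝ} (h0 : 0 ≤ t - vb β) (h1 : t - vb β ≤ 1/16) :
    gT t = 1 ∧ gt t = 1 := by
  unfold gT gt
  cases β
  · simp only [vb] at h0 h1
    norm_num at h0 h1
    rw [X06_stp0 (a := 1/8) (b := 3/16) (by norm_num) (by linarith),
      X06_stp0 (a := 1/16) (b := 1/8) (by norm_num) (by linarith)]
    simp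
  · simp only [vb] at h0 h1
    norm_num at h0 h1
    rw [X06_stp1 (a := 13/16) (b := 7/8) (by norm_num) (by linarith),
      X06_stp1 (a := 7/8) (b := 15/16) (by norm_num) (by linarith)]
    simp

theorem X06_v4 (a0 a1 a2 a3 a4 a5 a6 a7 a8 a9 a10 a11 : ℝ) : (![a0, a1, a2, a3, a4, a5, a6, a7, a8, a9, a10, a11] : Fin 12 → ℝ) 4 = a4 := rfl
theorem X06_v5 (a0 a1 a2 a3 a4 a5 a6 a7 a8 a9 a10 a11 : ℝ) : (![a0, a1, a2, a3, a4, a5, a6, a7, a8, a9, a10, a11] : Fin 12 → ℝ) 5 = a5 := rfl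
theorem X06_v6 (a0 a1 a2 a3 a4 a5 a6 a7 a8 a9 a10 a11 : ℝ) : (![a0, a1, a2, a3, a4, a5, a6, a7, a8, a9, a10, a11] : Fin 12 → ℝ) 6 = a6 := rfl
theorem X06_v7 (a0 a1 a2 a3 a4 a5 a6 a7 a8 a9 a10 a11 : ℝ) : (![a0, a1, a2, a3, a4, a5, a6, a7, a8, a9, a10, a11] : Fin 12 → ℝ) 7 = a7 := rfl
theorem X06_v8 (a0 a1 a2 a3 a4 a5 a6 a7 a8 a9 a10 a11 : ℝ) : (![a0, a1, a2, a3, a4, a5, a6, a7, a8, a9, a10, a11] : Fin 12 → ℝ) 8 = a8 := rfl
theorem X06_v9 (a0 a1 a2 a3 a4 a5 a6 a7 a8 a9 a10 a11 : ℝ) : (![a0, a1, a2, a3, a4, a5, a6, a7, a8, a9, a10, a11] : Fin 12 → ℝ) 9 = a9 := rfl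

/-- TARGET -/
theorem cm_exact (cc : Clamp (5/4)) (cx : Clamp (mm + 1/2)) (b : Bool) (s d : Fin 3)
    (hsd : s ≠ d) (r : Bool) (z : Zs) (hR : ∀ k, k ≠ 0 → |reg z k| ≤ 1/16)
    (hw : Wt b z = 1) (a e : Cell) (ha : ∀ k, a.D k ≤ mm) (he : ∀ k, e.D k ≤ mm)
    (x y : Fin 5 → ℝ)
    (hx : ∀ tr, 0 ≤ x tr ∧ x tr ≤ mm + 1/16)
    (hz : ∀ tr, stk z s tr = a.val tr + x tr / lam)
    (hy : ∀ tr, 0 ≤ stk z d tr ∧ stk z d tr ≤ mm + 1/16)
    (hy01 : stk z d 0 ≤ 1 + 1/16 ∧ stk z d 1 ≤ 1 + 1/16)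
    (hx01 : x 0 ≤ 1 + 1/16 ∧ x 1 ≤ 1 + 1/16)
    (hye : a.b = false → ∀ tr, 0 ≤ stk z d tr - e.val tr ∧ stk z d tr - e.val tr ≤ 1/16) :
    stk (cm cc cx b s d (if r then 1 else 0) z) = fun i tr =>
      if i = s then x tr
      else if i = d then (newc r a e).val tr +
        (stk z d tr + (if tr = 2 then (ny a e : ℝ) - e.D 0 else 0)) / lam
      else stk z i tr := by
  have hmm := X06_mm
  have hlam : lam = 131072 := rfl
  have hlam0 : (0 : ℝ) < lam := by rw [hlam]; norm_num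
  have hxl : ∀ tr, 0 ≤ x tr / lam ∧ x tr / lam ≤ 1/16 := by
    intro tr
    obtain ⟨h1, h2⟩ := hx tr
    refine ⟨div_nonneg h1 hlam0.le, ?_⟩
    rw [div_le_iff₀ hlam0, hlam]
    rw [hmm] at h2
    linarith
  have zs0 : stk z s 0 = vb a.b + x 0 / lam := hz 0
  have zs1 : stk z s 1 = vb a.c + x 1 / lam := hz 1
  have zs2 : stk z s 2 = a.D 0 + x 2 / lam := hz 2
  have zs3 : stk z s 3 = a.D 1 + x 3 / lam := hz 3
  have zs4 : stk z s 4 = a.D 2 + x 4 / lam := hz 4
  have haR : ∀ k, ((a.D k : ℕ) : ℝ) ≤ mm := fun k => by exact_mod_cast ha k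
  have haR0 : ∀ k, (0 : ℝ) ≤ ((a.D k : ℕ) : ℝ) := fun k => by positivity
  have hvb : ∀ β : Bool, 0 ≤ vb β ∧ vb β ≤ 1 := by
    intro β; cases β <;> simp [vb]
  have hrng : ∀ i, (i = s ∨ i = d) → ∀ tr : Fin 5, 0 ≤ stk z i tr ∧ stk z i tr ≤ mm + 1/2 ∧
      (tr.1 < 2 → stk z i tr ≤ 5/4) := by
    rintro i (rfl | rfl) tr
    · have b0 := hvb a.b
      have b1 := hvb a.c
      have x0 := hxl 0
      have x1 := hxl 1
      have x2 := hxl 2
      have x3 := hxl 3
      have x4 := hxl 4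
      have d0 := haR 0
      have d1 := haR 1
      have d2 := haR 2
      have d0' := haR0 0
      have d1' := haR0 1
      have d2' := haR0 2
      fin_cases tr
      · show 0 ≤ stk z i 0 ∧ stk z i 0 ≤ mm + 1/2 ∧ (_ → stk z i 0 ≤ 5/4)
        rw [zs0, hmm]
        exact ⟨by linarith, by linarith, fun _ => by linarith⟩
      · show 0 ≤ stk z i 1 ∧ stk z i 1 ≤ mm + 1/2 ∧ (_ → stk z i 1 ≤ 5/4)
        rw [zs1, hmm]
        exact ⟨by linarith, by linarith, fun _ => by linarith⟩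
      · show 0 ≤ stk z i 2 ∧ stk z i 2 ≤ mm + 1/2 ∧ (2 < 2 → stk z i 2 ≤ 5/4)
        rw [zs2]
        exact ⟨by linarith, by linarith, fun h => absurd h (by norm_num)⟩
      · show 0 ≤ stk z i 3 ∧ stk z i 3 ≤ mm + 1/2 ∧ (3 < 2 → stk z i 3 ≤ 5/4)
        rw [zs3]
        exact ⟨by linarith, by linarith, fun h => absurd h (by norm_num)⟩
      · show 0 ≤ stk z i 4 ∧ stk z i 4 ≤ mm + 1/2 ∧ (4 < 2 → stk z i 4 ≤ 5/4)
        rw [zs4]
        exact ⟨by linarith, by linarith, fun h => absurd h (by norm_num)⟩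
    · have h1 := hy tr
      refine ⟨h1.1, by linarith [h1.2], fun ht => ?_⟩
      have : tr = 0 ∨ tr = 1 := by
        rcases tr with ⟨n, hn⟩
        simp only at ht
        have : n = 0 ∨ n = 1 := by omega
        rcases this with rfl | rfl
        · left; rfl
        · right; rfl
      rcases this with rfl | rfl
      · linarith [hy01.1]
      · linarith [hy01.2]
  have h0 : M0 cc cx s d z = z := by
    unfold M0
    funext q
    rcases q with ⟨i, tr⟩ | k
    · show (if i = s ∨ i = d then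
        (if tr.1 < 2 then cc.Φ 1 (stk z i tr) else cx.Φ 1 (stk z i tr)) else stk z i tr) = stk z i tr
      split_ifs with h1 h2
      · obtain ⟨g1, g2, g3⟩ := hrng i h1 tr
        exact cc.fix 1 _ (by linarith) (g3 h2)
      · obtain ⟨g1, g2, g3⟩ := hrng i h1 tr
        exact cx.fix 1 _ (by linarith) g2
      · rfl
    · rfl
  obtain ⟨z1, hz1⟩ : ∃ z1, z1 = z + f1 s d z := ⟨_, rfl⟩
  have s1 : ∀ i tr, stk z1 i tr = stk z i tr := by
    intro i tr
    rw [hz1]
    show z (Sum.inl (i, tr)) + 0 = z (Sum.inl (i, tr))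
    rw [add_zero]
  have r1 : ∀ k, reg z1 k = reg z k + ![0, Sc (stk z s 0), Sc (stk z s 1), Sc (stk z d 1),
    S1 (stk z s 2), S1 (stk z s 3), S1 (stk z s 4),
    S2 (stk z s 2), S2 (stk z s 3), S2 (stk z s 4), 0, 0] k := by
    intro k
    rw [hz1]
    rfl
  obtain ⟨z2, hz2⟩ : ∃ z2, z2 = z1 + f2 d z1 := ⟨_, rfl⟩
  have s2 : ∀ i tr, stk z2 i tr = stk z i tr := by
    intro i tr
    rw [hz2, ← s1 i tr]
    show z1 (Sum.inl (i, tr)) + 0 = z1 (Sum.inl (i, tr))
    rw [add_zero]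
  have r2 : ∀ k, reg z2 k = reg z1 k + ![0, 0, 0, 0, 0, 0, 0, 0, 0, 0,
    (1 - Sc (reg z1 1)) * gT (stk z1 d 0) * cT (Qx (reg z1 6)) (stk z1 d 2) -
      (1 - Sc (reg z1 1)) * bt (Qx (reg z1 6)) (stk z1 d 2),
    (1 - Sc (reg z1 1)) * gt (stk z1 d 0) * ct (Qx (reg z1 6)) (stk z1 d 2) -
      (1 - Sc (reg z1 1)) * bT (Qx (reg z1 6)) (stk z1 d 2)] k := by
    intro k
    rw [hz2]
    rfl
  obtain ⟨z3, hz3⟩ : ∃ z3, z3 = z2 + f3 b s d z2 := ⟨_, rfl⟩
  have s3 : ∀ i tr, stk z3 i tr = stk z i tr + (if i = s then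
      -(Wt b z2 * ![Sc (reg z2 1), Sc (reg z2 2), Qx (reg z2 7), Qx (reg z2 8), Qx (reg z2 9)] tr)
    else if i = d ∧ tr = 2 then -(Wt b z2 * (BB * Sg (reg z2 10))) else 0) := by
    intro i tr
    rw [hz3, ← s2 i tr]
    rfl
  have r3 : ∀ k, reg z3 k = reg z2 k := by
    intro k
    rw [hz3]
    show z2 (Sum.inr k) + 0 = z2 (Sum.inr k)
    rw [add_zero]
  obtain ⟨z4, hz4⟩ : ∃ z4, z4 = M4 b s d z3 := ⟨_, rfl⟩
  have s4 : ∀ i tr, stk z4 i tr = if i = s then Real.exp (Wt b z3 * Real.log lam) * stk z3 i tr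
    else if i = d then Real.exp (-(Wt b z3 * Real.log lam)) * stk z3 i tr
    else stk z3 i tr := by
    intro i tr
    rw [hz4]
    rfl
  have r4 : ∀ k, reg z4 k = reg z2 k := by
    intro k
    rw [← r3 k, hz4]
    rfl
  -- readings
  have rr : ∀ k, k ≠ 0 → -(1/16) ≤ reg z k ∧ reg z k ≤ 1/16 := fun k hk => abs_le.1 (hR k hk)
  have q1 : Sc (reg z1 1) = vb a.b := by
    have e1 : Sc (stk z s 0) = vb a.b := by
      apply X06_Sc
      rw [zs0, add_sub_cancel_left, abs_of_nonneg (hxl 0).1]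
      linarith [(hxl 0).2]
    have e2 : reg z1 1 = reg z 1 + vb a.b := by rw [r1 1, ← e1]; rfl
    apply X06_Sc
    rw [e2, add_sub_cancel_right, abs_le]
    have := rr 1 (by decide)
    exact ⟨by linarith, by linarith⟩
  have q2 : Sc (reg z1 2) = vb a.c := by
    have e1 : Sc (stk z s 1) = vb a.c := by
      apply X06_Sc
      rw [zs1, add_sub_cancel_left, abs_of_nonneg (hxl 1).1]
      linarith [(hxl 1).2]
    have e2 : reg z1 2 = reg z 2 + vb a.c := by rw [r1 2, ← e1]; rfl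
    apply X06_Sc
    rw [e2, add_sub_cancel_right, abs_le]
    have := rr 2 (by decide)
    exact ⟨by linarith, by linarith⟩
  have q3 : a.b = false → Sc (reg z1 3) = vb e.c := by
    intro hab
    have g := hye hab 1
    have g' : 0 ≤ stk z d 1 - vb e.c ∧ stk z d 1 - vb e.c ≤ 1/16 := g
    have e1 : Sc (stk z d 1) = vb e.c := by
      apply X06_Sc
      rw [abs_of_nonneg g'.1]
      linarith [g'.2]
    have e2 : reg z1 3 = reg z 3 + vb e.c := by rw [r1 3, ← e1]; rfl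
    apply X06_Sc
    rw [e2, add_sub_cancel_right, abs_le]
    have := rr 3 (by decide)
    exact ⟨by linarith, by linarith⟩
  have qS1 : ∀ (k : Fin 3) (t : ℝ), t = a.D k + x (k.natAdd 2) / lam → S1 t = a.D k ∧ S2 t = a.D k := by
    intro k t ht
    have h1 := hxl (k.natAdd 2)
    exact ⟨X06_S1 (ha k) (by rw [ht]; linarith) (by rw [ht]; linarith),
      X06_S2 (ha k) (by rw [ht]; linarith) (by rw [ht]; linarith)⟩
  have g2 := qS1 0 _ zs2
  have g3 := qS1 1 _ zs3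
  have g4 := qS1 2 _ zs4
  have qQ : ∀ (k : Fin 12) (n : Fin 3), k ≠ 0 → reg z1 k = reg z k + a.D n →
      Qx (reg z1 k) = a.D n := by
    intro k n hk h
    apply X06_Qx (ha n)
    rw [h, add_sub_cancel_right]
    exact hR k hk
  have q4 : Qx (reg z1 4) = a.D 0 := qQ 4 0 (by decide) (by rw [r1 4, X06_v4, g2.1])
  have q5 : Qx (reg z1 5) = a.D 1 := qQ 5 1 (by decide) (by rw [r1 5, X06_v5, g3.1])
  have q6 : Qx (reg z1 6) = a.D 2 := qQ 6 2 (by decide) (by rw [r1 6, X06_v6, g4.1])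
  have q7 : Qx (reg z1 7) = a.D 0 := qQ 7 0 (by decide) (by rw [r1 7, X06_v7, g2.2])
  have q8 : Qx (reg z1 8) = a.D 1 := qQ 8 1 (by decide) (by rw [r1 8, X06_v8, g3.2])
  have q9 : Qx (reg z1 9) = a.D 2 := qQ 9 2 (by decide) (by rw [r1 9, X06_v9, g4.2])
  have k0 : reg z2 0 = reg z 0 := by
    rw [r2 0, r1 0]
    show reg z 0 + 0 + 0 = reg z 0
    rw [add_zero, add_zero]
  have k1 : reg z2 1 = reg z1 1 := by rw [r2 1]; exact add_zero _
  have k2 : reg z2 2 = reg z1 2 := by rw [r2 2]; exact add_zero _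
  have k3 : reg z2 3 = reg z1 3 := by rw [r2 3]; exact add_zero _
  have k4 : reg z2 4 = reg z1 4 := by rw [r2 4]; exact add_zero _
  have k5 : reg z2 5 = reg z1 5 := by rw [r2 5]; exact add_zero _
  have k6 : reg z2 6 = reg z1 6 := by rw [r2 6]; exact add_zero _
  have k7 : reg z2 7 = reg z1 7 := by rw [r2 7]; exact add_zero _
  have k8 : reg z2 8 = reg z1 8 := by rw [r2 8]; exact add_zero _
  have k9 : reg z2 9 = reg z1 9 := by rw [r2 9]; exact add_zero _
  have kT : (1 - Sc (reg z1 1)) * gT (stk z1 d 0) * cT (Qx (reg z1 6)) (stk z1 d 2) -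
      (1 - Sc (reg z1 1)) * bt (Qx (reg z1 6)) (stk z1 d 2) = X06_ts a e ∧
      (1 - Sc (reg z1 1)) * gt (stk z1 d 0) * ct (Qx (reg z1 6)) (stk z1 d 2) -
      (1 - Sc (reg z1 1)) * bT (Qx (reg z1 6)) (stk z1 d 2) = X06_ts a e := by
    rw [q1, q6, s1, s1]
    unfold X06_ts
    cases hb : a.b
    · have h0 : 0 ≤ stk z d 0 - vb e.b ∧ stk z d 0 - vb e.b ≤ 1/16 := hye hb 0
      have h2 : 0 ≤ stk z d 2 - e.D 0 ∧ stk z d 2 - e.D 0 ≤ 1/16 := hye hb 2
      have h3 := X06_gT h0.1 h0.2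
      have h4 := X06_cT (ha 2) (he 0) (t := stk z d 2) (by linarith [h2.1]) (by linarith [h2.2])
      have h5 := X06_ct (ha 2) (he 0) (t := stk z d 2) (by linarith [h2.1]) (by linarith [h2.2])
      have h6 := X06_bT (a.D 2) (e.D 0) (t := stk z d 2) (by linarith [h2.1]) (by linarith [h2.2])
      have h7 := X06_bt (a.D 2) (e.D 0) (t := stk z d 2) (by linarith [h2.1]) (by linarith [h2.2])
      rw [h3.1, h3.2, h4, h5, h6, h7]
      simp [vb]
    · simp [vb]
  have hSc : ∀ k : Fin 12, k ≠ 0 → reg z2 k = reg z k + X06_ts a e →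
      Sg (reg z2 k) = X06_ts a e := by
    intro k hk h
    apply X06_Sg (X06_ts_cases a e)
    rw [h, add_sub_cancel_right]
    linarith [hR k hk]
  have q10 : Sg (reg z2 10) = X06_ts a e := by
    apply hSc 10 (by decide)
    rw [r2 10, r1 10, ← kT.1]
    show reg z 10 + 0 + _ = _
    rw [add_zero]
    rfl
  have q11 : Sg (reg z2 11) = X06_ts a e := by
    apply hSc 11 (by decide)
    rw [r2 11, r1 11, ← kT.2]
    show reg z 11 + 0 + _ = _
    rw [add_zero]
    rfl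
  have w2 : Wt b z2 = 1 := by rw [← hw]; unfold Wt; rw [k0]
  have w3 : Wt b z3 = 1 := by rw [← hw]; unfold Wt; rw [r3, k0]
  have w4 : Wt b z4 = 1 := by rw [← hw]; unfold Wt; rw [r4, k0]
  have hexp1 : Real.exp (1 * Real.log lam) = lam := by rw [one_mul, Real.exp_log hlam0]
  have hexp2 : Real.exp (-(1 * Real.log lam)) = lam⁻¹ := by
    rw [one_mul, Real.exp_neg, Real.exp_log hlam0]
  have hp : pushed (if r then 1 else 0) z4 = (newc r a e).val := by
    have hG := X06_GG a.D (nx a e) (X06_ts a e) ha (X07_nx a e (ha 2)) (X06_ts_nx a e)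
    have hG' : ∀ k : Fin 3,
        Qx (GG (a.D 0) (a.D 1) (a.D 2) (X06_ts a e) k * (1 - (if r then 1 else 0)))
        = (((if r then 0 else carry a.D (nx a e)) : Fin 3 → ℕ) k : ℕ) := by
      intro k
      rw [(hG k).1]
      cases r
      · simp only [Bool.false_eq_true, if_false, sub_zero, mul_one]
        apply X06_Qx (hG k).2
        simp
      · simp only [if_true, sub_self, mul_zero]
        show Qx 0 = ((0 : ℕ) : ℝ)
        apply X06_Qx (Nat.zero_le _)
        simp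
    unfold pushed
    rw [r4, r4, r4, r4, r4, r4, k1, k3, k4, k5, k6, q1, q4, q5, q6, q11, hG' 0, hG' 1, hG' 2]
    funext tr
    fin_cases tr
    · show 1 - vb a.b = vb (!a.b)
      cases a.b <;> simp [vb]
    · show (1 - vb a.b) * (1 - Sc (reg z1 3)) = vb (!a.b && !e.c)
      cases hb : a.b
      · rw [q3 hb]
        cases e.c <;> simp [vb]
      · simp [vb]
    · rfl
    · rfl
    · rfl
  have hfin : cm cc cx b s d (if r then 1 else 0) z
      = M6 (z4 + f5 b d (if r then 1 else 0) z4) := by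
    rw [hz4, hz3, hz2, hz1]
    unfold cm
    rw [h0]
  rw [hfin]
  funext i tr
  have s5 : stk (M6 (z4 + f5 b d (if r then 1 else 0) z4)) i tr = stk z4 i tr +
      (if i = d then Wt b z4 * pushed (if r then 1 else 0) z4 tr else 0) := rfl
  rw [s5, hp, w4, s4, w3, s3, w2, hexp1, hexp2, k1, k2, k7, k8, k9, q1, q2, q7, q8, q9, q10]
  by_cases his : i = s
  · subst his
    rw [if_pos rfl, if_pos rfl, if_neg hsd, if_pos rfl, hz tr, one_mul, add_zero]
    show lam * (a.val tr + x tr / lam + -(a.val tr)) = x tr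
    field_simp
    ring
  · rw [if_neg his, if_neg his, if_neg his]
    by_cases hid : i = d
    · subst hid
      rw [if_pos rfl, if_pos rfl, if_pos rfl, one_mul]
      by_cases h2 : tr = 2
      · subst h2
        rw [if_pos ⟨rfl, rfl⟩, if_pos rfl, X06_ts_ny]
        field_simp
        ring
      · rw [if_neg (fun h => h2 h.2), if_neg h2]
        field_simp
        ring
    · rw [if_neg hid, if_neg hid, if_neg hid, if_neg (fun h => hid h.1), add_zero, add_zero]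

end Pool.Agent.H385A
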