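import Mathlib
import Pool.Agent.H385Z.Defs
import Pool.Agent.H385Z.XReg
import Pool.Agent.H385Z.XExact
import Pool.Agent.H385Z.XRange

set_option autoImplicit false

open Set Filter Topology

namespace Pool.Agent.H385A

open Pool.Agent.Aub

theorem X08_f1 : ∀ p δ : Fin 3, δ ≠ 0 → p - δ ≠ p + δ ∧ p - δ ≠ p ∧ p + δ ≠ p ∧ -δ ≠ 0 := by
  decide

theorem X08_f2 : ∀ p δ : Fin 3, p + δ + δ = p - δ ∧ p + δ - δ = p ∧ p - -δ = p + δ ∧
    p + -δ = p - δ := by decide

theorem X08_f3 : ∀ i p δ : Fin 3, δ ≠ 0 → i = p ∨ i = p - δ ∨ i = p + δ := by decide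

theorem X08_zc (tr : Fin 5) : zc.val tr = if tr.1 < 2 then 0 else 1 := by
  fin_cases tr <;> simp [Cell.val, zc, vb]

theorem X08_rlnil (ty : Ty) (δ p : Fin 3) : rl ty δ p [zc] = rl ty δ p [] := by
  funext i tr
  simp only [rl, X08_zc]
  split_ifs
  · simp
  · unfold lam; norm_num
  · rfl
  · rfl

theorem X08_stEnil (r : Bool) : stE r [zc] = stE r [] := rfl

theorem X08_zcD (k : Fin 3) : zc.D k ≤ mm := X07_zc k

theorem X08_small {x : ℝ} (h : x ≤ mm + 1/16) : x / lam ≤ 1 / 16 := by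
  unfold lam
  have : ((mm : ℕ) : ℝ) = 4096 := by norm_num [mm]
  rw [this] at h
  linarith

theorem X08_lam : (0 : ℝ) < lam := by unfold lam; norm_num

theorem X08_E1 (cc : Clamp (5/4)) (cx : Clamp (mm + 1/2)) (b : Bool) (a : Cell)
    (tl : List Cell) (δ p : Fin 3)
    (hδ : δ ≠ 0) (r : Bool) (w : Zs) (hR : ∀ k, k ≠ 0 → |reg w k| ≤ 1/16) (hw : Wt b w = 1)
    (hz : stk w = rl Ty.E δ p (a :: tl)) (hD : Dle (a :: tl)) :
    stk (cm cc cx b (p - δ) (p + δ) (if r then 1 else 0) w) =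
      rl Ty.F δ (p + δ) (stE r (a :: tl)) := by
  obtain ⟨h1, h2, h3, h4⟩ := X08_f1 p δ hδ
  have hDt : Dle tl := fun c hc => hD c (List.mem_cons_of_mem _ hc)
  have hDa : ∀ k, a.D k ≤ mm := hD a List.mem_cons_self
  have hDe : ∀ k, (hd tl).D k ≤ mm := by
    cases tl with
    | nil => exact X08_zcD
    | cons e t => exact hDt e List.mem_cons_self
  have hs : ∀ tr, stk w (p - δ) tr = a.val tr + rl (sT Ty.E a.b) (-δ) (p + δ) tl (p - δ) tr / lam := by
    intro tr; rw [hz]; simp [rl, posn, subP]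
  have ho : ∀ i tr, i ≠ p - δ → stk w i tr = rl (sT Ty.E a.b) (-δ) (p + δ) tl i tr := by
    intro i tr hi; rw [hz]; simp [rl, posn, subP, hi]
  have hrg := rl_range tl hDt (sT Ty.E a.b) (-δ) (p + δ)
  have hye : a.b = false → ∀ tr, 0 ≤ stk w (p + δ) tr - (hd tl).val tr ∧
      stk w (p + δ) tr - (hd tl).val tr ≤ 1 / 16 := by
    intro hb tr
    rw [ho _ _ h1.symm]
    rw [hb]
    cases tl with
    | nil =>
      simp only [rl, hd, X08_zc]
      split_ifs
      · norm_num
      · unfold lam; norm_num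
    | cons e t =>
      have hDt' : Dle t := fun c hc => hDt c (List.mem_cons_of_mem _ hc)
      have e1 : rl (sT Ty.E false) (-δ) (p + δ) (e :: t) (p + δ) tr - (hd (e :: t)).val tr =
          rl (sT (sT Ty.E false) e.b) (- -δ) (subP (-δ) (sT Ty.E false) (p + δ)) t (p + δ) tr / lam := by
        simp [rl, hd, posn, sT]
      rw [e1]
      have h5 := rl_range t hDt' (sT (sT Ty.E false) e.b) (- -δ)
        (subP (-δ) (sT Ty.E false) (p + δ)) (p + δ) tr
      exact ⟨div_nonneg h5.1 X08_lam.le, X08_small h5.2.1⟩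
  have hx : ∀ tr, 0 ≤ rl (sT Ty.E a.b) (-δ) (p + δ) tl (p - δ) tr ∧
      rl (sT Ty.E a.b) (-δ) (p + δ) tl (p - δ) tr ≤ mm + 1/16 :=
    fun tr => ⟨(hrg _ tr).1, (hrg _ tr).2.1⟩
  have hy : ∀ tr, 0 ≤ stk w (p + δ) tr ∧ stk w (p + δ) tr ≤ mm + 1/16 := by
    intro tr
    rw [ho _ _ h1.symm]
    exact ⟨(hrg _ tr).1, (hrg _ tr).2.1⟩
  have hy01 : stk w (p + δ) 0 ≤ 1 + 1/16 ∧ stk w (p + δ) 1 ≤ 1 + 1/16 := by
    rw [ho _ _ h1.symm, ho _ _ h1.symm]
    exact ⟨(hrg _ 0).2.2 (Or.inl rfl), (hrg _ 1).2.2 (Or.inr rfl)⟩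
  have hx01 : rl (sT Ty.E a.b) (-δ) (p + δ) tl (p - δ) 0 ≤ 1 + 1/16 ∧
      rl (sT Ty.E a.b) (-δ) (p + δ) tl (p - δ) 1 ≤ 1 + 1/16 :=
    ⟨(hrg _ 0).2.2 (Or.inl rfl), (hrg _ 1).2.2 (Or.inr rfl)⟩
  rw [cm_exact cc cx b (p - δ) (p + δ) h1 r w hR hw a (hd tl) hDa hDe
    (rl (sT Ty.E a.b) (-δ) (p + δ) tl (p - δ)) (stk w (p + δ)) hx hs hy hy01 hx01 hye]
  have hsT : sT Ty.F (newc r a (hd tl)).b = sT Ty.E a.b := by
    cases hb : a.b <;> simp [newc, sT, hb]
  have htl : ∀ i tr, rl (sT Ty.E a.b) (-δ) (p + δ) (adj a tl) i tr =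
      rl (sT Ty.E a.b) (-δ) (p + δ) tl i tr +
        (if i = p + δ ∧ tr = 2 then (ny a (hd tl) : ℝ) - (hd tl).D 0 else 0) := by
    intro i tr
    cases hb : a.b with
    | true =>
      have e1 : ny a (hd tl) = (hd tl).D 0 := by simp [ny, hb]
      have e2 : adj a tl = tl := by
        cases tl with
        | nil => rfl
        | cons e t =>
          have e3 : ny a e = e.D 0 := e1
          rw [adj, e3, Function.update_eq_self]
      rw [e1, e2]
      simp
    | false =>
      cases tl with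
      | nil =>
        have e1 : ny a (hd []) = (hd []).D 0 := by
          simp [ny, hb, hd, zc, lo, cb, bb, mm]
        rw [e1]
        simp [adj]
      | cons e t =>
        by_cases hi : i = p + δ
        · subst hi
          simp only [rl, adj, sT, posn, if_true, true_and, hd]
          fin_cases tr <;> simp [Cell.val]
          ring
        · simp [rl, adj, sT, posn, hi]
  funext i tr
  have hR2 : rl Ty.F δ (p + δ) (stE r (a :: tl)) i tr =
      if i = p + δ then (newc r a (hd tl)).val tr +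
        rl (sT Ty.E a.b) (-δ) (p + δ) (adj a tl) i tr / lam
      else rl (sT Ty.E a.b) (-δ) (p + δ) (adj a tl) i tr := by
    rw [stE, rl, hsT]
    simp [posn, subP]
  rw [hR2, htl]
  by_cases hi : i = p - δ
  · subst hi
    simp [h1]
  · by_cases hi2 : i = p + δ
    · subst hi2
      simp [h1.symm, ho _ _ h1.symm]
    · simp [hi, hi2, ho _ _ hi]

theorem X08_E (cc : Clamp (5/4)) (cx : Clamp (mm + 1/2)) (b : Bool)
    (l : List Cell) (δ p : Fin 3)
    (hδ : δ ≠ 0) (r : Bool) (w : Zs) (hR : ∀ k, k ≠ 0 → |reg w k| ≤ 1/16) (hw : Wt b w = 1)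
    (hz : stk w = rl Ty.E δ p l) (hD : Dle l) :
    stk (cm cc cx b (p - δ) (p + δ) (if r then 1 else 0) w) =
      rl Ty.F δ (p + δ) (stE r l) := by
  cases l with
  | nil =>
    rw [← X08_stEnil]
    refine X08_E1 cc cx b zc [] δ p hδ r w hR hw ?_ ?_
    · rw [hz, X08_rlnil]
    · intro a ha k
      rw [List.mem_singleton] at ha
      subst ha
      exact X08_zcD k
  | cons a tl => exact X08_E1 cc cx b a tl δ p hδ r w hR hw hz hD

/-- same registers and same stacks `s`, `d` -/
def X08_R (s d : Fin 3) (w w' : Zs) : Prop :=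
  reg w = reg w' ∧ stk w s = stk w' s ∧ stk w d = stk w' d

theorem X08_stk_add (w u : Zs) (i : Fin 3) : stk (w + u) i = stk w i + stk u i := rfl
theorem X08_reg_add (w u : Zs) : reg (w + u) = reg w + reg u := rfl
theorem X08_stk_mkz (S : Stk) (R : Fin 12 → ℝ) : stk (mkz S R) = S := rfl
theorem X08_reg_mkz (S : Stk) (R : Fin 12 → ℝ) : reg (mkz S R) = R := rfl

theorem X08_R_add {s d : Fin 3} {w w' u u' : Zs} (h : X08_R s d w w') (hu : u = u') :
    X08_R s d (w + u) (w' + u') := by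
  subst hu
  refine ⟨?_, ?_, ?_⟩
  · rw [X08_reg_add, X08_reg_add, h.1]
  · rw [X08_stk_add, X08_stk_add, h.2.1]
  · rw [X08_stk_add, X08_stk_add, h.2.2]

theorem X08_Wt {b : Bool} {w w' : Zs} (h : reg w = reg w') : Wt b w = Wt b w' := by
  unfold Wt
  rw [h]

theorem X08_cm_congr (cc : Clamp (5/4)) (cx : Clamp (mm + 1/2)) (b : Bool) (s d : Fin 3)
    (r : ℝ) (w w' : Zs) (h : X08_R s d w w') :
    X08_R s d (cm cc cx b s d r w) (cm cc cx b s d r w') := by
  have hM0 : X08_R s d (M0 cc cx s d w) (M0 cc cx s d w') := by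
    refine ⟨h.1, ?_, ?_⟩
    · funext tr
      simp only [M0, X08_stk_mkz, h.2.1]
    · funext tr
      simp only [M0, X08_stk_mkz, h.2.2]
  have h1 : ∀ u u' : Zs, X08_R s d u u' → f1 s d u = f1 s d u' := by
    intro u u' hu
    simp only [f1, hu.2.1, hu.2.2]
  have h2 : ∀ u u' : Zs, X08_R s d u u' → f2 d u = f2 d u' := by
    intro u u' hu
    simp only [f2, hu.2.2, hu.1]
  have h3 : ∀ u u' : Zs, X08_R s d u u' → f3 b s d u = f3 b s d u' := by
    intro u u' hu
    simp only [f3, X08_Wt hu.1, hu.1]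
  have h4 : ∀ u u' : Zs, X08_R s d u u' → X08_R s d (M4 b s d u) (M4 b s d u') := by
    intro u u' hu
    refine ⟨hu.1, ?_, ?_⟩
    · funext tr
      simp only [M4, X08_stk_mkz, hu.2.1, X08_Wt hu.1]
    · funext tr
      simp only [M4, X08_stk_mkz, hu.2.2, X08_Wt hu.1]
  have h5 : ∀ u u' : Zs, X08_R s d u u' → f5 b d r u = f5 b d r u' := by
    intro u u' hu
    simp only [f5, pushed, X08_Wt hu.1, hu.1]
  have h6 : ∀ u u' : Zs, X08_R s d u u' → X08_R s d (M6 u) (M6 u') := by
    intro u u' hu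
    refine ⟨?_, ?_, ?_⟩
    · simp only [M6, X08_reg_mkz, hu.1]
    · simp only [M6, X08_stk_mkz, hu.2.1]
    · simp only [M6, X08_stk_mkz, hu.2.2]
  have k1 := X08_R_add hM0 (h1 _ _ hM0)
  have k2 := X08_R_add k1 (h2 _ _ k1)
  have k3 := X08_R_add k2 (h3 _ _ k2)
  have k4 := h4 _ _ k3
  have k5 := X08_R_add k4 (h5 _ _ k4)
  exact h6 _ _ k5

theorem X08_bd {ty : Ty} {δ p : Fin 3} {l : List Cell} (hD : Dle l) {w : Zs}
    (hz : stk w = rl ty δ p l) (i : Fin 3) (tr : Fin 5) : |stk w i tr| ≤ 2 ^ 32 := by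
  have h := rl_range l hD ty δ p i tr
  rw [hz, abs_of_nonneg h.1]
  refine h.2.1.trans ?_
  norm_num [mm]

theorem X08_Fstep (cc : Clamp (5/4)) (cx : Clamp (mm + 1/2)) (b : Bool) (a : Cell)
    (tl tl' : List Cell) (δ p s d : Fin 3) (hδ : δ ≠ 0)
    (hsd : (s = p - δ ∧ d = p + δ) ∨ (s = p + δ ∧ d = p - δ)) (w : Zs)
    (hz : stk w = rl Ty.F δ p (a :: tl)) (hD : Dle (a :: tl))
    (hsub : ∀ w' : Zs, reg w' = reg w → stk w' = rl (sT Ty.F a.b) (-δ) p tl →
      stk (cm cc cx b s d 0 w') = rl (sT Ty.F a.b).other (-δ) (p - δ) tl') :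
    stk (cm cc cx b s d 0 w) = rl Ty.E δ (p + δ) (a :: tl') := by
  obtain ⟨h1, h2, h3, h4⟩ := X08_f1 p δ hδ
  obtain ⟨g1, g2, g3, g4⟩ := X08_f2 p δ
  have hDt : Dle tl := fun c hc => hD c (List.mem_cons_of_mem _ hc)
  have hne : s ≠ d ∧ s ≠ p ∧ d ≠ p := by
    rcases hsd with ⟨rfl, rfl⟩ | ⟨rfl, rfl⟩
    · exact ⟨h1, h2, h3⟩
    · exact ⟨h1.symm, h3, h2⟩
  have hcov : ∀ i : Fin 3, i = p ∨ i = s ∨ i = d := by
    intro i
    rcases hsd with ⟨rfl, rfl⟩ | ⟨rfl, rfl⟩
    · exact X08_f3 i p δ hδ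
    · rcases X08_f3 i p δ hδ with h | h | h
      · exact Or.inl h
      · exact Or.inr (Or.inr h)
      · exact Or.inr (Or.inl h)
  set Y : Stk := rl (sT Ty.F a.b) (-δ) p tl with hY
  have hp : ∀ tr, stk w p tr = a.val tr + Y p tr / lam := by
    intro tr; rw [hz]; simp [rl, posn, subP, hY]
  have ho : ∀ i tr, i ≠ p → stk w i tr = Y i tr := by
    intro i tr hi; rw [hz]; simp [rl, posn, subP, hi, hY]
  set w' : Zs := mkz Y (reg w) with hw'
  have hR : X08_R s d w w' := by
    refine ⟨rfl, ?_, ?_⟩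
    · funext tr
      rw [ho s tr hne.2.1]
      rfl
    · funext tr
      rw [ho d tr hne.2.2]
      rfl
  have hc := X08_cm_congr cc cx b s d 0 w w' hR
  have hres := hsub w' rfl rfl
  have hun := (cm_bound cc cx b s d hne.1 0 w (X08_bd hD hz)).2
  have hun' := (cm_bound cc cx b s d hne.1 0 w' (X08_bd hDt (show stk w' = rl (sT Ty.F a.b) (-δ) p tl from rfl))).2
  have hsT : sT Ty.E a.b = (sT Ty.F a.b).other := by
    cases a.b <;> rfl
  funext i tr
  have hR2 : rl Ty.E δ (p + δ) (a :: tl') i tr =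
      if i = p then a.val tr + rl (sT Ty.F a.b).other (-δ) (p - δ) tl' i tr / lam
      else rl (sT Ty.F a.b).other (-δ) (p - δ) tl' i tr := by
    rw [rl, hsT]
    simp [posn, subP, g1, g2]
  rw [hR2, ← hres]
  by_cases hi : i = p
  · subst hi
    rw [if_pos rfl, hun i tr hne.2.1.symm hne.2.2.symm, hun' i tr hne.2.1.symm hne.2.2.symm, hp]
    rfl
  · rw [if_neg hi]
    rcases hcov i with h | h | h
    · exact absurd h hi
    · rw [h, hc.2.1]
    · rw [h, hc.2.2]

theorem X08_F (cc : Clamp (5/4)) (cx : Clamp (mm + 1/2)) (b : Bool) (l : List Cell) :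
    ∀ (δ p : Fin 3), δ ≠ 0 → ∀ (w : Zs), (∀ k, k ≠ 0 → |reg w k| ≤ 1/16) → Wt b w = 1 →
    stk w = rl Ty.F δ p l → Dle l → Val Ty.F l →
    stk (cm cc cx b (if (hd l).c then p - δ else p + δ) (if (hd l).c then p + δ else p - δ) 0 w) =
      rl Ty.E δ (p + δ) (stF l) := by
  induction l with
  | nil =>
    intro δ p hδ w hR hw hz _ _
    obtain ⟨h1, h2, h3, h4⟩ := X08_f1 p δ hδ
    obtain ⟨g1, g2, g3, g4⟩ := X08_f2 p δ
    have hc : (hd []).c = false := rfl
    rw [hc, stF]
    simp only [Bool.false_eq_true, if_false]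
    have hDz : Dle [zc] := by
      intro a ha k
      rw [List.mem_singleton] at ha
      subst ha
      exact X08_zcD k
    refine X08_Fstep cc cx b zc [] (stE false []) δ p (p + δ) (p - δ) hδ (Or.inr ⟨rfl, rfl⟩) w
      (by rw [hz, X08_rlnil]) hDz ?_
    intro w' hreg hst
    have := X08_E cc cx b [] (-δ) p h4 false w' (fun k hk => by rw [hreg]; exact hR k hk)
      (by rw [X08_Wt hreg, hw]) hst (fun a ha => by simp at ha)
    rw [g3, g4] at this
    simp only [Bool.false_eq_true, if_false] at this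
    exact this
  | cons a tl ih =>
    intro δ p hδ w hR hw hz hD hv
    obtain ⟨h1, h2, h3, h4⟩ := X08_f1 p δ hδ
    obtain ⟨g1, g2, g3, g4⟩ := X08_f2 p δ
    have hDt : Dle tl := fun c hc => hD c (List.mem_cons_of_mem _ hc)
    have hac := hv.1 rfl
    have hvt := hv.2
    have hhd : hd (a :: tl) = a := rfl
    rw [hhd, stF]
    cases hb : a.b with
    | false =>
      rw [hb] at hac hvt
      simp only [Bool.false_and] at hac
      rw [hac]
      simp only [Bool.false_eq_true, if_false]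
      refine X08_Fstep cc cx b a tl (stE false tl) δ p (p + δ) (p - δ) hδ (Or.inr ⟨rfl, rfl⟩) w
        hz hD ?_
      intro w' hreg hst
      rw [hb] at hst ⊢
      have := X08_E cc cx b tl (-δ) p h4 false w' (fun k hk => by rw [hreg]; exact hR k hk)
        (by rw [X08_Wt hreg, hw]) hst hDt
      rw [g3, g4] at this
      simp only [Bool.false_eq_true, if_false] at this
      exact this
    | true =>
      rw [hb] at hac hvt
      simp only [Bool.true_and] at hac
      simp only [if_true]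
      refine X08_Fstep cc cx b a tl (stF tl) δ p _ _ hδ ?_ w hz hD ?_
      · cases a.c
        · right; simp
        · left; simp
      · intro w' hreg hst
        rw [hb] at hst ⊢
        have := ih (-δ) p h4 w' (fun k hk => by rw [hreg]; exact hR k hk)
          (by rw [X08_Wt hreg, hw]) hst hDt hvt
        rw [g3, g4] at this
        rw [hac]
        cases hc : (hd tl).c
        · rw [hc] at this
          simp only [Bool.false_eq_true, if_false] at this
          simp only [Bool.not_false, if_true]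
          exact this
        · rw [hc] at this
          simp only [if_true] at this
          simp only [Bool.not_true, Bool.false_eq_true, if_false]
          exact this

theorem X08_Sc1 {t : ℝ} (h : 3 / 4 ≤ t) : Sc t = 1 := by
  unfold Sc stp
  exact Real.smoothTransition.one_of_one_le (by rw [le_div_iff₀ (by norm_num)]; linarith)

theorem X08_Sc0 {t : ℝ} (h : t ≤ 1 / 4) : Sc t = 0 := by
  unfold Sc stp
  exact Real.smoothTransition.zero_of_nonpos
    (div_nonpos_of_nonpos_of_nonneg (by linarith) (by norm_num))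

theorem X08_M0 (cc : Clamp (5/4)) (cx : Clamp (mm + 1/2)) (s d : Fin 3) (w : Zs)
    {ty : Ty} {δ p : Fin 3} {l : List Cell} (hD : Dle l) (hz : stk w = rl ty δ p l) :
    stk (M0 cc cx s d w) = rl ty δ p l := by
  rw [← hz]
  funext i tr
  have h := rl_range l hD ty δ p i tr
  rw [← hz] at h
  simp only [M0, X08_stk_mkz]
  split_ifs with h1 h2
  · refine cc.fix 1 _ (by linarith [h.1]) ?_
    have h3 : tr = 0 ∨ tr = 1 := by
      rcases tr with ⟨n, hn⟩
      simp only at h2
      interval_cases n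
      · left; rfl
      · right; rfl
    have := h.2.2 h3
    linarith
  · refine cx.fix 1 _ (by linarith [h.1]) ?_
    have := h.2.1
    linarith
  · rfl

/-- TARGET -/
theorem tick_exact (cc : Clamp (5/4)) (cx : Clamp (mm + 1/2)) (ty : Ty) (p : Fin 3)
    (r : Bool) (l : List Cell) (hD : Dle l) (hv : Val ty l) (z : Zs)
    (hR : ∀ k, |reg z k| ≤ 1/16) (hz : stk z = rl ty 1 p l) :
    stk (tick cc cx ty p (if r then 1 else 0) z) = rl ty.other 1 (p + 1) (st ty r l) := by
  have h10 : (1 : Fin 3) ≠ 0 := by decide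
  have hv' := (st_val ty r l hD hv).2
  set w1 : Zs := z + g0 ty p z with hw1
  have hs1 : stk w1 = rl ty 1 p l := by
    rw [← hz]
    funext i tr
    rw [hw1, X08_stk_add]
    simp [g0, X08_stk_mkz]
  have hr1 : ∀ k, k ≠ 0 → reg w1 k = reg z k := by
    intro k hk
    rw [hw1, X08_reg_add]
    simp [g0, X08_reg_mkz, hk]
  have hr10 : reg w1 0 = reg z 0 + (if ty = Ty.E then 1 else Sc (stk z p 1)) := by
    rw [hw1, X08_reg_add]
    simp [g0, X08_reg_mkz]
  have hR1 : ∀ k, k ≠ 0 → |reg w1 k| ≤ 1/16 := fun k hk => by rw [hr1 k hk]; exact hR k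
  have hz0 := abs_le.1 (hR 0)
  have hpm : p - 1 ≠ p + 1 := (X08_f1 p 1 h10).1
  have hN : stk (tick cc cx ty p (if r then 1 else 0) z) =
      stk (cm cc cx false (p + 1) (p - 1) 0
        (cm cc cx true (p - 1) (p + 1) (if ty = Ty.E then (if r then 1 else 0) else 0) w1)) := rfl
  rw [hN]
  obtain ⟨hc0, hck⟩ := cm_reg cc cx true (p - 1) (p + 1) hpm
    (if ty = Ty.E then (if r then 1 else 0) else 0) w1 hR1
  set w2 : Zs := cm cc cx true (p - 1) (p + 1) (if ty = Ty.E then (if r then 1 else 0) else 0) w1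
    with hw2
  -- case of weight one for the first move
  have case1 : Sc (reg w1 0) = 1 → stk w2 = rl ty.other 1 (p + 1) (st ty r l) →
      stk (cm cc cx false (p + 1) (p - 1) 0 w2) = rl ty.other 1 (p + 1) (st ty r l) := by
    intro h1 h2
    rw [cm_zero cc cx false (p + 1) (p - 1) hpm.symm 0 w2 (by simp [Wt, hc0, h1])]
    exact X08_M0 cc cx _ _ w2 hv' h2
  cases ty with
  | E =>
    have h1 : Sc (reg w1 0) = 1 := by
      apply X08_Sc1
      rw [hr10, if_pos rfl]
      linarith [hz0.1]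
    refine case1 h1 ?_
    have := X08_E cc cx true l 1 p h10 r w1 hR1 (by simp [Wt, h1]) hs1 hD
    rw [hw2, if_pos rfl]
    exact this
  | F =>
    have hFE : ¬ (Ty.F = Ty.E) := by decide
    rw [if_neg hFE] at hr10
    have hcv : stk z p 1 = vb (hd l).c + rl Ty.F 1 p l p 1 - vb (hd l).c := by
      rw [hz]; ring
    have hrd : vb (hd l).c ≤ stk z p 1 ∧ stk z p 1 ≤ vb (hd l).c + 1 / 16 := by
      rw [hz]
      cases l with
      | nil => simp [rl, hd, zc, vb]
      | cons a tl =>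
        have hDt : Dle tl := fun c hc => hD c (List.mem_cons_of_mem _ hc)
        have h5 := rl_range tl hDt (sT Ty.F a.b) (-1) (subP 1 Ty.F p) p 1
        have e1 : rl Ty.F 1 p (a :: tl) p 1 =
            vb a.c + rl (sT Ty.F a.b) (-1) (subP 1 Ty.F p) tl p 1 / lam := by
          simp [rl, posn, Cell.val]
        rw [e1]
        have h6 := X08_small h5.2.1
        have h7 := div_nonneg h5.1 X08_lam.le
        exact ⟨by simpa [hd] using h7, by simpa [hd] using h6⟩
    have hstF : st Ty.F r l = stF l := rfl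
    cases hc : (hd l).c with
    | true =>
      rw [hc] at hrd
      have h0 : Sc (stk z p 1) = 1 := by
        apply X08_Sc1
        have := hrd.1
        simp only [vb, if_true] at this
        linarith
      have h1 : Sc (reg w1 0) = 1 := by
        apply X08_Sc1
        rw [hr10, h0]
        linarith [hz0.1]
      refine case1 h1 ?_
      have := X08_F cc cx true l 1 p h10 w1 hR1 (by simp [Wt, h1]) hs1 hD hv
      rw [hc] at this
      rw [hw2, if_neg hFE]
      simp only [if_true] at this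
      exact this
    | false =>
      rw [hc] at hrd
      have h0 : Sc (stk z p 1) = 0 := by
        apply X08_Sc0
        have := hrd.2
        simp only [vb] at this
        norm_num at this
        linarith
      have h1 : Sc (reg w1 0) = 0 := by
        apply X08_Sc0
        rw [hr10, h0]
        linarith [hz0.2]
      have hs2 : stk w2 = rl Ty.F 1 p l := by
        rw [hw2, cm_zero cc cx true (p - 1) (p + 1) hpm _ w1 (by simp [Wt, h1])]
        exact X08_M0 cc cx _ _ w1 hD hs1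
      have := X08_F cc cx false l 1 p h10 w2 (fun k hk => (hck k hk).trans (by norm_num))
        (by simp [Wt, hc0, h1]) hs2 hD hv
      rw [hc] at this
      simp only [Bool.false_eq_true, if_false] at this
      exact this

end Pool.Agent.H385A
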