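import Mathlib
import Pool.Agent.H385Z.Defs
import Pool.Agent.Helper981.QA.P13
import Pool.Agent.Helper981.QA.P14
import Pool.Agent.H385Z.XRange
import Pool.Agent.H385Z.XTickE

/-!
MP_7d4c8f_an, the potential on exact states: UU_exact
-/

set_option autoImplicit false

open Set Filter Topology MeasureTheory
open scoped ContDiff

namespace Pool.Agent.H385A

open Pool.Agent.Aub
open Pool.Agent.QA (bN bN_tri bN_move bN_lat bN_omega hT_flow hT_concat hT_lat gen_flow)

set_option linter.unusedSimpArgs false
theorem P17_mm : (mm : ℝ) = 4096 := by unfold mm; norm_num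

theorem P17_vbf : vb false = 0 := by simp [vb]
theorem P17_vbt : vb true = 1 := by simp [vb]

theorem P17_hC {t : ℝ} (h0 : -1/4 ≤ t) (h1 : t ≤ 5/4) : hC t = t := by
  unfold hC
  rw [min_eq_right h1, max_eq_right h0]

theorem P17_hX {t : ℝ} (h0 : -1/4 ≤ t) (h1 : t ≤ mm + 1/2) : hX t = t := by
  unfold hX
  rw [min_eq_right h1, max_eq_right h0]

theorem P17_rho (ty : Ty) (post : Bool) : 5/32 ≤ rho ty post ∧ rho ty post ≤ 7/32 := by
  cases ty <;> cases post <;> simp only [rho, stg] <;> norm_num

theorem P17_mu (ty : Ty) (post : Bool) : 0 ≤ mu ty post ∧ mu ty post ≤ 1/16 := by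
  cases ty <;> cases post <;> simp only [mu, stg] <;> norm_num

theorem P17_Dg {D : ℕ} (hD : D ≤ mm) {μ e : ℝ} (h0 : 0 ≤ μ) (h1 : μ ≤ 1/16) (h2 : 0 ≤ e)
    (h3 : e ≤ 1/16) : Dg μ ((D : ℝ) + e) = (D : ℤ) := by
  have hD' : (D : ℝ) ≤ mm := by exact_mod_cast hD
  have hD0 : (0 : ℝ) ≤ D := Nat.cast_nonneg D
  unfold Dg
  rw [P17_hX (by linarith) (by linarith)]
  have h4 : ⌈(D : ℝ) + e - 5/8 + μ⌉ = (D : ℤ) := by
    rw [Int.ceil_eq_iff]
    push_cast
    constructor <;> linarith
  rw [h4, min_eq_right (by exact_mod_cast hD), max_eq_right (by positivity)]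

theorem P17_val0 (a : Cell) : a.val 0 = vb a.b := rfl
theorem P17_val1 (a : Cell) : a.val 1 = vb a.c := rfl
theorem P17_valk (a : Cell) (k : Fin 3) : a.val (dt k) = (a.D k : ℝ) := by
  fin_cases k <;> rfl

theorem P17_low (tl : List Cell) (hDt : Dle tl) (δ p : Fin 3) :
    ((hd tl).c = true → 3/4 ≤ rl Ty.F δ p tl p 1) ∧
    ((hd tl).c = false → rl Ty.F δ p tl p 1 ≤ 1/4) := by
  cases tl with
  | nil =>
    constructor
    · intro h
      simp [hd, zc] at h
    · intro _
      show (0 : ℝ) ≤ 1/4
      norm_num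
  | cons c tl' =>
    have hDt' : Dle tl' := fun b hb => hDt b (List.mem_cons_of_mem _ hb)
    have e : rl Ty.F δ p (c :: tl') p 1 =
        vb c.c + rl (sT Ty.F c.b) (-δ) (subP δ Ty.F p) tl' p 1 / lam := by
      show (if p = posn δ Ty.F p then _ else _) = _
      rw [if_pos (by simp [posn])]
      rfl
    have h5 := rl_range tl' hDt' (sT Ty.F c.b) (-δ) (subP δ Ty.F p) p 1
    have h6 := h5.2.2 (Or.inr rfl)
    have hlam : (lam : ℝ) = 131072 := rfl
    have h7 : 0 ≤ rl (sT Ty.F c.b) (-δ) (subP δ Ty.F p) tl' p 1 / lam := by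
      rw [hlam]; exact div_nonneg h5.1 (by norm_num)
    have h8 : rl (sT Ty.F c.b) (-δ) (subP δ Ty.F p) tl' p 1 / lam ≤ 1/4 := by
      rw [hlam, div_le_iff₀ (by norm_num)]; linarith
    constructor
    · intro h
      have h' : c.c = true := h
      rw [e, h', P17_vbt]
      linarith
    · intro h
      have h' : c.c = false := h
      rw [e, h', P17_vbf]
      linarith

/-- one step of the potential on exact states -/
theorem P17_step (N : ℕ) (post : Bool) (δ : Fin 3) (ty : Ty) (p : Fin 3) (a : Cell)
    (tl : List Cell) (hDa : ∀ k, a.D k ≤ mm) (hDt : Dle tl)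
    (hval : ty = Ty.F → a.c = (a.b && !(hd tl).c)) :
    UU (N + 1) post δ ty p (rl ty δ p (a :: tl)) =
      (Vz (fun k => (a.D k : ℤ)) + UU N post (-δ) (sT ty a.b) (subP δ ty p)
        (rl (sT ty a.b) (-δ) (subP δ ty p) tl)) / MM := by
  obtain ⟨q, hq⟩ : ∃ q, q = posn δ ty p := ⟨_, rfl⟩
  obtain ⟨x, hx⟩ : ∃ x, x = rl (sT ty a.b) (-δ) (subP δ ty p) tl := ⟨_, rfl⟩
  obtain ⟨z, hz⟩ : ∃ z, z = rl ty δ p (a :: tl) := ⟨_, rfl⟩
  have hxr : ∀ i tr, 0 ≤ x i tr ∧ x i tr ≤ mm + 1/16 ∧ (tr = 0 ∨ tr = 1 → x i tr ≤ 1 + 1/16) := by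
    intro i tr
    rw [hx]
    exact rl_range tl hDt _ _ _ i tr
  have hzq : ∀ tr, z q tr = a.val tr + x q tr / lam := by
    intro tr
    rw [hz, hx]
    show (if q = posn δ ty p then _ else _) = _
    rw [if_pos hq]
  have hzi : ∀ i, i ≠ q → ∀ tr, z i tr = x i tr := by
    intro i hi tr
    rw [hz, hx]
    show (if i = posn δ ty p then _ else _) = _
    rw [if_neg (by rw [← hq]; exact hi)]
  have hlam : (lam : ℝ) = 131072 := rfl
  have he : ∀ tr, 0 ≤ x q tr / lam ∧ x q tr / lam ≤ 1/16 := by
    intro tr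
    obtain ⟨h1, h2, -⟩ := hxr q tr
    rw [P17_mm] at h2
    rw [hlam]
    constructor
    · positivity
    · rw [div_le_iff₀ (by norm_num)]
      linarith
  have hle : ∀ tr, lam * (x q tr / lam) = x q tr := by
    intro tr
    rw [hlam]
    field_simp
  obtain ⟨hr1, hr2⟩ := P17_rho ty post
  obtain ⟨hm1, hm2⟩ := P17_mu ty post
  have h0 := he 0
  have h1 := he 1
  have hz0 : z q 0 = vb a.b + x q 0 / lam := hzq 0
  have hz1 : z q 1 = vb a.c + x q 1 / lam := hzq 1
  -- the bit
  have hrb : rb ty post q z = some (vb a.b) := by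
    unfold rb
    cases hb : a.b
    · have e1 : z q 0 ≤ rho ty post := by
        rw [hz0, hb, P17_vbf]; linarith
      rw [if_pos e1, P17_vbf]
    · have e1 : ¬ z q 0 ≤ rho ty post := by
        rw [hz0, hb, P17_vbt]; linarith
      have e2 : 1 - rho ty post ≤ z q 0 := by
        rw [hz0, hb, P17_vbt]; linarith
      rw [if_neg e1, if_pos e2, P17_vbt]
  -- the digits
  have hDD : DD ty post q z = fun k => (a.D k : ℤ) := by
    funext k
    unfold DD
    rw [hzq, P17_valk]
    exact P17_Dg (hDa k) hm1 hm2 (he _).1 (he _).2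
  -- not broken
  have hbr : ¬ broken ty post q (vb a.b) z := by
    rintro ⟨hty, hb, hc⟩
    apply hc
    have hab : a.b = false := by
      cases hb' : a.b
      · rfl
      · rw [hb'] at hb
        simp [vb] at hb
    have hac : a.c = false := by
      rw [hval hty, hab]
      rfl
    rw [hz1, hac]
    simp only [vb]
    simp
    linarith
  have hsty : subTy ty (vb a.b) = sT ty a.b := by
    cases ty <;> cases a.b <;> simp [subTy, sT, vb]
  -- value of c
  have hxc := hxr q 1
  have hx17 : x q 1 ≤ 1 + 1/16 := hxc.2.2 (Or.inr rfl)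
  have hhC : a.c = false → hC (lam * hC (z q 1)) = x q 1 := by
    intro hac
    rw [hz1, hac]
    have e1 : vb false + x q 1 / lam = x q 1 / lam := by simp [vb]
    rw [e1, P17_hC (t := x q 1 / lam) (by linarith) (by linarith), hle,
      P17_hC (t := x q 1) (by linarith) (by linarith)]
  have hhC' : a.c = true → hC (lam * (hC (z q 1) - 1)) = x q 1 := by
    intro hac
    rw [hz1, hac]
    have e1 : vb true + x q 1 / lam = 1 + x q 1 / lam := by simp [vb]
    rw [e1, P17_hC (t := 1 + x q 1 / lam) (by linarith) (by linarith), add_sub_cancel_left, hle,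
      P17_hC (t := x q 1) (by linarith) (by linarith)]
  have hsubC : subC ty post (vb a.b) q z = x q 1 := by
    unfold subC
    split_ifs with hF
    · obtain ⟨hty, hb⟩ := hF
      have hab : a.b = true := by
        cases hb' : a.b
        · rw [hb'] at hb
          simp [vb] at hb
        · rfl
      have hxq : x q 1 = rl Ty.F (-δ) p tl p 1 := by
        rw [hx, hq, hty, hab]
        simp [posn, subP, sT]
      obtain ⟨low1, low2⟩ := P17_low tl hDt (-δ) p
      rw [← hxq] at low1 low2
      have hac : a.c = !(hd tl).c := by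
        rw [hval hty, hab]
        rfl
      unfold cF
      cases hc : a.c
      · have hh : (hd tl).c = true := by
          rw [hc] at hac
          cases h : (hd tl).c
          · rw [h] at hac; simp at hac
          · rfl
        have hx34 : 3/4 ≤ x q 1 := low1 hh
        have hle1 : z q 1 ≤ rho ty post := by
          rw [hz1, hc]; simp only [P17_vbf, P17_vbt]; linarith
        rw [if_pos ⟨hle1, by rw [hhC hc]; exact hx34⟩, hhC hc]
      · have hh : (hd tl).c = false := by
          rw [hc] at hac
          cases h : (hd tl).c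
          · rfl
          · rw [h] at hac; simp at hac
        have hx14 : x q 1 ≤ 1/4 := low2 hh
        have hgt : ¬ z q 1 ≤ rho ty post := by
          rw [hz1, hc]; simp only [P17_vbf, P17_vbt]; linarith
        have hge : 1 - rho ty post ≤ z q 1 := by
          rw [hz1, hc]; simp only [P17_vbf, P17_vbt]; linarith
        rw [if_neg (fun h => hgt h.1), if_pos ⟨hge, by rw [hhC' hc]; exact hx14⟩, hhC' hc]
    · unfold cE
      cases hc : a.c
      · have hle1 : z q 1 ≤ rho ty post := by
          rw [hz1, hc]; simp only [P17_vbf, P17_vbt]; linarith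
        rw [if_pos hle1, hhC hc]
      · have hgt : ¬ z q 1 ≤ rho ty post := by
          rw [hz1, hc]; simp only [P17_vbf, P17_vbt]; linarith
        have hge : 1 - rho ty post ≤ z q 1 := by
          rw [hz1, hc]; simp only [P17_vbf, P17_vbt]; linarith
        rw [if_neg hgt, if_pos hge, hhC' hc]
  -- the sub state
  have hsub : sub δ ty post p (vb a.b) z = x := by
    unfold sub peel
    rw [← hq]
    funext i tr
    by_cases hi : i = q
    · rw [if_pos hi, hi]
      have hdig : ∀ k : Fin 3, hX (lam * (hX (z q (dt k)) - (DD ty post q z k : ℝ))) = x q (dt k) := by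
        intro k
        have e1 := he (dt k)
        have e2 := hxr q (dt k)
        have e3 : (a.D k : ℝ) ≤ mm := by exact_mod_cast hDa k
        have e4 : (0 : ℝ) ≤ a.D k := Nat.cast_nonneg _
        have e5 := e2.2.1
        rw [hDD, hzq, P17_valk, P17_hX (t := (a.D k : ℝ) + x q (dt k) / lam) (by linarith)
          (by linarith)]
        push_cast
        rw [add_sub_cancel_left, hle, P17_hX (t := x q (dt k)) (by linarith) (by linarith)]
      fin_cases tr
      · show hC (lam * (hC (z q 0) - vb a.b)) = x q 0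
        have e2 := hxr q 0
        have e3 := e2.2.2 (Or.inl rfl)
        have e4 : 0 ≤ vb a.b ∧ vb a.b ≤ 1 := by
          cases a.b <;> simp [vb]
        rw [hz0, P17_hC (t := vb a.b + x q 0 / lam) (by linarith) (by linarith),
          add_sub_cancel_left, hle, P17_hC (t := x q 0) (by linarith) (by linarith)]
      · exact hsubC
      · exact hdig 0
      · exact hdig 1
      · exact hdig 2
    · rw [if_neg hi]
      have g0 := hxr i 0
      have g1 := hxr i 1
      have g2 := hxr i 2
      have g3 := hxr i 3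
      have g4 := hxr i 4
      have g0' := g0.2.2 (Or.inl rfl)
      have g1' := g1.2.2 (Or.inr rfl)
      fin_cases tr
      · show hC (z i 0) = x i 0
        rw [hzi i hi, P17_hC (by linarith) (by linarith)]
      · show hC (z i 1) = x i 1
        rw [hzi i hi, P17_hC (by linarith) (by linarith)]
      · show hX (z i 2) = x i 2
        rw [hzi i hi, P17_hX (by linarith) (by linarith)]
      · show hX (z i 3) = x i 3
        rw [hzi i hi, P17_hX (by linarith) (by linarith)]
      · show hX (z i 4) = x i 4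
        rw [hzi i hi, P17_hX (by linarith) (by linarith)]
  rw [← hz, ← hx]
  conv_lhs => unfold UU
  rw [← hq, hrb]
  simp only
  rw [if_neg hbr, hDD, hsty, hsub]



theorem UU_exact (N : ℕ) : ∀ (post : Bool) (δ : Fin 3), δ ≠ 0 → ∀ (ty : Ty) (p : Fin 3)
    (l : List Cell), Dle l → Val ty l → UU N post δ ty p (rl ty δ p l) = vN N l := by
  induction N with
  | zero =>
    intro post δ _ ty p l _ _
    unfold UU vN
    rfl
  | succ N ih =>
    intro post δ hδ ty p l hD hV
    have hδ' : -δ ≠ 0 := neg_ne_zero.2 hδ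
    cases l with
    | nil =>
      have hz : rl ty δ p [] = rl ty δ p (zc :: []) := (X08_rlnil ty δ p).symm
      rw [hz, P17_step N post δ ty p zc [] X07_zc hD
        (fun _ => rfl), ih post (-δ) hδ' _ _ [] hD (by unfold Val; trivial)]
      rfl
    | cons a tl =>
      have hDa : ∀ k, a.D k ≤ mm := hD a List.mem_cons_self
      have hDt : Dle tl := fun b hb => hD b (List.mem_cons_of_mem _ hb)
      rw [Val] at hV
      rw [P17_step N post δ ty p a tl hDa hDt hV.1,
        ih post (-δ) hδ' _ _ tl hDt hV.2]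
      rfl

end Pool.Agent.H385A
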