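import Mathlib
import Pool.Agent.H385Z.Defs

set_option autoImplicit false

open Set Filter Topology

namespace Pool.Agent.H385A

open Pool.Agent.Aub

theorem R02_BB : (BB : ℝ) = 4095 := by unfold BB; norm_num
theorem R02_mm : (mm : ℝ) = 4096 := by unfold mm; norm_num

theorem R02_kap (k : Fin 3) : kap k ≤ 2 := by
  unfold kap mm MM BB
  fin_cases k <;> norm_num

theorem R02_kap0 : 1 ≤ kap 0 := by
  unfold kap mm MM BB
  norm_num

theorem R02_ff {κ a b ν1 ν2 t t1 t2 : ℝ} (hκ : κ ≤ 2) (ha : 0 ≤ a) (hb : 0 ≤ b) (h1 : 0 ≤ ν1)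
    (hA : Nr κ a ν1 t t1) (hB : Nr κ b ν2 t1 t2) :
    Nr κ (a + b) (ν1 + ν2) t t2 := by
  have hBB := R02_BB
  have h0 := le_max_right t 0
  unfold Nr at *
  rcases hA with hA | hA | ⟨hA0, hA⟩
  · left; linarith
  · have h3 : max t1 0 ≤ max t 0 + ν1 := max_le hA (by linarith)
    rcases hB with hB | hB | ⟨hB0, hB⟩
    · left; linarith
    · right; left; linarith
    · right; right; exact ⟨by linarith, by linarith⟩
  · have h3 : max t1 0 ≤ max t 0 + BB + ν1 := max_le hA (by linarith)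
    rcases hB with hB | hB | ⟨hB0, hB⟩
    · left; linarith
    · right; right; exact ⟨by linarith, by linarith⟩
    · left; linarith

theorem R02_tf {κ a b ν1 ν2 t t1 t2 : ℝ} (hκ1 : 1 ≤ κ) (hκ : κ ≤ 2) (ha : 0 ≤ a) (hb : 0 ≤ b)
    (h1 : 0 ≤ ν1) (h2 : 0 ≤ ν2)
    (hA : ((mm : ℝ) - 1/4 - ν1 ≤ max t 0 ∧
      ((t1 ≤ max t 0 - BB + ν1 ∧ t1 ≤ 5/4 + 2 * ν1) ∨ κ ≤ a)) ∨
      (κ ≤ a ∧ t1 ≤ 5/4 + 2 * ν1) ∨ (1 ≤ a ∧ Nr κ (a - 1) ν1 t t1))
    (hB : Nr κ b ν2 t1 t2) :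
    ((mm : ℝ) - 1/4 - (ν1 + ν2) ≤ max t 0 ∧
      ((t2 ≤ max t 0 - BB + (ν1 + ν2) ∧ t2 ≤ 5/4 + 2 * (ν1 + ν2)) ∨ κ ≤ a + b)) ∨
      (κ ≤ a + b ∧ t2 ≤ 5/4 + 2 * (ν1 + ν2)) ∨
      (1 ≤ a + b ∧ Nr κ (a + b - 1) (ν1 + ν2) t t2) := by
  have hBB := R02_BB
  have hmm := R02_mm
  rcases hA with ⟨hA0, ⟨hA1, hA2⟩ | hA⟩ | ⟨hA, hA1⟩ | ⟨hA0, hA⟩
  · have h3 : max t1 0 ≤ max t 0 - BB + ν1 := max_le hA1 (by linarith)
    have h4 : max t1 0 ≤ 5/4 + 2 * ν1 := max_le hA2 (by linarith)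
    rcases hB with hB | hB | ⟨hB0, hB⟩
    · left; exact ⟨by linarith, Or.inr (by linarith)⟩
    · left; exact ⟨by linarith, Or.inl ⟨by linarith, by linarith⟩⟩
    · right; right
      exact ⟨by linarith, Or.inr (Or.inl (by linarith))⟩
  · left
    exact ⟨by linarith, Or.inr (by linarith)⟩
  · have h4 : max t1 0 ≤ 5/4 + 2 * ν1 := max_le hA1 (by linarith)
    rcases hB with hB | hB | ⟨hB0, hB⟩
    · right; right
      exact ⟨by linarith, Or.inl (by linarith)⟩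
    · right; left
      exact ⟨by linarith, by linarith⟩
    · right; right
      exact ⟨by linarith, Or.inl (by linarith)⟩
  · right; right
    refine ⟨by linarith, ?_⟩
    have h5 := R02_ff hκ (by linarith : 0 ≤ a - 1) hb h1 hA hB
    have e : a - 1 + b = a + b - 1 := by ring
    rwa [e] at h5

theorem R02_ft {κ a b ν1 ν2 t t1 t2 : ℝ} (hκ1 : 1 ≤ κ) (hκ : κ ≤ 2) (ha : 0 ≤ a) (hb : 0 ≤ b)
    (h1 : 0 ≤ ν1)
    (hA : Nr κ a ν1 t t1)
    (hB : ((mm : ℝ) - 1/4 - ν2 ≤ max t1 0 ∧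
      ((t2 ≤ max t1 0 - BB + ν2 ∧ t2 ≤ 5/4 + 2 * ν2) ∨ κ ≤ b)) ∨
      (κ ≤ b ∧ t2 ≤ 5/4 + 2 * ν2) ∨ (1 ≤ b ∧ Nr κ (b - 1) ν2 t1 t2)) :
    ((mm : ℝ) - 1/4 - (ν1 + ν2) ≤ max t 0 ∧
      ((t2 ≤ max t 0 - BB + (ν1 + ν2) ∧ t2 ≤ 5/4 + 2 * (ν1 + ν2)) ∨ κ ≤ a + b)) ∨
      (κ ≤ a + b ∧ t2 ≤ 5/4 + 2 * (ν1 + ν2)) ∨
      (1 ≤ a + b ∧ Nr κ (a + b - 1) (ν1 + ν2) t t2) := by
  have hBB := R02_BB
  have hmm := R02_mm
  have h0 := le_max_right t 0
  rcases hB with ⟨hB0, ⟨hB1, hB2⟩ | hB⟩ | ⟨hB, hB1⟩ | ⟨hB0, hB⟩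
  · rcases hA with hA | hA | ⟨hA0, hA⟩
    · right; left
      exact ⟨by linarith, by linarith⟩
    · have h3 : max t1 0 ≤ max t 0 + ν1 := max_le hA (by linarith)
      left
      exact ⟨by linarith, Or.inl ⟨by linarith, by linarith⟩⟩
    · have h3 : max t1 0 ≤ max t 0 + BB + ν1 := max_le hA (by linarith)
      right; right
      exact ⟨by linarith, Or.inr (Or.inl (by linarith))⟩
  · rcases hA with hA | hA | ⟨hA0, hA⟩
    · right; right
      exact ⟨by linarith, Or.inl (by linarith)⟩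
    · have h3 : max t1 0 ≤ max t 0 + ν1 := max_le hA (by linarith)
      left
      exact ⟨by linarith, Or.inr (by linarith)⟩
    · right; right
      exact ⟨by linarith, Or.inl (by linarith)⟩
  · right; left
    exact ⟨by linarith, by linarith⟩
  · right; right
    refine ⟨by linarith, ?_⟩
    have h5 := R02_ff hκ ha (by linarith : 0 ≤ b - 1) h1 hA hB
    have e : a + (b - 1) = a + b - 1 := by ring
    rwa [e] at h5

/-- TARGET -/
theorem Md_comp {ty : Ty} {p : Fin 3} {ν1 ν2 cr1 cr2 : ℝ} {db1 db2 : Bool} {z z1 z2 : Stk}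
    (h1 : Md ty p ν1 cr1 db1 z z1) (h2 : Md ty p ν2 cr2 db2 z1 z2)
    (hd : db1 = false ∨ db2 = false) :
    Md ty p (ν1 + ν2) (cr1 + cr2) (db1 || db2) z z2 := by
  obtain ⟨hν1, hb1, hc1, hd1, pd1, hp1, hs1, hC1⟩ := h1
  obtain ⟨hν2, hb2, hc2, hd2, pd2, hp2, hs2, hC2⟩ := h2
  refine ⟨by linarith, ?_, ?_, ?_, fun i k => pd1 i k + pd2 i k, ?_, ?_, ?_⟩
  · intro i
    have e : z2 i 0 - z i 0 = (z1 i 0 - z i 0) + (z2 i 0 - z1 i 0) := by ring
    rw [e]
    exact le_trans (abs_add_le _ _) (add_le_add (hb1 i) (hb2 i))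
  · intro i
    rcases hc1 i with h | ⟨h, h'⟩
    · rcases hc2 i with g | ⟨g, g'⟩
      · left
        have e : z2 i 1 - z i 1 = (z1 i 1 - z i 1) + (z2 i 1 - z1 i 1) := by ring
        rw [e]
        exact le_trans (abs_add_le _ _) (add_le_add h g)
      · right
        have := abs_le.1 h
        constructor <;> linarith [this.1, this.2]
    · right
      constructor <;> linarith
  · intro hdb
    rw [Bool.or_eq_true] at hdb
    rcases hdb with hdb | hdb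
    · obtain ⟨e1, e2 | e2⟩ := hd1 hdb
      · exact ⟨e1, Or.inl (by linarith)⟩
      · exact ⟨e1, Or.inr (by linarith)⟩
    · have := abs_le.1 (hb1 p)
      obtain ⟨e1, e2 | e2⟩ := hd2 hdb
      · exact ⟨e1, Or.inl (by linarith [this.1, this.2])⟩
      · exact ⟨e1, Or.inr (by linarith [this.1, this.2])⟩
  · intro i k
    exact add_nonneg (hp1 i k) (hp2 i k)
  · simp only [Finset.sum_add_distrib]
    linarith
  · intro i k
    have g1 := hC1 i k
    have g2 := hC2 i k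
    have q1 := hp1 i k
    have q2 := hp2 i k
    unfold Cd at g1 g2 ⊢
    by_cases hik : i = p ∧ k = 0
    · cases db1 <;> cases db2
      · simp only [Bool.false_eq_true, false_and, not_false_eq_true, true_implies, false_implies,
          and_true, Bool.or_self] at g1 g2 ⊢
        exact R02_ff (R02_kap k) q1 q2 hν1 g1 g2
      · simp only [Bool.false_eq_true, false_and, not_false_eq_true, true_implies, false_implies,
          and_true, Bool.or_true, true_and, hik, not_true_eq_false] at g1 g2 ⊢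
        simp only [hik] at q1 q2
        exact R02_ft R02_kap0 (R02_kap 0) q1 q2 hν1 g1 g2
      · simp only [Bool.false_eq_true, false_and, not_false_eq_true, true_implies, false_implies,
          and_true, Bool.or_false, true_and, hik, not_true_eq_false] at g1 g2 ⊢
        simp only [hik] at q1 q2
        exact R02_tf R02_kap0 (R02_kap 0) q1 q2 hν1 hν2 g1 g2
      · simp at hd
    · have n1 : ¬ (db1 = true ∧ i = p ∧ k = 0) := fun h => hik h.2
      have n2 : ¬ (db2 = true ∧ i = p ∧ k = 0) := fun h => hik h.2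
      have n3 : ¬ ((db1 || db2) = true ∧ i = p ∧ k = 0) := fun h => hik h.2
      exact ⟨fun _ => R02_ff (R02_kap k) q1 q2 hν1 (g1.1 n1) (g2.1 n2), fun h => absurd h n3⟩

end Pool.Agent.H385A
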