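import Mathlib
import Pool.Agent.H385Z.Defs
import Pool.Agent.H385Z.XReg
import Pool.Agent.H385Z.XMove

set_option autoImplicit false

open Set Filter Topology

namespace Pool.Agent.H385A

open Pool.Agent.Aub

/-! auxiliary lemmas -/

theorem X04_hh (hi : ℝ) (c : Clamp hi) (t : ℝ) :
    max (-1/4) (min hi (c.Φ 1 t)) = max (-1/4) (min hi t) := by
  rcases le_total t (-1/4) with h | h
  · have h1 := c.lo t h
    rw [max_eq_left (le_trans (min_le_right _ _) h1), max_eq_left (le_trans (min_le_right _ _) h)]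
  · rcases le_total t hi with h' | h'
    · rw [c.fix 1 t h h']
    · have h1 := c.up t h'
      rw [min_eq_left h1, min_eq_left h']

theorem X04_hC (cc : Clamp (5/4)) (t : ℝ) : hC (cc.Φ 1 t) = hC t := X04_hh _ cc t

theorem X04_hX (cx : Clamp (mm + 1/2)) (t : ℝ) : hX (cx.Φ 1 t) = hX t := X04_hh _ cx t

theorem X04_Dg (cx : Clamp (mm + 1/2)) (μ t : ℝ) : Dg μ (cx.Φ 1 t) = Dg μ t := by
  unfold Dg
  rw [X04_hX]

theorem X04_le (θ t : ℝ) (h0 : -1/4 ≤ θ) (h1 : θ < 5/4) : hC t ≤ θ ↔ t ≤ θ := by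
  unfold hC
  rw [max_le_iff, min_le_iff]
  constructor
  · rintro ⟨_, h | h⟩
    · exact absurd h (not_le.mpr h1)
    · exact h
  · intro h
    exact ⟨h0, Or.inr h⟩

theorem X04_ge (θ t : ℝ) (h0 : -1/4 < θ) (h1 : θ ≤ 5/4) : θ ≤ hC t ↔ θ ≤ t := by
  unfold hC
  rw [le_max_iff, le_min_iff]
  constructor
  · rintro (h | ⟨_, h⟩)
    · exact absurd h (not_le.mpr h0)
    · exact h
  · intro h
    exact Or.inr ⟨h1, h⟩

theorem X04_Cle (cc : Clamp (5/4)) (θ t : ℝ) (h0 : -1/4 ≤ θ) (h1 : θ < 5/4) :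
    cc.Φ 1 t ≤ θ ↔ t ≤ θ := by
  rw [← X04_le θ _ h0 h1, X04_hC, X04_le θ _ h0 h1]

theorem X04_Cge (cc : Clamp (5/4)) (θ t : ℝ) (h0 : -1/4 < θ) (h1 : θ ≤ 5/4) :
    θ ≤ cc.Φ 1 t ↔ θ ≤ t := by
  rw [← X04_ge θ _ h0 h1, X04_hC, X04_ge θ _ h0 h1]

/-- the clamp on stacks -/
noncomputable def X04_cl (cc : Clamp (5/4)) (cx : Clamp (mm + 1/2)) (s d : Fin 3) (S : Stk) :
    Stk := fun i tr => if i = s ∨ i = d then
    (if tr.1 < 2 then cc.Φ 1 (S i tr) else cx.Φ 1 (S i tr)) else S i tr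

theorem X04_M0 (cc : Clamp (5/4)) (cx : Clamp (mm + 1/2)) (s d : Fin 3) (z : Zs) :
    stk (M0 cc cx s d z) = X04_cl cc cx s d (stk z) := rfl

theorem X04_cl_comm (cc : Clamp (5/4)) (cx : Clamp (mm + 1/2)) (s d : Fin 3) (S : Stk) :
    X04_cl cc cx s d S = X04_cl cc cx d s S := by
  funext i tr
  unfold X04_cl
  simp only [or_comm]

theorem X04_cl_s (cc : Clamp (5/4)) (cx : Clamp (mm + 1/2)) (s d : Fin 3) (S : Stk) (tr : Fin 5) :
    X04_cl cc cx s d S s tr = if tr.1 < 2 then cc.Φ 1 (S s tr) else cx.Φ 1 (S s tr) := by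
  unfold X04_cl
  simp

theorem X04_cl_d (cc : Clamp (5/4)) (cx : Clamp (mm + 1/2)) (s d : Fin 3) (S : Stk) (tr : Fin 5) :
    X04_cl cc cx s d S d tr = if tr.1 < 2 then cc.Φ 1 (S d tr) else cx.Φ 1 (S d tr) := by
  unfold X04_cl
  simp

theorem X04_dt (k : Fin 3) : ¬ ((dt k).1 < 2) := by
  unfold dt
  simp

theorem X04_dt0 : dt 0 = 2 := rfl

section post

variable (cc : Clamp (5/4)) (cx : Clamp (mm + 1/2)) (s d : Fin 3) (z z' : Stk)

theorem X04_s0 : X04_cl cc cx s d z s 0 = cc.Φ 1 (z s 0) := by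
  rw [X04_cl_s]; simp
theorem X04_s1 : X04_cl cc cx s d z s 1 = cc.Φ 1 (z s 1) := by
  rw [X04_cl_s]; simp
theorem X04_d0 : X04_cl cc cx s d z d 0 = cc.Φ 1 (z d 0) := by
  rw [X04_cl_d]; simp
theorem X04_d1 : X04_cl cc cx s d z d 1 = cc.Φ 1 (z d 1) := by
  rw [X04_cl_d]; simp
theorem X04_sk (k : Fin 3) : X04_cl cc cx s d z s (dt k) = cx.Φ 1 (z s (dt k)) := by
  rw [X04_cl_s, if_neg (X04_dt k)]
theorem X04_dk (k : Fin 3) : X04_cl cc cx s d z d (dt k) = cx.Φ 1 (z d (dt k)) := by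
  rw [X04_cl_d, if_neg (X04_dt k)]

theorem X04_postDat (β : ℝ) (h : DatRel s d β z z') : DatRel s d β z (X04_cl cc cx s d z') := by
  obtain ⟨db, bw, g, h1, h2, h3⟩ := h
  refine ⟨db, bw, g, h1, h2, fun k => ?_⟩
  obtain ⟨a1, a2, a3, a4, a5⟩ := h3 k
  have e : X04_cl cc cx s d z' d (dt k) = z' d (dt k) := by
    rw [X04_dk]
    apply cx.fix
    · linarith
    · linarith
  rw [e, X04_sk, X04_hX]
  exact ⟨a1, a2, a3, a4, a5⟩

theorem X04_postB (β : ℝ) (hβ : β = 0 ∨ β = 1) (h : MvB s d β z z') :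
    MvB s d β z (X04_cl cc cx s d z') := by
  obtain ⟨h1, h2, h3, h4, h5, h6, h7, h8⟩ := h
  have e0 : X04_cl cc cx s d z' d 0 = z' d 0 := by
    rw [X04_d0]
    rw [abs_le] at h2
    apply cc.fix
    · rcases hβ with rfl | rfl <;> linarith [h2.1, h2.2]
    · rcases hβ with rfl | rfl <;> linarith [h2.1, h2.2]
  have e1 : ∀ c : ℝ, c = 0 ∨ c = 1 → |z' d 1 - c| ≤ 1/16 → X04_cl cc cx s d z' d 1 = z' d 1 := by
    intro c hc hh
    rw [X04_d1]
    rw [abs_le] at hh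
    apply cc.fix
    · rcases hc with rfl | rfl <;> linarith [hh.1, hh.2]
    · rcases hc with rfl | rfl <;> linarith [hh.1, hh.2]
  refine ⟨?_, ?_, ?_, ?_, ?_, ?_, ?_, ?_⟩
  · rw [X04_s0, X04_hC]; exact h1
  · rw [e0]; exact h2
  · rw [e0]; exact h3
  · intro hh; rw [X04_s1, X04_hC]; exact h4 hh
  · intro hh; rw [X04_s1, X04_hC]; exact h5 hh
  · intro hh
    have a := h6 hh
    have e := e1 0 (Or.inl rfl) (by rw [sub_zero]; exact a.1)
    rw [e]; exact a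
  · intro hh
    obtain ⟨a, b⟩ := h7 hh
    constructor
    · intro h9
      have e := e1 1 (Or.inr rfl) (a h9).1
      rw [e]; exact a h9
    · intro h9
      have e := e1 0 (Or.inl rfl) (by rw [sub_zero]; exact (b h9).1)
      rw [e]; exact b h9
  · exact X04_postDat cc cx s d z z' β h8

theorem X04_post (h : Mv s d z z') : Mv s d z (X04_cl cc cx s d z') :=
  ⟨fun h0 => X04_postB cc cx s d z z' 0 (Or.inl rfl) (h.1 h0),
   fun h0 => X04_postB cc cx s d z z' 1 (Or.inr rfl) (h.2 h0)⟩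

theorem X04_preDat (β : ℝ) (h : DatRel s d β (X04_cl cc cx s d z) z') : DatRel s d β z z' := by
  obtain ⟨db, bw, g, h1, h2, h3⟩ := h
  have key : db = true → β = 0 ∧ (z d 0 ≤ 1/8 ∨ 7/8 ≤ z d 0) ∧
      (mm : ℝ) - 1/4 ≤ z d 2 ∧ z d 2 ≤ mm + 1/4 ∧ cx.Φ 1 (z d 2) = z d 2 := by
    intro hdb
    obtain ⟨a1, a2, a3, a4, -⟩ := h1 hdb
    rw [← X04_dt0, X04_dk, X04_dt0] at a3 a4
    rw [X04_d0, X04_Cle cc _ _ (by norm_num) (by norm_num),
      X04_Cge cc _ _ (by norm_num) (by norm_num)] at a2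
    have hm : (mm : ℝ) = 4096 := by norm_num [mm]
    have hlo : -1/4 ≤ z d 2 := by
      by_contra hc
      have := cx.lo (z d 2) (le_of_lt (not_le.mp hc))
      have hm' : (0 : ℝ) ≤ mm - 1/4 := by rw [hm]; norm_num
      linarith
    have hup : z d 2 ≤ mm + 1/2 := by
      by_contra hc
      have := cx.up (z d 2) (le_of_lt (not_le.mp hc))
      linarith
    have e := cx.fix 1 (z d 2) hlo hup
    rw [e] at a3 a4
    exact ⟨a1, a2, a3, a4, e⟩
  refine ⟨db, bw, g, fun hdb => ⟨(key hdb).1, (key hdb).2.1, (key hdb).2.2.1,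
    (key hdb).2.2.2.1, (h1 hdb).2.2.2.2⟩, ?_, fun k => ?_⟩
  · have e : (fun k => Dg 0 (X04_cl cc cx s d z s (dt k))) = fun k => Dg 0 (z s (dt k)) := by
      funext k
      rw [X04_sk, X04_Dg]
    rw [e] at h2
    exact h2
  · obtain ⟨a1, a2, a3, a4, a5⟩ := h3 k
    rw [X04_sk, X04_hX, X04_Dg] at a1
    refine ⟨a1, a2, a3, a4, fun hg => ?_⟩
    have a6 := a5 hg
    rw [X04_dk] at a6
    by_cases hk : db = true ∧ k = 0
    · have e := (key hk.1).2.2.2.2
      rw [if_pos hk] at a6 ⊢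
      rw [hk.2, X04_dt0] at a6 ⊢
      rw [e] at a6
      exact a6
    · rw [if_neg hk, sub_zero] at a6 ⊢
      rw [X04_hX] at a6
      exact a6

theorem X04_preB (β : ℝ) (h : MvB s d β (X04_cl cc cx s d z) z') :
    MvB s d β z z' := by
  obtain ⟨h1, h2, h3, h4, h5, h6, h7, h8⟩ := h
  rw [X04_s0, X04_hC] at h1
  rw [X04_d0, X04_hC] at h3
  rw [X04_s1, X04_Cle cc _ _ (by norm_num) (by norm_num), X04_hC] at h4
  rw [X04_s1, X04_Cge cc _ _ (by norm_num) (by norm_num), X04_hC] at h5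
  rw [X04_d1, X04_hC] at h6
  rw [X04_d1, X04_Cle cc _ _ (by norm_num) (by norm_num),
    X04_Cge cc _ _ (by norm_num) (by norm_num), X04_hC] at h7
  exact ⟨h1, h2, h3, h4, h5, h6, h7, X04_preDat cc cx s d z z' β h8⟩

theorem X04_pre (h : Mv s d (X04_cl cc cx s d z) z') : Mv s d z z' := by
  obtain ⟨h1, h2⟩ := h
  rw [X04_s0, X04_Cle cc _ _ (by norm_num) (by norm_num)] at h1
  rw [X04_s0, X04_Cge cc _ _ (by norm_num) (by norm_num)] at h2
  exact ⟨fun h0 => X04_preB cc cx s d z z' 0 (h1 h0),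
   fun h0 => X04_preB cc cx s d z z' 1 (h2 h0)⟩

end post

theorem X04_Sc0 (t : ℝ) (h : t ≤ 1/4) : Sc t = 0 := by
  unfold Sc stp
  apply Real.smoothTransition.zero_of_nonpos
  apply div_nonpos_of_nonpos_of_nonneg <;> linarith

theorem X04_Sc1 (t : ℝ) (h : 3/4 ≤ t) : Sc t = 1 := by
  unfold Sc stp
  apply Real.smoothTransition.one_of_one_le
  rw [le_div_iff₀ (by norm_num)]
  linarith

theorem X04_Sc_nonneg (t : ℝ) : 0 ≤ Sc t := Real.smoothTransition.nonneg _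

theorem X04_Sc_le (t : ℝ) : Sc t ≤ 1 := Real.smoothTransition.le_one _

theorem X04_exp : Real.exp (-16) * (17/16) ≤ 1/32 := by
  have h := Real.quadratic_le_exp_of_nonneg (x := 16) (by norm_num)
  have h2 : (0 : ℝ) < Real.exp 16 := Real.exp_pos _
  rw [Real.exp_neg, inv_mul_le_iff₀ h2]
  linarith

theorem X04_p1 (p : Fin 3) : p - 1 ≠ p + 1 := by decide +revert
theorem X04_p2 (p : Fin 3) : p ≠ p + 1 := by decide +revert
theorem X04_p3 (p : Fin 3) : p ≠ p - 1 := by decide +revert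
theorem X04_p4 (p i : Fin 3) (h : i ≠ p) : i = p + 1 ∨ i = p - 1 := by decide +revert

/-- TARGET -/
theorem tick_rel (cc : Clamp (5/4)) (cx : Clamp (mm + 1/2)) (ty : Ty) (p : Fin 3)
    (r : ℝ) (hr0 : 0 ≤ r) (hr1 : r ≤ 1) (z : Zs)
    (hS : ∀ i tr, |stk z i tr| ≤ 2 ^ 32) (hR : ∀ k, |reg z k| ≤ 1/16) :
    TickRel 1 ty p (stk z) (stk (tick cc cx ty p r z)) ∧
    (∀ i tr, i ≠ p → |stk (tick cc cx ty p r z) i tr| ≤ 2 ^ 31) ∧
    (∀ k, |reg (tick cc cx ty p r z) k| ≤ 1/32) := by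
  have ht : tick cc cx ty p r z = N1 (cm cc cx false (p + 1) (p - 1) 0
    (cm cc cx true (p - 1) (p + 1) (if ty = Ty.E then r else 0) (z + g0 ty p z))) := rfl
  rw [ht]
  set rr : ℝ := if ty = Ty.E then r else 0 with hrr
  have hrr0 : 0 ≤ rr := by rw [hrr]; split_ifs <;> linarith
  have hrr1 : rr ≤ 1 := by rw [hrr]; split_ifs <;> linarith
  set κ : ℝ := (if ty = Ty.E then 1 else Sc (stk z p 1)) with hκ
  have hκ0 : 0 ≤ κ := by rw [hκ]; split_ifs; norm_num; exact X04_Sc_nonneg _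
  have hκ1 : κ ≤ 1 := by rw [hκ]; split_ifs; norm_num; exact X04_Sc_le _
  set z1 : Zs := z + g0 ty p z with hz1
  have hs1 : stk z1 = stk z := by
    funext i tr
    change z (Sum.inl (i, tr)) + 0 = z (Sum.inl (i, tr))
    rw [add_zero]
  have hr10 : reg z1 0 = reg z 0 + κ := by
    change z (Sum.inr 0) + (if (0 : Fin 12) = 0 then κ else 0) = z (Sum.inr 0) + κ
    rw [if_pos rfl]
  have hr1k : ∀ k, k ≠ 0 → reg z1 k = reg z k := by
    intro k hk
    change z (Sum.inr k) + (if k = 0 then κ else 0) = z (Sum.inr k)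
    rw [if_neg hk, add_zero]
  have hS1 : ∀ i tr, |stk z1 i tr| ≤ 2 ^ 32 := by rw [hs1]; exact hS
  have hR1 : ∀ k, k ≠ 0 → |reg z1 k| ≤ 1/16 := by
    intro k hk; rw [hr1k k hk]; exact hR k
  have reg2 := cm_reg cc cx true (p - 1) (p + 1) (X04_p1 p) rr z1 hR1
  have bd2 := cm_bound cc cx true (p - 1) (p + 1) (X04_p1 p) rr z1 hS1
  have mv2 := cm_move cc cx true (p - 1) (p + 1) (X04_p1 p) rr hrr0 hrr1 z1 hS1 hR1
  have ze2 := cm_zero cc cx true (p - 1) (p + 1) (X04_p1 p) rr z1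
  set z2 : Zs := cm cc cx true (p - 1) (p + 1) rr z1 with hz2
  have hR2 : ∀ k, k ≠ 0 → |reg z2 k| ≤ 1/16 := fun k hk => (reg2.2 k hk).trans (by norm_num)
  have hp2 : ∀ tr, stk z2 p tr = stk z p tr := by
    intro tr
    rw [bd2.2 p tr (X04_p3 p) (X04_p2 p), hs1]
  have hS2 : ∀ i tr, |stk z2 i tr| ≤ 2 ^ 32 := by
    intro i tr
    by_cases hi : i = p
    · rw [hi, hp2]; exact hS p tr
    · rcases X04_p4 p i hi with h | h
      · exact (bd2.1 i tr (Or.inr h)).trans (by norm_num)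
      · exact (bd2.1 i tr (Or.inl h)).trans (by norm_num)
  have reg3 := cm_reg cc cx false (p + 1) (p - 1) (X04_p1 p).symm 0 z2 hR2
  have bd3 := cm_bound cc cx false (p + 1) (p - 1) (X04_p1 p).symm 0 z2 hS2
  have mv3 := cm_move cc cx false (p + 1) (p - 1) (X04_p1 p).symm 0 le_rfl (by norm_num) z2
    hS2 hR2
  have ze3 := cm_zero cc cx false (p + 1) (p - 1) (X04_p1 p).symm 0 z2
  set z3 : Zs := cm cc cx false (p + 1) (p - 1) 0 z2 with hz3
  have hs4 : stk (N1 z3) = stk z3 := rfl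
  rw [hs4]
  have hW2 : Wt true z1 = Sc (reg z 0 + κ) := by
    change Sc (reg z1 0) = _
    rw [hr10]
  have hW3 : Wt false z2 = 1 - Sc (reg z 0 + κ) := by
    change 1 - Sc (reg z2 0) = _
    rw [reg2.1, hr10]
  have hR0 := abs_le.mp (hR 0)
  -- the case where the first conditional move is performed
  have caseA : κ = 1 → Mv (p - 1) (p + 1) (stk z) (stk z3) := by
    intro hk
    have hsc : Sc (reg z 0 + κ) = 1 := X04_Sc1 _ (by rw [hk]; linarith [hR0.1])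
    have m := mv2 (by rw [hW2, hsc])
    rw [hs1] at m
    have e := ze3 (by rw [hW3, hsc]; norm_num)
    rw [e, X04_M0, X04_cl_comm]
    exact X04_post cc cx _ _ _ _ m
  have caseB : κ = 0 → Mv (p + 1) (p - 1) (stk z) (stk z3) := by
    intro hk
    have hsc : Sc (reg z 0 + κ) = 0 := X04_Sc0 _ (by rw [hk]; linarith [hR0.2])
    have e := ze2 (by rw [hW2, hsc])
    rw [X04_M0, hs1, X04_cl_comm] at e
    have m := mv3 (by rw [hW3, hsc]; norm_num)
    rw [e] at m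
    exact X04_pre cc cx _ _ _ _ m
  refine ⟨⟨?_, ?_, ?_⟩, ?_, ?_⟩
  · intro tr
    rw [bd3.2 p tr (X04_p2 p) (X04_p3 p), hp2]
  · intro hE
    exact caseA (by rw [hκ, if_pos hE])
  · intro hF
    have hne : ¬ ty = Ty.E := by rw [hF]; decide
    constructor
    · intro hc
      exact caseB (by rw [hκ, if_neg hne, X04_Sc0 _ hc])
    · intro hc
      exact caseA (by rw [hκ, if_neg hne, X04_Sc1 _ hc])
  · intro i tr hi
    exact bd3.1 i tr (X04_p4 p i hi)
  · intro k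
    by_cases hk : k = 0
    · have e : reg (N1 z3) k = Real.exp (-16) * reg z3 0 := by
        change (if k = 0 then Real.exp (-16) * reg z3 0 else reg z3 k) = _
        rw [if_pos hk]
      rw [e, reg3.1, reg2.1, hr10, abs_mul, abs_of_pos (Real.exp_pos _)]
      have h1 : |reg z 0 + κ| ≤ 17/16 := by
        rw [abs_le]; constructor <;> linarith [hR0.1, hR0.2]
      calc Real.exp (-16) * |reg z 0 + κ| ≤ Real.exp (-16) * (17/16) :=
            mul_le_mul_of_nonneg_left h1 (Real.exp_pos _).le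
        _ ≤ 1/32 := X04_exp
    · have e : reg (N1 z3) k = reg z3 k := by
        change (if k = 0 then Real.exp (-16) * reg z3 0 else reg z3 k) = _
        rw [if_neg hk]
      rw [e]
      exact reg3.2 k hk

end Pool.Agent.H385A
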