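import Mathlib
import Pool.Agent.H385Z.Defs
import Pool.Agent.H385Z.ZCm
import Pool.Agent.H385Z.XReg

set_option autoImplicit false

open Set Filter Topology MeasureTheory

namespace Pool.Agent.H385A

open Pool.Agent.Aub

theorem Z06_Sc (t : ℝ) : 0 ≤ Sc t ∧ Sc t ≤ 1 := by
  unfold Sc stp
  exact ⟨Real.smoothTransition.nonneg _, Real.smoothTransition.le_one _⟩

theorem Z06_add (z w : Zs) (R : Fin 12 → ℝ) (u : ℝ) (h : w = mkz 0 R) :
    stk (z + u • w) = stk z ∧ ∀ k, reg (z + u • w) k = reg z k + u * R k := by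
  subst h
  constructor
  · funext i tr
    simp [stk, mkz]
  · intro k
    simp [reg, mkz]

theorem Z06_g0 (ty : Ty) (p : Fin 3) (z : Zs) : ∃ a : ℝ, 0 ≤ a ∧ a ≤ 1 ∧
    g0 ty p z = mkz 0 (fun k => if k = 0 then a else 0) := by
  by_cases h : ty = Ty.E
  · refine ⟨1, zero_le_one, le_rfl, ?_⟩
    rw [g0]
    simp [h]
  · refine ⟨Sc (stk z p 1), (Z06_Sc _).1, (Z06_Sc _).2, ?_⟩
    rw [g0]
    simp [h]

theorem Z06_bd (z : Zs) (B : ℝ) (h1 : ∀ i tr, |stk z i tr| ≤ B) (h2 : ∀ k, |reg z k| ≤ B)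
    (i : Ix) : |z i| ≤ B := by
  rcases i with ⟨i, tr⟩ | k
  · exact h1 i tr
  · exact h2 k

/-- TARGET -/
theorem tick_reach (cc : Clamp (5/4)) (cx : Clamp (mm + 1/2)) (ty : Ty) (p : Fin 3)
    (r : ℝ) (z : Zs) (hS : ∀ i tr, |stk z i tr| ≤ 2 ^ 32) (hR : ∀ k, |reg z k| ≤ 1/16) :
    ∃ c : ℕ → Zs, c 0 = z ∧ c 16 = tick cc cx ty p r z ∧ ∀ j : Fin 16, ∃ ζ : ℝ → Zs,
      ζ 0 = c j ∧ ζ 1 = c (j + 1) ∧ ∀ u ∈ Icc (0 : ℝ) 1,
        HasDerivAt ζ (slotf cc cx ty p r j (ζ u)) u ∧ ∀ i, |ζ u i| ≤ 2 ^ 38 := by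
  obtain ⟨a, ha0, ha1, hg⟩ := Z06_g0 ty p z
  have hadd := fun u : ℝ => Z06_add z (g0 ty p z) _ u hg
  have hne1 : p - 1 ≠ p + 1 := by fin_cases p <;> decide
  have hne2 : p + 1 ≠ p - 1 := hne1.symm
  -- first point
  set z1 : Zs := z + g0 ty p z with hz1
  have hz1' : z1 = z + (1 : ℝ) • g0 ty p z := by rw [one_smul]
  have hS1 : ∀ i tr, |stk z1 i tr| ≤ 2 ^ 32 := by
    intro i tr
    rw [hz1', (hadd 1).1]
    exact hS i tr
  have hR10 : |reg z1 0| ≤ 17 / 16 := by
    rw [hz1', (hadd 1).2, if_pos rfl, one_mul]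
    refine (abs_add_le _ _).trans ?_
    rw [abs_of_nonneg ha0]
    have := hR 0
    linarith
  have hR1 : ∀ k, k ≠ 0 → |reg z1 k| ≤ 1 / 16 := by
    intro k hk
    rw [hz1', (hadd 1).2, if_neg hk, mul_zero, add_zero]
    exact hR k
  have hR1' : ∀ k, |reg z1 k| ≤ 2 := by
    intro k
    by_cases hk : k = 0
    · rw [hk]; linarith
    · have := hR1 k hk; linarith
  obtain ⟨cA, hA0, hA7, hA⟩ := cm_reach cc cx true (p - 1) (p + 1) hne1
    (if ty = Ty.E then r else 0) z1 hS1 hR1'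
  set z8 : Zs := cm cc cx true (p - 1) (p + 1) (if ty = Ty.E then r else 0) z1 with hz8
  have hB1 := cm_bound cc cx true (p - 1) (p + 1) hne1 (if ty = Ty.E then r else 0) z1 hS1
  have hG1 := cm_reg cc cx true (p - 1) (p + 1) hne1 (if ty = Ty.E then r else 0) z1 hR1
  rw [← hz8] at hB1 hG1
  have hS8 : ∀ i tr, |stk z8 i tr| ≤ 2 ^ 32 := by
    intro i tr
    by_cases hi : i = p - 1 ∨ i = p + 1
    · exact (hB1.1 i tr hi).trans (by norm_num)
    · rw [not_or] at hi
      rw [hB1.2 i tr hi.1 hi.2]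
      exact hS1 i tr
  have hR80 : |reg z8 0| ≤ 17 / 16 := by rw [hG1.1]; exact hR10
  have hR8 : ∀ k, k ≠ 0 → |reg z8 k| ≤ 1 / 16 := fun k hk =>
    (hG1.2 k hk).trans (by norm_num)
  have hR8' : ∀ k, |reg z8 k| ≤ 2 := by
    intro k
    by_cases hk : k = 0
    · rw [hk]; linarith
    · have := hR8 k hk; linarith
  obtain ⟨cB, hC0, hC7, hC⟩ := cm_reach cc cx false (p + 1) (p - 1) hne2 0 z8 hS8 hR8'
  set z15 : Zs := cm cc cx false (p + 1) (p - 1) 0 z8 with hz15
  have hB2 := cm_bound cc cx false (p + 1) (p - 1) hne2 0 z8 hS8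
  have hG2 := cm_reg cc cx false (p + 1) (p - 1) hne2 0 z8 hR8
  rw [← hz15] at hB2 hG2
  have hS15 : ∀ i tr, |stk z15 i tr| ≤ 2 ^ 32 := by
    intro i tr
    by_cases hi : i = p + 1 ∨ i = p - 1
    · exact (hB2.1 i tr hi).trans (by norm_num)
    · rw [not_or] at hi
      rw [hB2.2 i tr hi.1 hi.2]
      exact hS8 i tr
  have hR150 : |reg z15 0| ≤ 17 / 16 := by rw [hG2.1]; exact hR80
  have hR15 : ∀ k, k ≠ 0 → |reg z15 k| ≤ 1 / 16 := fun k hk =>
    (hG2.2 k hk).trans (by norm_num)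
  -- slot 0
  have hs0 : ∃ ζ : ℝ → Zs, ζ 0 = z ∧ ζ 1 = cA 0 ∧ ∀ u ∈ Icc (0 : ℝ) 1,
      HasDerivAt ζ (g0 ty p (ζ u)) u ∧ ∀ i, |ζ u i| ≤ 2 ^ 38 := by
    refine ⟨fun u => z + u • g0 ty p z, by simp, by rw [hA0, hz1]; simp, fun u hu => ⟨?_, ?_⟩⟩
    · have e : g0 ty p (z + u • g0 ty p z) = g0 ty p z := by
        conv_lhs => rw [g0]
        rw [(hadd u).1]
        rfl
      have h1 : HasDerivAt (fun u : ℝ => z + u • g0 ty p z) (g0 ty p z) u := by
        simpa using ((hasDerivAt_id u).smul_const (g0 ty p z)).const_add z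
      show HasDerivAt (fun u : ℝ => z + u • g0 ty p z) (g0 ty p (z + u • g0 ty p z)) u
      rw [e]
      exact h1
    · refine Z06_bd _ _ (fun i tr => ?_) (fun k => ?_)
      · show |stk (z + u • g0 ty p z) i tr| ≤ _
        rw [(hadd u).1]
        exact (hS i tr).trans (by norm_num)
      · show |reg (z + u • g0 ty p z) k| ≤ _
        rw [(hadd u).2]
        refine (abs_add_le _ _).trans ?_
        have h1 := hR k
        have h2 : |u * (if k = 0 then a else 0)| ≤ 1 := by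
          split_ifs
          · rw [abs_of_nonneg (mul_nonneg hu.1 ha0)]
            have := hu.2
            nlinarith [hu.1]
          · simp
        have h3 : (2 : ℝ) ^ 38 ≥ 2 := by norm_num
        linarith
  -- slot 15
  have hs15 : ∃ ζ : ℝ → Zs, ζ 0 = cB 7 ∧ ζ 1 = N1 (cB 7) ∧ ∀ u ∈ Icc (0 : ℝ) 1,
      HasDerivAt ζ (g1 (ζ u)) u ∧ ∀ i, |ζ u i| ≤ 2 ^ 38 := by
    rw [hC7]
    refine ⟨fun u => mkz (stk z15) (fun k => if k = 0 then Real.exp (-16 * u) * reg z15 0
      else reg z15 k), ?_, ?_, fun u hu => ⟨?_, ?_⟩⟩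
    · funext i
      rcases i with ⟨i, tr⟩ | k
      · rfl
      · show (if k = 0 then Real.exp (-16 * 0) * reg z15 0 else reg z15 k) = reg z15 k
        by_cases hk : k = 0
        · simp [hk]
        · simp [hk]
    · show mkz (stk z15) (fun k => if k = 0 then Real.exp (-16 * 1) * reg z15 0
        else reg z15 k) = N1 z15
      rw [N1, mul_one]
    · rw [hasDerivAt_pi]
      intro i
      rcases i with ⟨i, tr⟩ | k
      · exact hasDerivAt_const u (stk z15 i tr)
      · show HasDerivAt (fun u => if k = 0 then Real.exp (-16 * u) * reg z15 0 else reg z15 k)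
          (if k = 0 then -16 * (if (0 : Fin 12) = 0 then Real.exp (-16 * u) * reg z15 0
            else reg z15 0) else 0) u
        by_cases hk : k = 0
        · simp only [hk, if_true]
          have h1 : HasDerivAt (fun u : ℝ => -16 * u) (-16) u := by
            simpa using (hasDerivAt_id u).const_mul (-16 : ℝ)
          have h2 := h1.exp.mul_const (reg z15 0)
          refine h2.congr_deriv ?_
          ring
        · simp only [hk, if_false]
          exact hasDerivAt_const u _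
    · refine Z06_bd _ _ (fun i tr => ?_) (fun k => ?_)
      · exact (hS15 i tr).trans (by norm_num)
      · show |if k = 0 then Real.exp (-16 * u) * reg z15 0 else reg z15 k| ≤ _
        have h3 : (2 : ℝ) ^ 38 ≥ 2 := by norm_num
        by_cases hk : k = 0
        · simp only [hk, if_true]
          rw [abs_mul, abs_of_pos (Real.exp_pos _)]
          have h4 : Real.exp (-16 * u) ≤ 1 := by
            rw [Real.exp_le_one_iff]
            have := hu.1
            linarith
          have h5 : 0 ≤ |reg z15 0| := abs_nonneg _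
          have h6 : Real.exp (-16 * u) * |reg z15 0| ≤ 1 * |reg z15 0| :=
            mul_le_mul_of_nonneg_right h4 h5
          linarith
        · simp only [hk, if_false]
          have := hR15 k hk
          linarith
  refine ⟨fun n => ([z, cA 0, cA 1, cA 2, cA 3, cA 4, cA 5, cA 6, cA 7, cB 1, cB 2, cB 3, cB 4,
    cB 5, cB 6, cB 7, N1 (cB 7)] : List Zs).getD n z, rfl, ?_, ?_⟩
  · show N1 (cB 7) = tick cc cx ty p r z
    rw [hC7]
    rfl
  · have hm : cB 0 = cA 7 := by rw [hC0, hA7]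
    intro j
    fin_cases j
    · exact hs0
    · exact hA 0
    · exact hA 1
    · exact hA 2
    · exact hA 3
    · exact hA 4
    · exact hA 5
    · exact hA 6
    · have := hC 0
      obtain ⟨ζ, h0, h1, h2⟩ := this
      exact ⟨ζ, h0.trans hm, h1, h2⟩
    · exact hC 1
    · exact hC 2
    · exact hC 3
    · exact hC 4
    · exact hC 5
    · exact hC 6
    · exact hs15

end Pool.Agent.H385A
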