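import Mathlib
import Pool.Agent.H385Z.Defs
import Pool.Agent.H385Z.ZSlot
import Pool.Agent.H385Z.XReg
import Pool.Agent.Helper961.Aub.ZFlow
import Pool.Agent.Helper961.Aub.ZY

set_option autoImplicit false

open Set Filter Topology MeasureTheory

namespace Pool.Agent.H385A

open Pool.Agent.Aub

def Z09_I (x : ℝ) : Prop := 0 ≤ x ∧ x ≤ 4096

def Z09_J (x : ℝ) : Prop := 0 ≤ x ∧ x ≤ 1

theorem Z09_JI {x : ℝ} (h : Z09_J x) : Z09_I x := ⟨h.1, h.2.trans (by norm_num)⟩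

theorem Z09_vec {n : ℕ} {P : ℝ → Prop} {a : ℝ} {v : Fin n → ℝ} (ha : P a) (hv : ∀ k, P (v k)) :
    ∀ k, P (Matrix.vecCons a v k) := by
  intro k
  refine Fin.cases ?_ ?_ k
  · exact ha
  · exact hv

theorem Z09_nil {P : ℝ → Prop} {v : Fin 0 → ℝ} : ∀ k, P (v k) := fun k => k.elim0

theorem Z09_stp (a b t : ℝ) : Z09_J (stp a b t) :=
  ⟨Real.smoothTransition.nonneg _, Real.smoothTransition.le_one _⟩

theorem Z09_mul {x y : ℝ} (hx : Z09_J x) (hy : Z09_J y) : Z09_J (x * y) :=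
  ⟨mul_nonneg hx.1 hy.1, mul_le_one₀ hx.2 hy.1 hy.2⟩

theorem Z09_sub {x : ℝ} (hx : Z09_J x) : Z09_J (1 - x) := ⟨by linarith [hx.2], by linarith [hx.1]⟩

theorem Z09_Sc (t : ℝ) : Z09_J (Sc t) := Z09_stp _ _ _

theorem Z09_sum (f : ℕ → ℝ) (hf : ∀ j, Z09_J (f j)) : Z09_I (∑ j ∈ Finset.range mm, f j) := by
  constructor
  · exact Finset.sum_nonneg fun j _ => (hf j).1
  · have h := Finset.sum_le_card_nsmul (Finset.range mm) f 1 fun j _ => (hf j).2
    rw [Finset.card_range, nsmul_eq_mul, mul_one] at h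
    refine h.trans ?_
    unfold mm; norm_num

theorem Z09_S1 (t : ℝ) : Z09_I (S1 t) := Z09_sum _ fun _ => Z09_stp _ _ _
theorem Z09_S2 (t : ℝ) : Z09_I (S2 t) := Z09_sum _ fun _ => Z09_stp _ _ _
theorem Z09_Qx (t : ℝ) : Z09_I (Qx t) := Z09_sum _ fun _ => Z09_stp _ _ _
theorem Z09_gT (t : ℝ) : Z09_J (gT t) := Z09_sub (Z09_mul (Z09_stp _ _ _) (Z09_sub (Z09_stp _ _ _)))
theorem Z09_gt (t : ℝ) : Z09_J (gt t) := Z09_sub (Z09_mul (Z09_stp _ _ _) (Z09_sub (Z09_stp _ _ _)))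
theorem Z09_cT (a b : ℝ) : Z09_J (cT a b) :=
  Z09_mul (Z09_mul (Z09_stp _ _ _) (Z09_sub (Z09_stp _ _ _))) (Z09_sub (Z09_stp _ _ _))
theorem Z09_ct (a b : ℝ) : Z09_J (ct a b) :=
  Z09_mul (Z09_mul (Z09_stp _ _ _) (Z09_sub (Z09_stp _ _ _))) (Z09_sub (Z09_stp _ _ _))
theorem Z09_Wt (b : Bool) (z : Zs) : Z09_J (Wt b z) := by
  unfold Wt
  split_ifs
  · exact Z09_Sc _
  · exact Z09_sub (Z09_Sc _)

theorem Z09_JmulI {x y : ℝ} (hx : Z09_J x) (hy : Z09_I y) : Z09_I (x * y) := by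
  refine ⟨mul_nonneg hx.1 hy.1, ?_⟩
  have h1 := hx.1
  have h2 := hx.2
  have h3 := hy.1
  have h4 := hy.2
  nlinarith

theorem Z09_f1 (s d : Fin 3) (z : Zs) : ∀ k, Z09_I (reg (f1 s d z) k) := by
  show ∀ k, Z09_I ((![0, Sc (stk z s 0), Sc (stk z s 1), Sc (stk z d 1),
    S1 (stk z s 2), S1 (stk z s 3), S1 (stk z s 4),
    S2 (stk z s 2), S2 (stk z s 3), S2 (stk z s 4), 0, 0] : Fin 12 → ℝ) k)
  have h0 : Z09_I 0 := ⟨le_refl _, by norm_num⟩
  exact Z09_vec h0 (Z09_vec (Z09_JI (Z09_Sc _)) (Z09_vec (Z09_JI (Z09_Sc _))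
    (Z09_vec (Z09_JI (Z09_Sc _)) (Z09_vec (Z09_S1 _) (Z09_vec (Z09_S1 _) (Z09_vec (Z09_S1 _)
    (Z09_vec (Z09_S2 _) (Z09_vec (Z09_S2 _) (Z09_vec (Z09_S2 _) (Z09_vec h0 (Z09_vec h0
    Z09_nil)))))))))))

theorem Z09_f2 (d : Fin 3) (z : Zs) (k : Fin 12) : |reg (f2 d z) k| ≤ 4096 := by
  have := X02_f2 d z k
  rw [abs_le]
  constructor <;> linarith [this.1, this.2]

theorem Z09_pushed (r : ℝ) (z : Zs) : ∀ k, Z09_I (pushed r z k) :=
  Z09_vec (Z09_JI (Z09_sub (Z09_Sc _))) (Z09_vec (Z09_JI (Z09_mul (Z09_sub (Z09_Sc _))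
    (Z09_sub (Z09_Sc _)))) (Z09_vec (Z09_Qx _) (Z09_vec (Z09_Qx _) (Z09_vec (Z09_Qx _) Z09_nil))))

theorem Z09_absI {x : ℝ} (h : Z09_I x) : |x| ≤ 4096 := by
  rw [abs_of_nonneg h.1]; exact h.2

theorem Z09_absn {x : ℝ} (h : Z09_I x) : |-x| ≤ 4096 := by
  rw [abs_neg]; exact Z09_absI h

theorem Z09_f3 (b : Bool) (s d : Fin 3) (z : Zs) (i : Fin 3) (tr : Fin 5) :
    |stk (f3 b s d z) i tr| ≤ 4096 ∧ (¬ (i = s ∨ i = d) → stk (f3 b s d z) i tr = 0) := by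
  have e : stk (f3 b s d z) i tr = if i = s then
      -(Wt b z * ![Sc (reg z 1), Sc (reg z 2), Qx (reg z 7), Qx (reg z 8), Qx (reg z 9)] tr)
    else if i = d ∧ tr = 2 then -(Wt b z * (BB * Sg (reg z 10))) else 0 := rfl
  rw [e]
  constructor
  · split_ifs with h1 h2
    · refine Z09_absn (Z09_JmulI (Z09_Wt _ _) ?_)
      exact Z09_vec (P := Z09_I) (Z09_JI (Z09_Sc _)) (Z09_vec (Z09_JI (Z09_Sc _)) (Z09_vec (Z09_Qx _)
        (Z09_vec (Z09_Qx _) (Z09_vec (Z09_Qx _) Z09_nil)))) tr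
    · rw [abs_neg, X02_BB, abs_le]
      have := X02_Sg (reg z 10)
      have hw := Z09_Wt b z
      constructor <;> nlinarith [this.1, this.2, hw.1, hw.2]
    · norm_num
  · intro h
    push Not at h
    rw [if_neg h.1, if_neg (fun h2 => h.2 h2.1)]

theorem Z09_f5 (b : Bool) (d : Fin 3) (r : ℝ) (z : Zs) (i : Fin 3) (tr : Fin 5) :
    |stk (f5 b d r z) i tr| ≤ 4096 ∧ (i ≠ d → stk (f5 b d r z) i tr = 0) := by
  have e : stk (f5 b d r z) i tr = if i = d then Wt b z * pushed r z tr else 0 := rfl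
  rw [e]
  constructor
  · split_ifs with h1
    · exact Z09_absI (Z09_JmulI (Z09_Wt _ _) (Z09_pushed _ _ _))
    · norm_num
  · intro h
    rw [if_neg h]

theorem Z09_M0 (cc : Clamp (5/4)) (cx : Clamp (mm + 1/2)) (s d : Fin 3) (z : Zs)
    (hS : ∀ i tr, |stk z i tr| ≤ 2 ^ 32) (i : Fin 3) (tr : Fin 5) :
    ((i = s ∨ i = d) → |stk (M0 cc cx s d z) i tr| ≤ 4097) ∧
    (¬ (i = s ∨ i = d) → stk (M0 cc cx s d z) i tr = stk z i tr) := by
  have e : stk (M0 cc cx s d z) i tr = if i = s ∨ i = d then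
    (if tr.1 < 2 then cc.Φ 1 (stk z i tr) else cx.Φ 1 (stk z i tr)) else stk z i tr := rfl
  rw [e]
  constructor
  · intro h
    rw [if_pos h]
    split_ifs with h1
    · have h2 := cc.rng _ (hS i tr)
      rw [abs_le]
      constructor <;> linarith [h2.1, h2.2]
    · have h2 := cx.rng _ (hS i tr)
      have h4 : (mm : ℝ) = 4096 := by unfold mm; norm_num
      rw [abs_le]
      constructor <;> linarith [h2.1, h2.2, h4]
  · intro h
    rw [if_neg h]

theorem Z09_M4 (b : Bool) (s d : Fin 3) (z : Zs) (i : Fin 3) (tr : Fin 5) :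
    |stk (M4 b s d z) i tr| ≤ 131072 * |stk z i tr| ∧
    (¬ (i = s ∨ i = d) → stk (M4 b s d z) i tr = stk z i tr) := by
  have e : stk (M4 b s d z) i tr = if i = s then Real.exp (Wt b z * Real.log lam) * stk z i tr
    else if i = d then Real.exp (-(Wt b z * Real.log lam)) * stk z i tr
    else stk z i tr := rfl
  rw [e]
  have hlam : (0:ℝ) < Real.log lam := Real.log_pos (by unfold lam; norm_num)
  have hW := Z09_Wt b z
  constructor
  · have hs0 : 0 ≤ |stk z i tr| := abs_nonneg _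
    split_ifs with h1 h2
    · rw [abs_mul, abs_of_pos (Real.exp_pos _)]
      refine mul_le_mul_of_nonneg_right ?_ hs0
      have h3 : Wt b z * Real.log lam ≤ Real.log lam := by nlinarith [hW.2]
      have h4 : Real.exp (Real.log lam) = 131072 := by
        rw [Real.exp_log (by unfold lam; norm_num)]; rfl
      rw [← h4]
      exact Real.exp_le_exp.mpr h3
    · rw [abs_mul, abs_of_pos (Real.exp_pos _)]
      refine mul_le_mul_of_nonneg_right ?_ hs0
      have h3 : Real.exp (-(Wt b z * Real.log lam)) ≤ 1 := by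
        rw [Real.exp_le_one_iff]
        have := mul_nonneg hW.1 hlam.le
        linarith
      linarith
    · linarith
  · intro h
    push Not at h
    rw [if_neg h.1, if_neg h.2]

theorem Z09_M6 (z : Zs) (k : Fin 12) : |reg (M6 z) k| ≤ |reg z k| := by
  have e : reg (M6 z) k = if k = 0 then reg z 0 else Real.exp (-16) * reg z k := rfl
  rw [e]
  split_ifs with h
  · rw [h]
  · rw [abs_mul, abs_of_pos (Real.exp_pos _)]
    have h1 : Real.exp (-16) ≤ 1 := by rw [Real.exp_le_one_iff]; norm_num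
    have h2 := abs_nonneg (reg z k)
    nlinarith

theorem Z09_N1 (z : Zs) (k : Fin 12) : |reg (N1 z) k| ≤ |reg z k| := by
  have e : reg (N1 z) k = if k = 0 then Real.exp (-16) * reg z 0 else reg z k := rfl
  rw [e]
  split_ifs with h
  · rw [abs_mul, abs_of_pos (Real.exp_pos _), h]
    have h1 : Real.exp (-16) ≤ 1 := by rw [Real.exp_le_one_iff]; norm_num
    have h2 := abs_nonneg (reg z 0)
    nlinarith
  · exact le_refl _

theorem Z09_cm (cc : Clamp (5/4)) (cx : Clamp (mm + 1/2)) (b : Bool) (s d : Fin 3) (r : ℝ)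
    (z : Zs) (hS : ∀ i tr, |stk z i tr| ≤ 2 ^ 32) (B : ℝ) (hR : ∀ k, |reg z k| ≤ B) :
    (∀ i tr, |stk (cm cc cx b s d r z) i tr| ≤ 2 ^ 32) ∧
      (∀ k, |reg (cm cc cx b s d r z) k| ≤ B + 8192) := by
  obtain ⟨z0, hz0⟩ : ∃ z0, z0 = M0 cc cx s d z := ⟨_, rfl⟩
  obtain ⟨z1, hz1⟩ : ∃ z1, z1 = z0 + f1 s d z0 := ⟨_, rfl⟩
  obtain ⟨z2, hz2⟩ : ∃ z2, z2 = z1 + f2 d z1 := ⟨_, rfl⟩
  obtain ⟨z3, hz3⟩ : ∃ z3, z3 = z2 + f3 b s d z2 := ⟨_, rfl⟩
  obtain ⟨z4, hz4⟩ : ∃ z4, z4 = M4 b s d z3 := ⟨_, rfl⟩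
  obtain ⟨z5, hz5⟩ : ∃ z5, z5 = z4 + f5 b d r z4 := ⟨_, rfl⟩
  have hcm : cm cc cx b s d r z = M6 z5 := by
    rw [hz5, hz4, hz3, hz2, hz1, hz0]; rfl
  rw [hcm]
  have s1 : ∀ i tr, stk z1 i tr = stk z0 i tr := by
    intro i tr; rw [hz1]
    show stk z0 i tr + 0 = _
    rw [add_zero]
  have s2 : ∀ i tr, stk z2 i tr = stk z0 i tr := by
    intro i tr; rw [← s1, hz2]
    show stk z1 i tr + 0 = _
    rw [add_zero]
  have s3 : ∀ i tr, stk z3 i tr = stk z0 i tr + stk (f3 b s d z2) i tr := by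
    intro i tr; rw [← s2, hz3]; rfl
  have s5 : ∀ i tr, stk z5 i tr = stk z4 i tr + stk (f5 b d r z4) i tr := by
    intro i tr; rw [hz5]; rfl
  have s6 : ∀ i tr, stk (M6 z5) i tr = stk z5 i tr := fun i tr => rfl
  have r0 : ∀ k, reg z0 k = reg z k := by intro k; rw [hz0]; rfl
  have r1 : ∀ k, reg z1 k = reg z k + reg (f1 s d z0) k := by
    intro k; rw [← r0, hz1]; rfl
  have r2 : ∀ k, reg z2 k = reg z1 k + reg (f2 d z1) k := by
    intro k; rw [hz2]; rfl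
  have r3 : ∀ k, reg z3 k = reg z2 k := by
    intro k; rw [hz3]
    show reg z2 k + 0 = _
    rw [add_zero]
  have r4 : ∀ k, reg z4 k = reg z3 k := by intro k; rw [hz4]; rfl
  have r5 : ∀ k, reg z5 k = reg z4 k := by
    intro k; rw [hz5]
    show reg z4 k + 0 = _
    rw [add_zero]
  constructor
  · intro i tr
    rw [s6, s5]
    obtain ⟨m1, m2⟩ := Z09_M0 cc cx s d z hS i tr
    obtain ⟨a1, a2⟩ := Z09_f3 b s d z2 i tr
    obtain ⟨b1, b2⟩ := Z09_M4 b s d z3 i tr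
    obtain ⟨c1, c2⟩ := Z09_f5 b d r z4 i tr
    rw [← hz0] at m1 m2
    rw [← hz4] at b1 b2
    by_cases h : i = s ∨ i = d
    · have h1 := m1 h
      have h2 : |stk z3 i tr| ≤ 4097 + 4096 := by
        rw [s3]
        exact (abs_add_le _ _).trans (add_le_add h1 a1)
      have h3 : |stk z4 i tr| ≤ 131072 * (4097 + 4096) :=
        b1.trans (mul_le_mul_of_nonneg_left h2 (by norm_num))
      refine (abs_add_le _ _).trans ((add_le_add h3 c1).trans ?_)
      norm_num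
    · have h1 : i ≠ d := fun e => h (Or.inr e)
      rw [c2 h1, add_zero, b2 h, s3, a2 h, add_zero, m2 h]
      exact hS i tr
  · intro k
    refine (Z09_M6 z5 k).trans ?_
    rw [r5, r4, r3, r2, r1]
    have h1 := Z09_absI (Z09_f1 s d z0 k)
    have h2 := Z09_f2 d z1 k
    have h3 := hR k
    have h4 := abs_add_le (reg z k + reg (f1 s d z0) k) (reg (f2 d z1) k)
    have h5 := abs_add_le (reg z k) (reg (f1 s d z0) k)
    linarith

theorem Z09_tick (cc : Clamp (5/4)) (cx : Clamp (mm + 1/2)) (ty : Ty) (p : Fin 3) (r : ℝ)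
    (z : Zs) (hS : ∀ i tr, |stk z i tr| ≤ 2 ^ 32) (hR : ∀ k, |reg z k| ≤ 1/16) (i : Ix) :
    |tick cc cx ty p r z i| ≤ LL / 4 := by
  have hS' : ∀ i tr, |stk (z + g0 ty p z) i tr| ≤ 2 ^ 32 := by
    intro i tr
    have : stk (z + g0 ty p z) i tr = stk z i tr + 0 := rfl
    rw [this, add_zero]
    exact hS i tr
  have hR' : ∀ k, |reg (z + g0 ty p z) k| ≤ 2 := by
    intro k
    have e : reg (z + g0 ty p z) k = reg z k +
      (if k = 0 then (if ty = Ty.E then 1 else Sc (stk z p 1)) else 0) := rfl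
    rw [e]
    have h1 : |(if k = 0 then (if ty = Ty.E then 1 else Sc (stk z p 1)) else (0:ℝ))| ≤ 1 := by
      have h2 := Z09_Sc (stk z p 1)
      split_ifs
      · norm_num
      · rw [abs_of_nonneg h2.1]; exact h2.2
      · norm_num
    have h3 := hR k
    have h4 := abs_add_le (reg z k) (if k = 0 then (if ty = Ty.E then 1 else Sc (stk z p 1)) else 0)
    linarith
  obtain ⟨c1, c2⟩ := Z09_cm cc cx true (p - 1) (p + 1) (if ty = Ty.E then r else 0) _ hS' 2 hR'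
  obtain ⟨d1, d2⟩ := Z09_cm cc cx false (p + 1) (p - 1) 0 _ c1 _ c2
  have hLL : LL / 4 = 2 ^ 38 := by unfold LL; norm_num
  rw [hLL]
  rcases i with ⟨i, tr⟩ | k
  · have e : tick cc cx ty p r z (Sum.inl (i, tr)) = stk (cm cc cx false (p + 1) (p - 1) 0
      (cm cc cx true (p - 1) (p + 1) (if ty = Ty.E then r else 0) (z + g0 ty p z))) i tr := rfl
    rw [e]
    exact (d1 i tr).trans (by norm_num)
  · have e : tick cc cx ty p r z (Sum.inr k) = reg (N1 (cm cc cx false (p + 1) (p - 1) 0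
      (cm cc cx true (p - 1) (p + 1) (if ty = Ty.E then r else 0) (z + g0 ty p z)))) k := rfl
    rw [e]
    refine (Z09_N1 _ k).trans ((d2 k).trans ?_)
    norm_num

/-- TARGET -/
theorem section_flow (cc : Clamp (5/4)) (cx : Clamp (mm + 1/2)) (rh : Rho) {F : EE → EE}
    {φ : ℝ → EE → EE} (h : Realz 97 (YY cc cx rh) LL F φ) (n : ℕ)
    (z : Zs) (y : ℝ) (hS : ∀ i tr, |stk z i tr| ≤ 2 ^ 32) (hR : ∀ k, |reg z k| ≤ 1/16) :
    ∃ y', φ (Th (n + 1) - Th n) (mkp z y (Th n)) =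
      mkp (tick cc cx (tyj n) (pj n) (rh.ρ y) z) y' (Th (n + 1)) := by
  obtain ⟨q, r, hn, hr⟩ : ∃ q r : ℕ, n = 6 * q + r ∧ r < 6 := ⟨n / 6, n % 6, by omega, by omega⟩
  have hty : tyj n = tyj r := by
    unfold tyj
    have : n % 2 = r % 2 := by omega
    rw [this]
  have hpj : pj n = pj r := by
    unfold pj
    apply Fin.ext
    simp only [Fin.ofNat]
    omega
  have hTn : Th n = ((q : ℤ) : ℝ) * LL + 16 * (r : ℝ) := by
    unfold Th
    have e1 : n / 6 = q := by omega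
    have e2 : n % 6 = r := by omega
    rw [e1, e2]; push_cast; ring
  have hsf := slot_flow cc cx rh h (q : ℤ) r hr z y hS hR
  rcases Nat.lt_or_ge r 5 with hr5 | hr5
  · refine ⟨y, ?_⟩
    have hTn1 : Th (n + 1) = ((q : ℤ) : ℝ) * LL + 16 * ((r : ℝ) + 1) := by
      unfold Th
      have e1 : (n + 1) / 6 = q := by omega
      have e2 : (n + 1) % 6 = r + 1 := by omega
      rw [e1, e2]; push_cast; ring
    have e3 : Th (n + 1) - Th n = 16 := by rw [hTn1, hTn]; ring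
    rw [e3, hTn, hTn1, hty, hpj]
    exact hsf
  · have hr' : r = 5 := by omega
    subst hr'
    have hLL : LL = 2 ^ 40 := rfl
    have hLLpos : 0 < LL := by rw [hLL]; norm_num
    obtain ⟨K, B, -, -, -, -, hadd, -, -⟩ := flow_facts hLLpos h.smooth h.per h.flow
    obtain ⟨η, hη0, hη⟩ := y_flow y
    obtain ⟨z1, hz1⟩ : ∃ z1, z1 = tick cc cx (tyj 5) (pj 5) (rh.ρ y) z := ⟨_, rfl⟩
    have hb : ∀ i, |z1 i| ≤ LL / 4 := by
      intro i; rw [hz1]; exact Z09_tick cc cx _ _ _ z hS hR i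
    refine ⟨η 1, ?_⟩
    have hTn1 : Th (n + 1) = ((q : ℤ) : ℝ) * LL + LL := by
      unfold Th
      have e1 : (n + 1) / 6 = q + 1 := by omega
      have e2 : (n + 1) % 6 = 0 := by omega
      rw [e1, e2]; push_cast; ring
    have e3 : Th (n + 1) - Th n = (LL - 97) + (1 + 16) := by
      rw [hTn1, hTn]; push_cast; ring
    rw [e3, hadd, hadd, hTn, hsf, hty, hpj, ← hz1]
    have hslot := h.slot ⟨96, by norm_num⟩ (q : ℤ) (fun _ => z1) η (by
      intro u _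
      refine ⟨?_, hb⟩
      have e4 : YY cc cx rh ⟨96, by norm_num⟩ (z1, η u) = (0, psi (η u)) := by
        unfold YY
        rw [dif_neg (by norm_num)]
      rw [e4]
      exact (hasDerivAt_const u z1).prodMk (hη u))
    have e5 : ((q : ℤ) : ℝ) * LL + 16 * (((5 : ℕ) : ℝ) + 1) =
        ((q : ℤ) : ℝ) * LL + (((⟨96, by norm_num⟩ : Fin 97) : ℕ) : ℝ) := by
      push_cast; norm_num
    rw [e5, ← hη0, hslot]
    have e6 : ((q : ℤ) : ℝ) * LL + (((⟨96, by norm_num⟩ : Fin 97) : ℕ) : ℝ) + 1 =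
        ((q : ℤ) : ℝ) * LL + ((97 : ℕ) : ℝ) := by
      push_cast; ring
    rw [e6, h.idle (q : ℤ) z1 (η 1) (LL - 97) (by rw [hLL]; norm_num) (by push_cast; linarith), hTn1]
    congr 1
    push_cast; ring

end Pool.Agent.H385A
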