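import Mathlib
import Pool.Agent.H385Z.Defs
import Pool.Agent.Helper981.QA.P13
import Pool.Agent.Helper981.QA.P14
import Pool.Agent.H385Z.RMain
import Pool.Agent.H385Z.XRange
import Pool.Agent.H385Z.XTick
import Pool.Agent.H385Z.ZSec
import Pool.Agent.H385Z.Q17
import Pool.Agent.H385Z.Q18

/-!
MP_7d4c8f_an, discrete lower bound between exact states: lower_disc2
-/

set_option autoImplicit false

open Set Filter Topology MeasureTheory
open scoped ContDiff

namespace Pool.Agent.H385A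

open Pool.Agent.Aub
open Pool.Agent.QA (bN bN_tri bN_move bN_lat bN_omega hT_flow hT_concat hT_lat gen_flow)

theorem P19_repr (x : EE) : x = mkp (pz x) (py x) (pth x) := by
  ext i
  rcases i with i | i
  · simp [mkp, pz]
  · fin_cases i <;> simp [mkp, py, pth]

theorem P19_pz (z : Zs) (y θ : ℝ) : pz (mkp z y θ) = z := by
  ext i; simp [mkp, pz]

theorem P19_coord (x : EE) (i : Jx) : |x i| ≤ ‖x‖ := by
  have := PiLp.norm_apply_le x i
  simpa [Real.norm_eq_abs] using this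

theorem P19_tyj_succ (n : ℕ) : tyj (n + 1) = (tyj n).other := by
  unfold tyj
  rcases Nat.even_or_odd n with h | h
  · have h1 : n % 2 = 0 := Nat.even_iff.mp h
    have h2 : (n + 1) % 2 = 1 := by omega
    simp [h1, h2, Ty.other]
  · have h1 : n % 2 = 1 := Nat.odd_iff.mp h
    have h2 : (n + 1) % 2 = 0 := by omega
    simp [h1, h2, Ty.other]

theorem P19_pj_succ (n : ℕ) : pj (n + 1) = pj n + 1 := by
  unfold pj
  apply Fin.ext
  simp [Fin.ofNat, Fin.val_add]

theorem P19_Md (ty : Ty) (p : Fin 3) (ν : ℝ) (hν : 0 ≤ ν) (z z' : Stk)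
    (h : ∀ i tr, |z' i tr - z i tr| ≤ ν) : Md ty p ν 0 false z z' := by
  refine ⟨hν, fun i => h i 0, fun i => Or.inl (h i 1), by simp, fun _ _ => 0, by simp, by simp, ?_⟩
  intro i k
  unfold Cd
  refine ⟨fun _ => Or.inr (Or.inl ?_), fun h' => absurd h'.1 (by decide)⟩
  have := abs_le.mp (h i (dt k))
  have := le_max_left (z i (dt k)) 0
  linarith [this, (abs_le.mp (h i (dt k))).2]

theorem P19_core (cc : Clamp (5/4)) (cx : Clamp (mm + 1/2)) (rh : Rho) {F : EE → EE}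
    {φ : ℝ → EE → EE} (h : Realz 97 (YY cc cx rh) LL F φ) (l l' : List Cell) (hD : Dle l)
    (hD' : Dle l') (R R' : Fin 12 → ℝ)
    (hRR : ∀ k, |R k| ≤ 1/32) (J : ℕ)
    (hJ : 1 ≤ J) (P : ℕ → EE) (ν : ℕ → ℝ) (h0 : P 0 = pt l R 0)
    (hth : ∀ n ≤ J, pth (P n) = Th n)
    (hν : ∀ n < J, ‖P (n + 1) - φ (Th (n + 1) - Th n) (P n)‖ ≤ ν n ∧ ν n ≤ 1/32)
    (k : Jx → ℤ) (hJ1 : P J = pt l' R' 0 + lat LL k) (N : ℕ) :
    UU N true 1 Ty.E 0 (rl Ty.E 1 0 l') ≤ UU N false 1 Ty.E 0 (rl Ty.E 1 0 l) +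
      3072 * ∑ n ∈ Finset.range J, ν n ^ 2 + (J + 1) / MM ^ N := by
  set Z : ℕ → Zs := fun n => pz (P n) with hZ
  set T : ℕ → Zs := fun n => tick cc cx (tyj n) (pj n) (rh.ρ (py (P n))) (Z n) with hT
  have hZ0 : Z 0 = mkz (rl Ty.E 1 0 l) R := by
    simp only [hZ]; rw [h0]; unfold pt; rw [P19_pz]
  have hrl : ∀ l : List Cell, Dle l → ∀ i tr, |rl Ty.E 1 0 l i tr| ≤ 2 ^ 13 := by
    intro l hl i tr
    obtain ⟨h1, h2, -⟩ := rl_range l hl Ty.E 1 0 i tr
    rw [abs_of_nonneg h1]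
    refine h2.trans ?_
    norm_num [mm]
  have hst : ∀ i tr, |stk (Z 0) i tr| ≤ 2 ^ 13 := by
    intro i tr
    rw [hZ0]
    exact hrl l hD i tr
  have hrg : ∀ k, |reg (Z 0) k| ≤ 1/32 := by
    intro k
    rw [hZ0]
    exact hRR k
  -- one step
  have hstep : ∀ n < J, (∀ i tr, |stk (Z n) i tr| ≤ 2 ^ 32) → (∀ k, |reg (Z n) k| ≤ 1/16) →
      ∀ i, |Z (n + 1) i - T n i| ≤ ν n := by
    intro n hn hS hR i
    obtain ⟨y', hy'⟩ := section_flow cc cx rh h n (Z n) (py (P n)) hS hR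
    have hP : P n = mkp (Z n) (py (P n)) (Th n) := by
      have := P19_repr (P n)
      rw [hth n hn.le] at this
      exact this
    have h1 := (hν n hn).1
    rw [← hP] at hy'
    rw [hy'] at h1
    have h2 := P19_coord (P (n + 1) - mkp (tick cc cx (tyj n) (pj n) (rh.ρ (py (P n))) (Z n)) y'
      (Th (n + 1))) (Sum.inl i)
    have h3 : (P (n + 1) - mkp (tick cc cx (tyj n) (pj n) (rh.ρ (py (P n))) (Z n)) y'
      (Th (n + 1))) (Sum.inl i) = Z (n + 1) i - T n i := by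
      simp [hZ, hT, mkp, pz]
    rw [h3] at h2
    exact h2.trans h1
  have hνpos : ∀ n < J, 0 ≤ ν n := fun n hn => (norm_nonneg _).trans (hν n hn).1
  have hr0 : ∀ n, 0 ≤ rh.ρ (py (P n)) := fun n => rh.nonneg _
  have hr1 : ∀ n, rh.ρ (py (P n)) ≤ 1 := fun n => rh.le_one _
  -- invariants
  have hinv : ∀ n ≤ J, (∀ k, |reg (Z n) k| ≤ 1/16) ∧
      (∀ i tr, i ≠ pj n - 1 → |stk (Z n) i tr| ≤ 2 ^ 31 + 1/32) ∧
      (∀ i tr, |stk (Z n) i tr| ≤ 2 ^ 31 + 2/32) := by
    intro n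
    induction n with
    | zero =>
      intro _
      refine ⟨fun k => (hrg k).trans (by norm_num), fun i tr _ => (hst i tr).trans (by norm_num),
        fun i tr => (hst i tr).trans (by norm_num)⟩
    | succ n ih =>
      intro hn
      obtain ⟨hR, hS1, hS2⟩ := ih (by omega)
      have hS : ∀ i tr, |stk (Z n) i tr| ≤ 2 ^ 32 := fun i tr => (hS2 i tr).trans (by norm_num)
      have hs := hstep n (by omega) hS hR
      have hnn := (hν n (by omega)).2
      obtain ⟨htr, hti, htg⟩ := tick_rel cc cx (tyj n) (pj n) (rh.ρ (py (P n))) (hr0 n) (hr1 n)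
        (Z n) hS hR
      have hpp : pj (n + 1) - 1 = pj n := by rw [P19_pj_succ]; simp
      have key : ∀ i tr, i ≠ pj n → |stk (Z (n + 1)) i tr| ≤ 2 ^ 31 + 1/32 := by
        intro i tr hi
        have h1 := hti i tr hi
        have h2 := hs (Sum.inl (i, tr))
        have h3 : |stk (Z (n + 1)) i tr - stk (T n) i tr| ≤ ν n := h2
        have h4 := abs_sub_abs_le_abs_sub (stk (Z (n + 1)) i tr) (stk (T n) i tr)
        have h5 : |stk (T n) i tr| ≤ 2 ^ 31 := h1
        linarith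
      refine ⟨?_, ?_, ?_⟩
      · intro k
        have h1 := htg k
        have h3 : |reg (Z (n + 1)) k - reg (T n) k| ≤ ν n := hs (Sum.inr k)
        have h4 := abs_sub_abs_le_abs_sub (reg (Z (n + 1)) k) (reg (T n) k)
        have h5 : |reg (T n) k| ≤ 1/32 := h1
        linarith
      · intro i tr hi
        rw [hpp] at hi
        exact key i tr hi
      · intro i tr
        by_cases hi : i = pj n
        · have h1 := htr.1 tr
          have hne : pj n ≠ pj n - 1 := by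
            generalize pj n = q
            revert q; decide
          have h2 := hS1 (pj n) tr hne
          have h3 : |stk (Z (n + 1)) (pj n) tr - stk (T n) (pj n) tr| ≤ ν n :=
            hs (Sum.inl (pj n, tr))
          have h4 := abs_sub_abs_le_abs_sub (stk (Z (n + 1)) (pj n) tr) (stk (T n) (pj n) tr)
          have h5 : stk (T n) (pj n) tr = stk (Z n) (pj n) tr := h1
          rw [h5] at h4 h3
          rw [hi]
          linarith
        · have := key i tr hi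
          linarith
  have hS : ∀ n ≤ J, ∀ i tr, |stk (Z n) i tr| ≤ 2 ^ 32 :=
    fun n hn i tr => ((hinv n hn).2.2 i tr).trans (by norm_num)
  have hR : ∀ n ≤ J, ∀ k, |reg (Z n) k| ≤ 1/16 := fun n hn => (hinv n hn).1
  have hnoise : ∀ n < J, ∀ i tr, |stk (Z (n + 1)) i tr - stk (T n) i tr| ≤ ν n :=
    fun n hn i tr => hstep n hn (hS n hn.le) (hR n hn.le) (Sum.inl (i, tr))
  -- the generalised trajectory
  have hTr : ∀ n, n ≤ J → ∃ e ν' : ℝ, Tr 1 Ty.E 0 (rl Ty.E 1 0 l) (tyj n) (pj n)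
      (stk (Z n)) e ν' 0 0 n ∧ e + ν' ^ 2 = ∑ i ∈ Finset.range n, ν i ^ 2 := by
    intro n
    induction n with
    | zero =>
      intro _
      refine ⟨0, 0, ?_, by simp⟩
      have hb := Tr.base (δ := 1) (ty0 := Ty.E) (p0 := 0) (z0 := rl Ty.E 1 0 l) 0 0 false
        (stk (Z 0)) (P19_Md _ _ _ le_rfl _ _ (fun i tr => by
          rw [hZ0]
          show |rl Ty.E 1 0 l i tr - rl Ty.E 1 0 l i tr| ≤ 0
          simp))
      have e1 : tyj 0 = Ty.E := by simp [tyj]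
      have e2 : pj 0 = 0 := by rfl
      rw [e1, e2]
      simpa using hb
    | succ n ih =>
      intro h1
      obtain ⟨e, ν', h2, hsum⟩ := ih (by omega)
      have htr := (tick_rel cc cx (tyj n) (pj n) (rh.ρ (py (P n)))
        (hr0 _) (hr1 _) (Z n) (hS _ (by omega)) (hR _ (by omega))).1
      have h3 := Tr.step _ _ _ _ _ _ _ _ h2 (stk (T n)) (stk (Z (n + 1))) htr
        (ν n) 0 false (P19_Md _ _ _ (hνpos n (by omega)) _ _
          (hnoise n (by omega)))
      refine ⟨e + ν' ^ 2, ν n, ?_, ?_⟩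
      · rw [P19_tyj_succ n, P19_pj_succ n]
        simpa using h3
      · rw [Finset.sum_range_succ, hsum]
  -- the end
  have hthJ : Th J = LL * (k (Sum.inr 1) : ℝ) := by
    rw [← hth J le_rfl, hJ1]
    simp [pt, pth, mkp, lat]
  have hJ6 : J % 6 = 0 := by
    unfold Th LL at hthJ
    have h1 : (((J / 6 : ℕ) : ℤ) : ℝ) * 2 ^ 40 + 16 * (((J % 6 : ℕ) : ℤ) : ℝ)
        = 2 ^ 40 * (k (Sum.inr 1) : ℝ) := by
      push_cast at hthJ ⊢
      exact hthJ
    have h2 : ((J / 6 : ℕ) : ℤ) * 2 ^ 40 + 16 * ((J % 6 : ℕ) : ℤ) = 2 ^ 40 * k (Sum.inr 1) := by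
      exact_mod_cast h1
    have h3 : J % 6 < 6 := Nat.mod_lt _ (by norm_num)
    omega
  have htyJ : tyj J = Ty.E := by
    unfold tyj
    rw [if_pos (by omega)]
  have hpJ : pj J = 0 := by
    unfold pj
    apply Fin.ext
    simp [Fin.ofNat]
    omega
  have hzJ : stk (Z J) = rl Ty.E 1 0 l' := by
    funext i tr
    have h1 : stk (Z J) i tr = rl Ty.E 1 0 l' i tr +
        LL * (k (Sum.inl (Sum.inl (i, tr))) : ℝ) := by
      simp only [hZ]
      rw [hJ1]
      simp [stk, pz, pt, mkz, mkp, lat]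
    have h2 := abs_le.mp (hS J le_rfl i tr)
    have h3 := abs_le.mp (hrl l' hD' i tr)
    have h4 : k (Sum.inl (Sum.inl (i, tr))) = 0 := by
      rw [h1] at h2
      unfold LL at h2
      have h5 : (k (Sum.inl (Sum.inl (i, tr))) : ℝ) < 1 := by nlinarith [h2.2, h3.1]
      have h6 : (-1 : ℝ) < (k (Sum.inl (Sum.inl (i, tr))) : ℝ) := by nlinarith [h2.1, h3.2]
      have h7 : k (Sum.inl (Sum.inl (i, tr))) < 1 := by exact_mod_cast h5
      have h8 : -1 < k (Sum.inl (Sum.inl (i, tr))) := by exact_mod_cast h6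
      omega
    rw [h1, h4]
    simp
  obtain ⟨e, ν', h2, hsum⟩ := hTr J le_rfl
  have h1 := main_ineq N 1 (by decide) _ _ _ _ _ _ _ _ _ _ _ h2
  rw [htyJ, hpJ, hzJ, hsum] at h1
  push_cast at h1
  linarith



theorem lower_disc2 (cc : Clamp (5/4)) (cx : Clamp (mm + 1/2)) (rh : Rho) {F : EE → EE}
    {φ : ℝ → EE → EE} (h : Realz 97 (YY cc cx rh) LL F φ) (l l' : List Cell) (hD : Dle l)
    (hD' : Dle l') (hv : Val Ty.E l) (hv' : Val Ty.E l') (R R' : Fin 12 → ℝ)
    (hR : ∀ k, |R k| ≤ 1/32) (J : ℕ)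
    (hJ : 1 ≤ J) (P : ℕ → EE) (ν : ℕ → ℝ) (h0 : P 0 = pt l R 0)
    (hth : ∀ n ≤ J, pth (P n) = Th n)
    (hν : ∀ n < J, ‖P (n + 1) - φ (Th (n + 1) - Th n) (P n)‖ ≤ ν n ∧
      ν n ≤ 1/32)
    (k : Jx → ℤ) (hJ1 : P J = pt l' R' 0 + lat LL k) (N : ℕ) :
    vN N l' ≤ vN N l + 3072 * ∑ n ∈ Finset.range J, ν n ^ 2 + (J + 1) / MM ^ N := by
  have h1 := P19_core cc cx rh h l l' hD hD' R R' hR J hJ P ν h0 hth hν k hJ1 N
  rw [UU_exact N true 1 (by decide) Ty.E 0 l' hD' hv',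
    UU_exact N false 1 (by decide) Ty.E 0 l hD hv] at h1
  exact h1

end Pool.Agent.H385A
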