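import Mathlib
import Pool.Agent.H385Z.Defs
import Pool.Agent.Helper981.QA.P13
import Pool.Agent.Helper981.QA.P14
import Pool.Agent.Helper961.Aub.ZFlow
import Pool.Agent.Helper961.Aub.ZLoop
import Pool.Agent.Helper961.Aub.ZSamp
import Pool.Agent.H385Z.Q18
import Pool.Agent.H385Z.Q19

/-!
MP_7d4c8f_an, lower bound for the action between exact states: lower2
-/

set_option autoImplicit false

open Set Filter Topology MeasureTheory
open scoped ContDiff

namespace Pool.Agent.H385A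

open Pool.Agent.Aub
open Pool.Agent.QA (bN bN_tri bN_move bN_lat bN_omega hT_flow hT_concat hT_lat gen_flow)


theorem P20_LL : LL = 1099511627776 := by norm_num [LL]

theorem P20_Th (n : ℕ) : 1 ≤ Th (n + 1) - Th n ∧
    Th (n + 1) - Th n ≤ LL := by
  unfold Th
  have h6 : n % 6 < 6 := Nat.mod_lt _ (by norm_num)
  rcases Nat.lt_or_ge (n % 6) 5 with h | h
  · have h1 : (n + 1) / 6 = n / 6 := by omega
    have h2 : (n + 1) % 6 = n % 6 + 1 := by omega
    rw [h1, h2, Nat.cast_add, Nat.cast_one, P20_LL]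
    constructor <;> linarith
  · have h0 : n % 6 = 5 := by omega
    have h1 : (n + 1) / 6 = n / 6 + 1 := by omega
    have h2 : (n + 1) % 6 = 0 := by omega
    rw [h0, h1, h2, Nat.cast_add, Nat.cast_one, P20_LL]
    norm_num
    constructor <;> linarith

theorem P20_Th6 (m : ℕ) : Th (6 * m) = LL * m := by
  unfold Th
  have h1 : 6 * m / 6 = m := by omega
  have h2 : 6 * m % 6 = 0 := by omega
  rw [h1, h2]
  push_cast
  ring

theorem lower2 (cc : Clamp (5/4)) (cx : Clamp (mm + 1/2)) (rh : Rho) {F : EE → EE}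
    {φ : ℝ → EE → EE} (h : Realz 97 (YY cc cx rh) LL F φ) :
    ∃ C : ℝ, 0 < C ∧ ∀ (l l' : List Cell), Dle l → Dle l' → Val Ty.E l → Val Ty.E l' →
      ∀ (R R' : Fin 12 → ℝ), (∀ k, |R k| ≤ 1/32) → ∀ (T : ℝ), 1 ≤ T →
      ENNReal.ofReal (val l' - val l) ≤ ENNReal.ofReal C * hT LL F T (pt l R 0) (pt l' R' 0) := by
  have hLL : (0:ℝ) < LL := by rw [P20_LL]; norm_num
  obtain ⟨K, B, hK0, hB0, hK, hB, -, -, -⟩ := flow_facts hLL h.smooth h.per h.flow
  obtain ⟨C1, A0, hC1, hA0, hsamp⟩ := sampling F φ K B hK0 hB0 hK hB h.theta h.flow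
    Th LL P20_Th
  obtain ⟨c, hc0, hc1, hc2, hc3⟩ : ∃ c : ℝ, 0 < c ∧ c ≤ A0 ∧ c ≤ 1 / 8 ∧ C1 * c ≤ 1 / 1024 := by
    refine ⟨min A0 (min (1 / 8) (1 / (1024 * C1))), ?_,
      min_le_left _ _, (min_le_right _ _).trans (min_le_left _ _), ?_⟩
    · exact lt_min hA0 (lt_min (by norm_num) (by positivity))
    · calc C1 * min A0 (min (1 / 8) (1 / (1024 * C1)))
          ≤ C1 * (1 / (1024 * C1)) := mul_le_mul_of_nonneg_left
            ((min_le_right _ _).trans (min_le_right _ _)) hC1.le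
        _ = 1 / 1024 := by field_simp
  have hCpos : 0 < 3072 * C1 + 2 / c := by positivity
  refine ⟨3072 * C1 + 2 / c, hCpos, ?_⟩
  intro l l' hD hD' hv hv' R R' hR T hT1
  set C : ℝ := 3072 * C1 + 2 / c with hCdef
  set d : ℝ := val l' - val l with hd
  have hd2 : d ≤ 2 := by
    have h1 := (val_range l' hD').2
    have h2 := (val_range l hD).1
    rw [hd]; linarith
  have hCc : 2 / C ≤ c := by
    rw [div_le_iff₀ hCpos]
    have : c * C = 3072 * C1 * c + 2 := by
      rw [hCdef]; field_simp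
    rw [this]
    have : 0 < 3072 * C1 * c := by positivity
    linarith
  suffices hmain : ENNReal.ofReal (d / C) ≤ hT LL F T (pt l R 0) (pt l' R' 0) by
    calc ENNReal.ofReal d = ENNReal.ofReal C * ENNReal.ofReal (d / C) := by
          rw [← ENNReal.ofReal_mul hCpos.le]
          congr 1
          field_simp
      _ ≤ _ := mul_le_mul_right hmain _
  unfold hT
  refine le_iInf fun γ => le_iInf fun v => le_iInf fun hcur => le_iInf fun hγ0 => le_iInf fun hγT => ?_
  obtain ⟨k, hγT⟩ := hγT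
  by_contra hcon
  push Not at hcon
  have hfin : action F γ v T ≠ ⊤ := ne_top_of_lt hcon
  obtain ⟨A, hAdef⟩ : ∃ A, A = (action F γ v T).toReal := ⟨_, rfl⟩
  have hA : action F γ v T = ENNReal.ofReal A := by
    rw [hAdef, ENNReal.ofReal_toReal hfin]
  have hAn : 0 ≤ A := by rw [hAdef]; exact ENNReal.toReal_nonneg
  have hAd : A < d / C := by
    rw [hA] at hcon
    exact (ENNReal.ofReal_lt_ofReal_iff_of_nonneg hAn).1 hcon
  have hAc : A < c := by
    have : d / C ≤ 2 / C := div_le_div_of_nonneg_right hd2 hCpos.le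
    linarith
  have hx1 : (pt l R 0) (Sum.inr 1) = 0 := rfl
  have hx2 : (pt l' R' 0) (Sum.inr 1) = 0 := rfl
  have hpos := loop_theta F h.theta T A hT1 γ v hcur h.smooth.continuous hA.le
    (by linarith)
  have hγT1 : γ T (Sum.inr 1) = LL * (k (Sum.inr 1) : ℝ) := by
    rw [hγT]
    show (pt l' R' 0) (Sum.inr 1) + LL * (k (Sum.inr 1) : ℝ) = _
    rw [hx2, zero_add]
  rw [hγ0, hx1, hγT1, sub_zero] at hpos
  have hkpos : (0:ℝ) < (k (Sum.inr 1) : ℝ) := by
    by_contra hneg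
    push Not at hneg
    have := mul_nonpos_of_nonneg_of_nonpos hLL.le hneg
    linarith
  have hkpos' : 0 < k (Sum.inr 1) := by exact_mod_cast hkpos
  obtain ⟨m, hm⟩ : ∃ m : ℕ, k (Sum.inr 1) = (m : ℤ) := ⟨(k (Sum.inr 1)).toNat, by omega⟩
  have hm1 : 1 ≤ m := by omega
  have hγT2 : γ T (Sum.inr 1) = Th (6 * m) := by
    rw [hγT1, hm, P20_Th6]
    norm_cast
  obtain ⟨P, a, hP0, hPJ, hPth, hPa, ha0, hasum⟩ := hsamp T γ v (6 * m) A (by linarith) (by omega)
    hcur (by
      rw [hγ0, hx1]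
      have := P20_Th6 0
      simpa using this.symm) hγT2 hA.le hAn (by linarith)
  have haA : ∀ n < 6 * m, a n ≤ A := fun n hn =>
    (Finset.single_le_sum (fun i _ => ha0 i) (Finset.mem_range.2 hn)).trans hasum
  have hlow : ∀ N, vN N l' ≤ vN N l
      + 3072 * ∑ n ∈ Finset.range (6 * m), (Real.sqrt (C1 * a n)) ^ 2
      + (((6 * m : ℕ) : ℝ) + 1) / MM ^ N := fun N =>
    lower_disc2 cc cx rh h l l' hD hD' hv hv' R R' hR (6 * m) (by omega) P
      (fun n => Real.sqrt (C1 * a n))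
      (hP0.trans hγ0) (fun n hn => hPth n hn) (fun n hn => by
        refine ⟨Real.le_sqrt_of_sq_le (hPa n hn), ?_⟩
        rw [Real.sqrt_le_left (by norm_num)]
        have h1 : C1 * a n ≤ C1 * c := mul_le_mul_of_nonneg_left ((haA n hn).trans hAc.le) hC1.le
        norm_num
        linarith) k (hPJ.trans hγT) N
  have hsq : ∑ n ∈ Finset.range (6 * m), (Real.sqrt (C1 * a n)) ^ 2 ≤ C1 * A := by
    have : ∀ n ∈ Finset.range (6 * m), (Real.sqrt (C1 * a n)) ^ 2 = C1 * a n := fun n _ =>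
      Real.sq_sqrt (mul_nonneg hC1.le (ha0 n))
    rw [Finset.sum_congr rfl this, ← Finset.mul_sum]
    exact mul_le_mul_of_nonneg_left hasum hC1.le
  have hMM : (1:ℝ) < MM := by
    unfold MM
    norm_num
  have hbd : ∀ N : ℕ, val l' - val l - 3072 * (C1 * A) ≤ ((6 * m : ℕ) + 5 : ℝ) / MM ^ N := by
    intro N
    have h1 := abs_le.1 (vN_val N l hD)
    have h2 := abs_le.1 (vN_val N l' hD')
    have h3 := hlow N
    have h4 : ((6 * m : ℕ) + 5 : ℝ) / MM ^ N
        = (((6 * m : ℕ) : ℝ) + 1) / MM ^ N + 2 / MM ^ N + 2 / MM ^ N := by ring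
    rw [h4]
    linarith [h1.1, h1.2, h2.1, h2.2]
  have hlim : Tendsto (fun N : ℕ => ((6 * m : ℕ) + 5 : ℝ) / MM ^ N) atTop (𝓝 0) :=
    (tendsto_pow_atTop_atTop_of_one_lt hMM).const_div_atTop _
  have hfinal : val l' - val l - 3072 * (C1 * A) ≤ 0 := ge_of_tendsto' hlim hbd
  have h5 : A * C < d := (lt_div_iff₀ hCpos).1 hAd
  have h6 : A * C = 3072 * (C1 * A) + A * (2 / c) := by rw [hCdef]; ring
  have h7 : 0 ≤ A * (2 / c) := by positivity
  rw [h6] at h5
  linarith

end Pool.Agent.H385A
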