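import Mathlib
import Pool.Agent.H385Z.Defs

set_option autoImplicit false

open Set Filter Topology

namespace Pool.Agent.H385A

open Pool.Agent.Aub

/-- first `N` bits -/
def X09_bv : ℕ → List Cell → List Bool
  | 0, _ => []
  | N + 1, l => (hd l).b :: X09_bv N l.tail

/-- step on bits -/
def X09_bst : Ty → List Bool → List Bool
  | _, [] => []
  | Ty.E, x :: v => (!x) :: v
  | Ty.F, x :: v => x :: X09_bst (sT Ty.F x) v

/-- run on bits -/
def X09_brun : ℕ → Ty → List Bool → List Bool
  | 0, _, v => v
  | n + 1, ty, v => X09_brun n ty.other (X09_bst ty v)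

theorem X09_bv_adj (N : ℕ) (a0 : Cell) (l : List Cell) :
    X09_bv N (adj a0 l) = X09_bv N l := by
  cases N with
  | zero => rfl
  | succ N =>
    cases l with
    | nil => rfl
    | cons a tl => rfl

theorem X09_bv_st (N : ℕ) : ∀ (ty : Ty) (r : Bool) (l : List Cell),
    X09_bv N (st ty r l) = X09_bst ty (X09_bv N l) := by
  induction N with
  | zero => intro ty r l; cases ty <;> rfl
  | succ N ih =>
    intro ty r l
    cases ty with
    | E =>
      cases l with
      | nil => rfl
      | cons a tl =>
        show (!a.b) :: X09_bv N (adj a tl) = (!a.b) :: X09_bv N tl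
        rw [X09_bv_adj]
    | F =>
      cases l with
      | nil =>
        have h := ih Ty.E false []
        show false :: X09_bv N (st Ty.E false []) = false :: X09_bst Ty.E (X09_bv N [])
        rw [h]
      | cons a tl =>
        show a.b :: X09_bv N (if a.b then stF tl else stE false tl) =
          a.b :: X09_bst (sT Ty.F a.b) (X09_bv N tl)
        cases hb : a.b with
        | true =>
          have h := ih Ty.F false tl
          have h' : X09_bv N (stF tl) = X09_bst Ty.F (X09_bv N tl) := h
          simp only [if_true, h']
          rfl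
        | false =>
          have h := ih Ty.E false tl
          have h' : X09_bv N (stE false tl) = X09_bst Ty.E (X09_bv N tl) := h
          simp only [Bool.false_eq_true, if_false, h']
          rfl

theorem X09_bv_run (N : ℕ) : ∀ (n : ℕ) (r : ℕ → Bool) (ty : Ty) (l : List Cell),
    X09_bv N (run n r ty l) = X09_brun n ty (X09_bv N l) := by
  intro n
  induction n with
  | zero => intro r ty l; rfl
  | succ n ih =>
    intro r ty l
    show X09_bv N (run n (fun k => r (k + 1)) ty.other (st ty (r 0) l)) =
      X09_brun n ty.other (X09_bst ty (X09_bv N l))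
    rw [ih, X09_bv_st]

theorem X09_base_iff (N : ℕ) : ∀ l : List Cell, base N l ↔ X09_bv N l = List.replicate N false := by
  induction N with
  | zero => intro l; simp [base, X09_bv]
  | succ N ih =>
    intro l
    simp [base, X09_bv, List.replicate_succ, ih]

theorem X09_brun_nil : ∀ (n : ℕ) (ty : Ty), X09_brun n ty [] = [] := by
  intro n
  induction n with
  | zero => intro ty; rfl
  | succ n ih =>
    intro ty
    show X09_brun n ty.other (X09_bst ty []) = []
    have : X09_bst ty [] = [] := by cases ty <;> rfl
    rw [this, ih]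

theorem X09_two_E : ∀ (m : ℕ) (x : Bool) (v : List Bool),
    X09_brun (2 * m) Ty.E (x :: v) = (if m % 2 = 0 then x else !x) ::
      X09_brun m (if x then Ty.E else Ty.F) v := by
  intro m
  induction m with
  | zero => intro x v; rfl
  | succ m ih =>
    intro x v
    have h2 : 2 * (m + 1) = (2 * m + 1) + 1 := by ring
    rw [h2]
    show X09_brun (2 * m) Ty.E ((!x) :: X09_bst (sT Ty.F (!x)) v) = _
    rw [ih]
    cases x with
    | true =>
      show _ = _ :: X09_brun m Ty.F (X09_bst Ty.E v)
      rcases Nat.mod_two_eq_zero_or_one m with h | h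
      · have h' : (m + 1) % 2 = 1 := by omega
        simp [h, h', sT]
      · have h' : (m + 1) % 2 = 0 := by omega
        simp [h, h', sT]
    | false =>
      show _ = _ :: X09_brun m Ty.E (X09_bst Ty.F v)
      rcases Nat.mod_two_eq_zero_or_one m with h | h
      · have h' : (m + 1) % 2 = 1 := by omega
        simp [h, h', sT]
      · have h' : (m + 1) % 2 = 0 := by omega
        simp [h, h', sT]

theorem X09_two_F : ∀ (m : ℕ) (x : Bool) (v : List Bool),
    X09_brun (2 * m) Ty.F (x :: v) = (if m % 2 = 0 then x else !x) ::
      X09_brun m (if x then Ty.F else Ty.E) v := by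
  intro m
  induction m with
  | zero => intro x v; rfl
  | succ m ih =>
    intro x v
    have h2 : 2 * (m + 1) = (2 * m + 1) + 1 := by ring
    rw [h2]
    show X09_brun (2 * m) Ty.F ((!x) :: X09_bst (sT Ty.F x) v) = _
    rw [ih]
    cases x with
    | true =>
      show _ = _ :: X09_brun m Ty.E (X09_bst Ty.F v)
      rcases Nat.mod_two_eq_zero_or_one m with h | h
      · have h' : (m + 1) % 2 = 1 := by omega
        simp [h, h', sT]
      · have h' : (m + 1) % 2 = 0 := by omega
        simp [h, h', sT]
    | false =>
      show _ = _ :: X09_brun m Ty.F (X09_bst Ty.E v)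
      rcases Nat.mod_two_eq_zero_or_one m with h | h
      · have h' : (m + 1) % 2 = 1 := by omega
        simp [h, h', sT]
      · have h' : (m + 1) % 2 = 0 := by omega
        simp [h, h', sT]

theorem X09_period : ∀ (v : List Bool) (ty : Ty), X09_brun (2 ^ (v.length + 1)) ty v = v := by
  intro v
  induction v with
  | nil => intro ty; exact X09_brun_nil _ _
  | cons x v ih =>
    intro ty
    have h2 : 2 ^ ((x :: v).length + 1) = 2 * 2 ^ (v.length + 1) := by
      simp only [List.length_cons]
      ring
    have h0 : 2 ^ (v.length + 1) % 2 = 0 := by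
      rw [pow_succ]; omega
    rw [h2]
    cases ty with
    | E => rw [X09_two_E, ih, if_pos h0]
    | F => rw [X09_two_F, ih, if_pos h0]

theorem X09_brun_add : ∀ (a b : ℕ) (ty : Ty) (v : List Bool),
    X09_brun (2 * a + b) ty v = X09_brun b ty (X09_brun (2 * a) ty v) := by
  intro a
  induction a with
  | zero => intro b ty v; simp [X09_brun]
  | succ a ih =>
    intro b ty v
    have h1 : 2 * (a + 1) + b = (2 * a + b + 1) + 1 := by ring
    have h2 : 2 * (a + 1) = (2 * a + 1) + 1 := by ring
    rw [h1, h2]
    have h3 : ty.other.other = ty := by cases ty <;> rfl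
    show X09_brun (2 * a + b) ty.other.other (X09_bst ty.other (X09_bst ty v)) =
      X09_brun b ty (X09_brun (2 * a) ty.other.other (X09_bst ty.other (X09_bst ty v)))
    rw [h3, ih]

theorem X09_period_mul (v : List Bool) (ty : Ty) : ∀ k : ℕ,
    X09_brun (2 ^ (v.length + 1) * k) ty v = v := by
  intro k
  induction k with
  | zero => rfl
  | succ k ih =>
    have h1 : 2 ^ (v.length + 1) * (k + 1) = 2 * 2 ^ v.length + 2 ^ (v.length + 1) * k := by
      rw [pow_succ]; ring
    have h2 : 2 * 2 ^ v.length = 2 ^ (v.length + 1) := by rw [pow_succ]; ring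
    rw [h1, X09_brun_add, h2, X09_period, ih]

/-- TARGET -/
theorem run_base (N : ℕ) : ∀ (r : ℕ → Bool) (ty : Ty) (l : List Cell) (k : ℕ), base N l →
    base N (run (2 ^ (N + 1) * k) r ty l) := by
  intro r ty l k h
  rw [X09_base_iff] at h ⊢
  rw [X09_bv_run, h]
  have := X09_period_mul (List.replicate N false) ty k
  rwa [List.length_replicate] at this

end Pool.Agent.H385A
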