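import Mathlib
import Pool.Agent.H385Z.Defs
import Pool.Agent.H385Z.XBase
import Pool.Agent.H385Z.ZPer
import Pool.Agent.H385Z.Q18

/-!
MP_7d4c8f_an, symbolic dynamics: propagation of a carry or of a borrow
-/

set_option autoImplicit false

open Set Filter Topology

namespace Pool.Agent.H385A

open Pool.Agent.Aub

/-- digit sequences -/
abbrev DS := ℕ → Fin 3 → ℕ

/-- cell number `i` -/
def cl (l : List Cell) (i : ℕ) : Cell := hd (l.drop i)

/-- the digits of a configuration -/
def dg (l : List Cell) : DS := fun i => (cl l i).D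

def consd (x : Fin 3 → ℕ) (d : DS) : DS
  | 0 => x
  | i + 1 => d i

def shf (d : DS) : DS := fun i => d (i + 1)

def gdn (x : ℕ) : Prop := 1 ≤ x ∧ x ≤ BB

def gd (D : Fin 3 → ℕ) : Prop := ∀ k, gdn (D k)

def tk (D : Fin 3 → ℕ) : Prop := D 0 ≤ mm ∧ gdn (D 1) ∧ gdn (D 2)

/-- all cells are good except possibly the first digit of cell `N` -/
def One (N : ℕ) (d : DS) : Prop := (∀ i, i ≠ N → gd (d i)) ∧ tk (d N)

/-- exchange between the first two cells -/
def comb (d : DS) : DS :=
  consd (carry (d 0) (hi (d 0 2) (d 1 0)))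
    (consd (Function.update (d 1) 0 (lo (d 0 2) (d 1 0))) (shf (shf d)))

/-- normal form -/
def NF : ℕ → DS → DS
  | 0, d => d
  | N + 1, d => comb (consd (d 0) (NF N (shf d)))

/-- run without reset -/
def rn (n : ℕ) (ty : Ty) (l : List Cell) : List Cell := run n (fun _ => false) ty l

theorem cl_succ (l : List Cell) (i : ℕ) : cl l (i + 1) = cl l.tail i := by
  cases l with
  | nil => simp [cl]
  | cons a t => rfl

theorem cl_zero (l : List Cell) : cl l 0 = hd l := rfl

theorem dg_cons (a : Cell) (tl : List Cell) : dg (a :: tl) = consd a.D (dg tl) := by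
  funext i
  cases i with
  | zero => rfl
  | succ i => rfl

theorem dg_eta (l : List Cell) : dg l = consd (hd l).D (dg l.tail) := by
  funext i
  cases i with
  | zero => rfl
  | succ i =>
    show (cl l (i + 1)).D = (cl l.tail i).D
    rw [cl_succ]

theorem shf_consd (x : Fin 3 → ℕ) (d : DS) : shf (consd x d) = d := rfl

theorem consd_shf (d : DS) : consd (d 0) (shf d) = d := by
  funext i
  cases i with
  | zero => rfl
  | succ i => rfl

theorem shf_dg (l : List Cell) : shf (dg l) = dg l.tail := by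
  rw [dg_eta, shf_consd]

theorem st_eta (ty : Ty) (l : List Cell) : st ty false l = st ty false (hd l :: l.tail) := by
  cases l with
  | nil => cases ty <;> rfl
  | cons a t => rfl

theorem gd_tk {D : Fin 3 → ℕ} (h : gd D) : tk D := by
  refine ⟨?_, h 1, h 2⟩
  have := (h 0).2
  unfold BB at this
  unfold mm
  omega

theorem hi_gd (a : ℕ) {b : ℕ} (hb : gdn b) : hi a b = a := by
  obtain ⟨h1, h2⟩ := hb
  unfold hi cb bb
  unfold BB at h2
  unfold mm
  rw [if_neg (by omega), if_neg (by omega)]
  rfl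

theorem lo_gd (a : ℕ) {b : ℕ} (hb : gdn b) : lo a b = b := by
  obtain ⟨h1, h2⟩ := hb
  unfold lo cb bb
  unfold BB at h2
  unfold mm
  rw [if_neg (by omega), if_neg (by omega)]
  simp

theorem lo_good {a b : ℕ} (ha : gdn a) (hb : b ≤ mm) : gdn (lo a b) := by
  obtain ⟨h1, h2⟩ := ha
  unfold gdn lo cb bb
  unfold BB at *
  unfold mm at *
  split_ifs <;> omega

theorem hilo (a b : ℕ) : BB * hi a b + lo a b = BB * a + b := by
  unfold hi lo cb bb BB mm
  split_ifs <;> omega

theorem carry_tk {D : Fin 3 → ℕ} (h : tk D) : carry D (D 2) = D := by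
  unfold carry
  rw [hi_gd _ h.2.2, hi_gd _ h.2.1, lo_gd _ h.2.1, lo_gd _ h.2.2]
  funext k
  fin_cases k <;> rfl

theorem carry_gd {D : Fin 3 → ℕ} (h : gd D) {x : ℕ} (hx : x ≤ mm) : tk (carry D x) := by
  have h0 := (gd_tk h).1
  have h1 : D 1 ≤ mm := by
    have := (h 1).2
    unfold BB at this
    unfold mm
    omega
  exact ⟨X07_hi _ h0, lo_good (h 0) (X07_hi _ h1), lo_good (h 1) hx⟩

theorem dg_adj (a : Cell) (tl : List Cell) :
    dg (adj a tl) = consd (Function.update (hd tl).D 0 (ny a (hd tl))) (dg tl.tail) := by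
  cases tl with
  | nil =>
    have e1 : ny a (hd []) = (hd []).D 0 := by
      unfold ny
      split_ifs
      · rfl
      · exact lo_gd _ ⟨le_rfl, by show 1 ≤ 4095; norm_num⟩
    rw [e1, Function.update_eq_self]
    exact dg_eta []
  | cons e t => exact dg_cons _ _

theorem dg_stE (l : List Cell) : dg (st Ty.E false l) =
    if (hd l).b then consd (carry (dg l 0) (dg l 0 2)) (shf (dg l)) else comb (dg l) := by
  rw [st_eta]
  show dg (newc false (hd l) (hd l.tail) :: adj (hd l) l.tail) = _
  rw [dg_cons, dg_adj]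
  have e0 : dg l 0 = (hd l).D := rfl
  have e1 : dg l 1 = (hd l.tail).D := by
    show (cl l (0 + 1)).D = _
    rw [cl_succ]
    rfl
  cases hb : (hd l).b with
  | true =>
    rw [if_pos rfl, e0, shf_dg]
    have e2 : ny (hd l) (hd l.tail) = (hd l.tail).D 0 := by simp [ny, hb]
    have e3 : nx (hd l) (hd l.tail) = (hd l).D 2 := by simp [nx, hb]
    rw [e2, Function.update_eq_self, ← dg_eta]
    show consd (carry (hd l).D (nx (hd l) (hd l.tail))) _ = _
    rw [e3]
  | false =>
    rw [if_neg (by simp)]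
    unfold comb
    rw [e0, e1, shf_dg, shf_dg]
    have e2 : ny (hd l) (hd l.tail) = lo ((hd l).D 2) ((hd l.tail).D 0) := by simp [ny, hb]
    have e3 : nx (hd l) (hd l.tail) = hi ((hd l).D 2) ((hd l.tail).D 0) := by simp [nx, hb]
    rw [e2]
    show consd (carry (hd l).D (nx (hd l) (hd l.tail))) _ = _
    rw [e3]

theorem st_F (a : Cell) (tl : List Cell) :
    st Ty.F false (a :: tl) = a :: st (sT Ty.F a.b) false tl := by
  show a :: (if a.b then stF tl else stE false tl) = _
  cases a.b <;> rfl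

theorem comb_fix {d : DS} (h0 : tk (d 0)) (h1 : gdn (d 1 0)) : comb d = d := by
  unfold comb
  rw [hi_gd _ h1, lo_gd _ h1, carry_tk h0, Function.update_eq_self]
  funext i
  rcases i with _ | _ | i <;> rfl

theorem stE_fix (l : List Cell) (h0 : tk (dg l 0)) (h1 : gdn (dg l 1 0)) :
    dg (st Ty.E false l) = dg l := by
  rw [dg_stE]
  split_ifs
  · rw [carry_tk h0, consd_shf]
  · exact comb_fix h0 h1

theorem One_shf {N : ℕ} {d : DS} (h : One (N + 1) d) : One N (shf d) :=
  ⟨fun i hi => h.1 (i + 1) (by omega), h.2⟩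

theorem One_shf0 {d : DS} (h : One 0 d) : One 0 (shf d) :=
  ⟨fun i _ => h.1 (i + 1) (by omega), gd_tk (h.1 1 (by omega))⟩

theorem One_consd {N : ℕ} {x : Fin 3 → ℕ} {d : DS} (hx : gd x) (h : One N d) :
    One (N + 1) (consd x d) := by
  refine ⟨fun i hi => ?_, h.2⟩
  cases i with
  | zero => exact hx
  | succ i => exact h.1 i (by omega)

theorem One_comb {d : DS} (h : One 1 d) : One 0 (comb d) := by
  have h0 : gd (d 0) := h.1 0 (by omega)
  have h2 : d 0 2 ≤ mm := by
    have := (h0 2).2
    unfold BB at this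
    unfold mm
    omega
  refine ⟨fun i hi => ?_, carry_gd h0 (X07_hi _ h2)⟩
  rcases i with _ | _ | i
  · exact absurd rfl hi
  · intro k
    show gdn (Function.update (d 1) 0 (lo (d 0 2) (d 1 0)) k)
    fin_cases k
    · exact lo_good (h0 2) h.2.1
    · exact h.2.2.1
    · exact h.2.2.2
  · exact h.1 (i + 2) (by omega)

theorem One_NF : ∀ (N : ℕ) (d : DS), One N d → One 0 (NF N d)
  | 0, _, h => h
  | N + 1, d, h => One_comb (One_consd (h.1 0 (by omega)) (One_NF N _ (One_shf h)))

theorem st_static (l : List Cell) : ∀ ty : Ty, One 0 (dg l) → dg (st ty false l) = dg l := by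
  induction l with
  | nil =>
    intro ty h
    have hE := stE_fix [] h.2 (h.1 1 (by omega) 0)
    cases ty with
    | E => exact hE
    | F =>
      show dg (zc :: st Ty.E false []) = _
      rw [dg_cons, hE]
      exact (dg_eta []).symm
  | cons a tl ih =>
    intro ty h
    cases ty with
    | E => exact stE_fix _ h.2 (h.1 1 (by omega) 0)
    | F =>
      have h1 : One 0 (dg tl) := One_shf0 h
      rw [st_F, dg_cons, ih _ h1, dg_cons]

theorem rn_succ (n : ℕ) (ty : Ty) (l : List Cell) :
    rn (n + 1) ty l = rn n ty.other (st ty false l) := rfl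

theorem rn_succ' (n : ℕ) (ty : Ty) (l : List Cell) :
    rn (n + 1) ty l = st (tyn ty n) false (rn n ty l) := Z10_run false n ty l

theorem rn_static (ty : Ty) (l : List Cell) (j : ℕ) (h : One 0 (dg (rn j ty l))) (k : ℕ) :
    dg (rn (j + k) ty l) = dg (rn j ty l) := by
  induction k with
  | zero => rfl
  | succ k ih =>
    rw [← add_assoc, rn_succ', st_static _ _ (by rw [ih]; exact h), ih]

theorem st_One (l : List Cell) : ∀ (ty : Ty) (M : ℕ), One M (dg l) →
    ∃ M', One M' (dg (st ty false l)) := by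
  induction l with
  | nil =>
    intro ty M _
    have h0 : One 0 (dg []) := by
      have : ∀ i, gd (dg [] i) := by
        intro i k
        have : dg [] i k = 1 := by simp [dg, cl, hd, zc]
        rw [this]
        exact ⟨le_rfl, by show 1 ≤ 4095; norm_num⟩
      exact ⟨fun i _ => this i, gd_tk (this 0)⟩
    exact ⟨0, by rw [st_static _ _ h0]; exact h0⟩
  | cons a tl ih =>
    intro ty M h
    cases M with
    | zero => exact ⟨0, by rw [st_static _ _ h]; exact h⟩
    | succ M =>
      have ha : gd a.D := h.1 0 (by omega)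
      cases ty with
      | E =>
        cases M with
        | zero =>
          rw [dg_stE]
          split_ifs
          · refine ⟨1, ?_⟩
            rw [carry_tk (gd_tk (h.1 0 (by omega))), consd_shf]
            exact h
          · exact ⟨0, One_comb h⟩
        | succ M =>
          refine ⟨M + 2, ?_⟩
          rw [stE_fix _ (gd_tk (h.1 0 (by omega))) (h.1 1 (by omega) 0)]
          exact h
      | F =>
        obtain ⟨M', hM'⟩ := ih (sT Ty.F a.b) M (One_shf h)
        refine ⟨M' + 1, ?_⟩
        rw [st_F, dg_cons]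
        exact One_consd ha hM'

theorem rn_One (ty : Ty) (l : List Cell) (M : ℕ) (h : One M (dg l)) (n : ℕ) :
    ∃ M', One M' (dg (rn n ty l)) := by
  induction n with
  | zero => exact ⟨M, h⟩
  | succ n ih =>
    obtain ⟨M', hM'⟩ := ih
    rw [rn_succ']
    exact st_One _ _ _ hM'

theorem adj_fix (a : Cell) (tl : List Cell) (h : ny a (hd tl) = (hd tl).D 0) : adj a tl = tl := by
  cases tl with
  | nil => rfl
  | cons e t =>
    have e3 : ny a e = e.D 0 := h
    rw [adj, e3, Function.update_eq_self]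

/-- two steps without exchange -/
theorem two_steps (a : Cell) (tl : List Cell) (ha : gd a.D)
    (h : a.b = true ∨ gdn ((hd tl).D 0)) : ∃ a' : Cell, a'.D = a.D ∧ a'.b = !a.b ∧
      ∀ n, rn (n + 2) Ty.E (a :: tl) = rn n Ty.E (a' :: st (sT Ty.F (!a.b)) false tl) := by
  have e2 : ny a (hd tl) = (hd tl).D 0 := by
    unfold ny
    split_ifs with hb
    · rfl
    · exact lo_gd _ (h.resolve_left hb)
  have e3 : nx a (hd tl) = a.D 2 := by
    unfold nx
    split_ifs with hb
    · rfl
    · exact hi_gd _ (h.resolve_left hb)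
  refine ⟨newc false a (hd tl), ?_, rfl, fun n => ?_⟩
  · show carry a.D (nx a (hd tl)) = a.D
    rw [e3, carry_tk (gd_tk ha)]
  · rw [rn_succ, rn_succ]
    show rn n Ty.E (st Ty.F false (newc false a (hd tl) :: adj a tl)) = _
    rw [st_F, adj_fix a tl e2]
    rfl

theorem absorb (a : Cell) (tl : List Cell) (ha : gd a.D) (h : One 0 (dg tl)) :
    ∃ n, dg (rn n Ty.E (a :: tl)) = comb (consd a.D (dg tl)) := by
  have key : ∀ (a : Cell) (tl : List Cell), a.b = false →
      dg (rn 1 Ty.E (a :: tl)) = comb (consd a.D (dg tl)) := by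
    intro a tl hb
    show dg (st Ty.E false (a :: tl)) = _
    rw [dg_stE, if_neg (by simp [hd, hb]), dg_cons]
  cases hb : a.b with
  | false => exact ⟨1, key a tl hb⟩
  | true =>
    obtain ⟨a', h1, h2, h3⟩ := two_steps a tl ha (Or.inl hb)
    refine ⟨1 + 2, ?_⟩
    rw [h3, key a' _ (by rw [h2, hb]; rfl), h1, st_static _ _ h]

theorem tyn_succ (ty : Ty) (j : ℕ) : tyn ty (j + 1) = (tyn ty j).other := by
  unfold tyn
  rcases Nat.mod_two_eq_zero_or_one j with h | h
  · have h' : (j + 1) % 2 = 1 := by omega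
    simp [h, h']
  · have h' : (j + 1) % 2 = 0 := by omega
    simp [h, h', Z10_other_other]

theorem walk (tl : List Cell) (ty0 : Ty) (M : ℕ) (hM : One M (dg tl)) (n1 : ℕ)
    (h1 : One 0 (dg (rn n1 ty0 tl))) : ∀ (m j : ℕ) (a : Cell), n1 ≤ j + m → gd a.D →
      sT Ty.F (!a.b) = tyn ty0 j →
      ∃ n, dg (rn n Ty.E (a :: rn j ty0 tl)) = comb (consd a.D (dg (rn n1 ty0 tl))) := by
  intro m
  induction m with
  | zero =>
    intro j a hj ha _
    obtain ⟨k, rfl⟩ := Nat.exists_eq_add_of_le (show n1 ≤ j by omega)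
    have e := rn_static ty0 tl n1 h1 k
    rw [← e]
    exact absorb a _ ha (by rw [e]; exact h1)
  | succ m ih =>
    intro j a hj ha hty
    by_cases hg : gdn ((hd (rn j ty0 tl)).D 0)
    · obtain ⟨a', k1, k2, k3⟩ := two_steps a (rn j ty0 tl) ha (Or.inr hg)
      rw [hty, ← rn_succ'] at k3
      obtain ⟨n, hn⟩ := ih (j + 1) a' (by omega) (by rw [k1]; exact ha) (by
        rw [k2, tyn_succ, ← hty]
        cases a.b <;> rfl)
      exact ⟨n + 2, by rw [k3, hn, k1]⟩
    · obtain ⟨M', hM'⟩ := rn_One ty0 tl M hM j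
      have h0 : M' = 0 := by
        by_contra hne
        exact hg (hM'.1 0 (fun e => hne e.symm) 0)
      subst h0
      have e : dg (rn n1 ty0 tl) = dg (rn j ty0 tl) := by
        rcases le_total n1 j with h | h
        · obtain ⟨k, rfl⟩ := Nat.exists_eq_add_of_le h
          exact (rn_static ty0 tl n1 h1 k).symm
        · obtain ⟨k, rfl⟩ := Nat.exists_eq_add_of_le h
          exact rn_static ty0 tl j hM' k
      rw [e]
      exact absorb a _ ha hM'

theorem conv : ∀ (N : ℕ) (ty : Ty) (l : List Cell), One N (dg l) →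
    ∃ n, dg (rn n ty l) = NF N (dg l) := by
  intro N
  induction N with
  | zero => intro ty l _; exact ⟨0, rfl⟩
  | succ N ih =>
    intro ty l h
    have ha : gd (hd l).D := h.1 0 (by omega)
    have ht : One N (dg l.tail) := by rw [← shf_dg]; exact One_shf h
    have hNF : NF (N + 1) (dg l) = comb (consd (hd l).D (NF N (dg l.tail))) := by
      rw [NF, shf_dg]
      rfl
    rw [hNF]
    cases ty with
    | E =>
      obtain ⟨n1, hn1⟩ := ih (sT Ty.F (!(hd l).b)) l.tail ht
      obtain ⟨n, hn⟩ := walk l.tail (sT Ty.F (!(hd l).b)) N ht n1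
        (by rw [hn1]; exact One_NF N _ ht) n1 0 (hd l) (by omega) ha rfl
      rw [hn1] at hn
      cases n with
      | zero =>
        refine ⟨0, ?_⟩
        rw [← hn]
        exact (dg_eta l).trans (dg_cons _ _).symm
      | succ n =>
        refine ⟨n + 1, ?_⟩
        rw [← hn, rn_succ, rn_succ, st_eta]
        rfl
    | F =>
      obtain ⟨n1, hn1⟩ := ih (sT Ty.F (hd l).b) l.tail ht
      obtain ⟨n, hn⟩ := walk l.tail (sT Ty.F (hd l).b) N ht n1
        (by rw [hn1]; exact One_NF N _ ht) n1 1 (hd l) (by omega) ha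
        (by cases (hd l).b <;> rfl)
      rw [hn1] at hn
      refine ⟨n + 1, ?_⟩
      rw [← hn, rn_succ, st_eta, st_F]
      rfl

theorem conv' (N : ℕ) (ty : Ty) (l : List Cell) (h : One N (dg l)) :
    ∃ n0, ∀ n, n0 ≤ n → dg (rn n ty l) = NF N (dg l) := by
  obtain ⟨n0, h0⟩ := conv N ty l h
  refine ⟨n0, fun n hn => ?_⟩
  obtain ⟨k, rfl⟩ := Nat.exists_eq_add_of_le hn
  rw [rn_static ty l n0 (by rw [h0]; exact One_NF N _ h) k, h0]

end Pool.Agent.H385A
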