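import Mathlib
import Pool.Agent.H385Z.Defs
import Pool.Agent.H385Z.XRange

set_option autoImplicit false

open Set Filter Topology

namespace Pool.Agent.H385A

open Pool.Agent.Aub

theorem X13_unf (ty : Ty) (δ p : Fin 3) (l : List Cell) (i : Fin 3) (tr : Fin 5)
    (hb : (hd l).b = false) :
    rl ty δ p l i tr = if i = posn δ ty p then
      (hd l).val tr + rl (sT ty false) (-δ) (subP δ ty p) l.tail i tr / lam
      else rl (sT ty false) (-δ) (subP δ ty p) l.tail i tr := by
  cases l with
  | nil =>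
    have h0 : zc.val tr = if tr.1 < 2 then 0 else 1 := by
      fin_cases tr <;> simp [Cell.val, zc, vb]
    simp only [rl, hd, h0, List.tail_nil]
    split_ifs
    · simp
    · rfl
    · unfold lam; norm_num
    · rfl
  | cons a tl =>
    simp only [hd] at hb
    simp only [rl, hd, List.tail_cons, hb]

theorem X13_e (p : Fin 3) (l : List Cell) (i : Fin 3) (tr : Fin 5) (hb : (hd l).b = false) :
    rl Ty.E 1 p l i tr = if i = p - 1 then (hd l).val tr + rl Ty.F 2 (p + 1) l.tail i tr / lam
      else rl Ty.F 2 (p + 1) l.tail i tr := by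
  have h := X13_unf Ty.E 1 p l i tr hb
  have h1 : posn 1 Ty.E p = p - 1 := by simp [posn]
  have h2 : subP 1 Ty.E p = p + 1 := by simp [subP]
  have h3 : sT Ty.E false = Ty.F := rfl
  have h4 : (-1 : Fin 3) = 2 := by decide
  rw [h1, h2, h3, h4] at h
  exact h

theorem X13_f (p : Fin 3) (l : List Cell) (i : Fin 3) (tr : Fin 5) (hb : (hd l).b = false) :
    rl Ty.F 2 p l i tr = if i = p then (hd l).val tr + rl Ty.E 1 p l.tail i tr / lam
      else rl Ty.E 1 p l.tail i tr := by
  have h := X13_unf Ty.F 2 p l i tr hb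
  have h1 : posn 2 Ty.F p = p := by simp [posn]
  have h2 : subP 2 Ty.F p = p := by simp [subP]
  have h3 : sT Ty.F false = Ty.E := rfl
  have h4 : (-2 : Fin 3) = 1 := by decide
  rw [h1, h2, h3, h4] at h
  exact h

theorem X13_lam : (0:ℝ) < lam := by unfold lam; norm_num

theorem X13_six (l l' : List Cell)
    (b1 : (hd l).b = false) (b2 : (hd l.tail).b = false) (b3 : (hd l.tail.tail).b = false)
    (b4 : (hd l.tail.tail.tail).b = false) (b5 : (hd l.tail.tail.tail.tail).b = false)
    (b6 : (hd l.tail.tail.tail.tail.tail).b = false)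
    (e1 : hd l' = hd l) (e2 : hd l'.tail = hd l.tail) (e3 : hd l'.tail.tail = hd l.tail.tail)
    (e4 : hd l'.tail.tail.tail = hd l.tail.tail.tail)
    (e5 : hd l'.tail.tail.tail.tail = hd l.tail.tail.tail.tail)
    (e6 : hd l'.tail.tail.tail.tail.tail = hd l.tail.tail.tail.tail.tail) (i : Fin 3)
    (tr : Fin 5) :
    rl Ty.E 1 0 l i tr - rl Ty.E 1 0 l' i tr =
      (rl Ty.E 1 0 l.tail.tail.tail.tail.tail.tail i tr -
        rl Ty.E 1 0 l'.tail.tail.tail.tail.tail.tail i tr) / lam ^ 2 := by
  have hl := X13_lam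
  rw [X13_e 0 l i tr b1, X13_f _ l.tail i tr b2, X13_e _ l.tail.tail i tr b3,
    X13_f _ l.tail.tail.tail i tr b4, X13_e _ l.tail.tail.tail.tail i tr b5,
    X13_f _ l.tail.tail.tail.tail.tail i tr b6,
    X13_e 0 l' i tr (by rw [e1]; exact b1), X13_f _ l'.tail i tr (by rw [e2]; exact b2),
    X13_e _ l'.tail.tail i tr (by rw [e3]; exact b3),
    X13_f _ l'.tail.tail.tail i tr (by rw [e4]; exact b4),
    X13_e _ l'.tail.tail.tail.tail i tr (by rw [e5]; exact b5),
    X13_f _ l'.tail.tail.tail.tail.tail i tr (by rw [e6]; exact b6), e1, e2, e3, e4, e5, e6]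
  fin_cases i
  · simp only [show ((0:Fin 3) - 1) = 2 from by decide, show ((0:Fin 3) + 1) = 1 from by decide,
      show ((1:Fin 3) - 1) = 0 from by decide, show ((1:Fin 3) + 1) = 2 from by decide,
      show ((2:Fin 3) - 1) = 1 from by decide, show ((2:Fin 3) + 1) = 0 from by decide]
    simp
    field_simp
    ring
  · simp only [show ((0:Fin 3) - 1) = 2 from by decide, show ((0:Fin 3) + 1) = 1 from by decide,
      show ((1:Fin 3) - 1) = 0 from by decide, show ((1:Fin 3) + 1) = 2 from by decide,
      show ((2:Fin 3) - 1) = 1 from by decide, show ((2:Fin 3) + 1) = 0 from by decide]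
    simp
    field_simp
    ring
  · simp only [show ((0:Fin 3) - 1) = 2 from by decide, show ((0:Fin 3) + 1) = 1 from by decide,
      show ((1:Fin 3) - 1) = 0 from by decide, show ((1:Fin 3) + 1) = 2 from by decide,
      show ((2:Fin 3) - 1) = 1 from by decide, show ((2:Fin 3) + 1) = 0 from by decide]
    simp
    field_simp
    ring

theorem X13_Dle_tail (l : List Cell) (h : Dle l) : Dle l.tail :=
  fun a ha => h a (List.mem_of_mem_tail ha)

end Pool.Agent.H385A
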