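import Mathlib
import Pool.Agent.H385Z.Defs
import Pool.Agent.H385Z.XClose
import Pool.Agent.H385Z.Q21

/-!
MP_7d4c8f_an, symbolic dynamics: values, uniqueness of expansions, closeness of exact states
-/

set_option autoImplicit false

open Set Filter Topology

namespace Pool.Agent.H385A

open Pool.Agent.Aub

/-- the value of the digits after the first one, up to the first digit of cell `N` -/
def RR : ℕ → DS → ℤ
  | 0, _ => 0
  | N + 1, d => (16769025 * (d 0 1 : ℤ) + 4095 * (d 0 2 : ℤ) + (d 1 0 : ℤ)) * 68669157375 ^ N +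
      RR N (shf d)

def WW (N : ℕ) (d : DS) : ℤ := (d 0 0 : ℤ) * 68669157375 ^ N + RR N d

theorem RR_congr : ∀ (N : ℕ) (d d' : DS), d 0 1 = d' 0 1 → d 0 2 = d' 0 2 → shf d = shf d' →
    RR N d = RR N d'
  | 0, _, _, _, _, _ => rfl
  | N + 1, d, d', h1, h2, h3 => by
    have h4 : d 1 0 = d' 1 0 := congrFun (congrFun h3 0) 0
    rw [RR, RR, h1, h2, h3, h4]

theorem WW_succ (N : ℕ) (d : DS) : WW (N + 1) d =
    4095 * (16769025 * (d 0 0 : ℤ) + 4095 * (d 0 1 : ℤ) + (d 0 2 : ℤ)) * 68669157375 ^ N +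
      WW N (shf d) := by
  unfold WW
  rw [RR]
  have : shf d 0 0 = d 1 0 := rfl
  rw [this]
  ring

theorem hiloZ (a b : ℕ) : 4095 * (hi a b : ℤ) + (lo a b : ℤ) = 4095 * (a : ℤ) + b := by
  have := hilo a b
  unfold BB at this
  exact_mod_cast this

theorem WW_comb (N : ℕ) (d : DS) : WW (N + 1) (comb d) = WW (N + 1) d := by
  unfold WW
  rw [RR, RR]
  have e1 : RR N (shf (comb d)) = RR N (shf d) := RR_congr N _ _ rfl rfl rfl
  have e2 : comb d 0 0 = hi (d 0 0) (hi (d 0 1) (hi (d 0 2) (d 1 0))) := rfl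
  have e3 : comb d 0 1 = lo (d 0 0) (hi (d 0 1) (hi (d 0 2) (d 1 0))) := rfl
  have e4 : comb d 0 2 = lo (d 0 1) (hi (d 0 2) (d 1 0)) := rfl
  have e5 : comb d 1 0 = lo (d 0 2) (d 1 0) := rfl
  rw [e1, e2, e3, e4, e5]
  have k1 := hiloZ (d 0 0) (hi (d 0 1) (hi (d 0 2) (d 1 0)))
  have k2 := hiloZ (d 0 1) (hi (d 0 2) (d 1 0))
  have k3 := hiloZ (d 0 2) (d 1 0)
  linear_combination (16769025 * 68669157375 ^ N) * k1 + (4095 * 68669157375 ^ N) * k2 +
    (68669157375 ^ N) * k3

theorem WW_NF : ∀ (N : ℕ) (d : DS), WW N (NF N d) = WW N d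
  | 0, _ => rfl
  | N + 1, d => by
    rw [NF, WW_comb, WW_succ, WW_succ, shf_consd, WW_NF N]
    rfl

/-- all digits except the very first one are good -/
def Nt (d : DS) : Prop := gdn (d 0 1) ∧ gdn (d 0 2) ∧ ∀ i, gd (d (i + 1))

theorem Nt_shf {d : DS} (h : Nt d) : Nt (shf d) :=
  ⟨h.2.2 0 1, h.2.2 0 2, fun i => h.2.2 (i + 1)⟩

theorem Nt_One {d : DS} (h : One 0 d) : Nt d :=
  ⟨h.2.2.1, h.2.2.2, fun i => h.1 (i + 1) (by omega)⟩

theorem gdnZ {x : ℕ} (h : gdn x) : (1 : ℤ) ≤ x ∧ (x : ℤ) ≤ 4095 := by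
  obtain ⟨h1, h2⟩ := h
  unfold BB at h2
  constructor
  · exact_mod_cast h1
  · exact_mod_cast h2

theorem RR_diff : ∀ (N : ℕ) (d d' : DS), Nt d → Nt d' → RR N d - RR N d' < 68669157375 ^ N
  | 0, _, _, _, _ => by simp [RR]
  | N + 1, d, d', h, h' => by
    have ih := RR_diff N _ _ (Nt_shf h) (Nt_shf h')
    have a1 := gdnZ h.1
    have a2 := gdnZ h.2.1
    have a3 := gdnZ (h.2.2 0 0)
    have b1 := gdnZ h'.1
    have b2 := gdnZ h'.2.1
    have b3 := gdnZ (h'.2.2 0 0)
    rw [RR, RR, pow_succ]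
    have hp : (0 : ℤ) < 68669157375 ^ N := by positivity
    have hx : (16769025 * (d 0 1 : ℤ) + 4095 * (d 0 2 : ℤ) + (d 1 0 : ℤ)) -
        (16769025 * (d' 0 1 : ℤ) + 4095 * (d' 0 2 : ℤ) + (d' 1 0 : ℤ)) ≤ 68669157374 := by
      simp only [Nat.zero_add] at a3 b3
      omega
    nlinarith [mul_le_mul_of_nonneg_right hx hp.le]

theorem div_uniq {x x' r r' P : ℤ} (hP : 0 < P) (h : x * P + r = x' * P + r') (h1 : r - r' < P)
    (h2 : r' - r < P) : x = x' ∧ r = r' := by
  have e : x = x' := by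
    by_contra hne
    rcases lt_or_gt_of_ne hne with hlt | hlt
    · have : x + 1 ≤ x' := hlt
      nlinarith
    · have : x' + 1 ≤ x := hlt
      nlinarith
  subst e
  exact ⟨rfl, by linarith⟩

theorem WW_uniq : ∀ (N : ℕ) (d d' : DS), Nt d → Nt d' → WW N d = WW N d' →
    ∀ i, i < N → d i = d' i
  | 0, _, _, _, _, _ => fun i hi => absurd hi (by omega)
  | N + 1, d, d', h, h', hW => by
    have hp : (0 : ℤ) < 68669157375 ^ N := by positivity
    have hp' : (0 : ℤ) < 68669157375 ^ (N + 1) := by positivity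
    obtain ⟨e0, e1⟩ := div_uniq hp' hW (RR_diff _ _ _ h h') (RR_diff _ _ _ h' h)
    rw [RR, RR] at e1
    obtain ⟨e2, e3⟩ := div_uniq hp e1 (RR_diff _ _ _ (Nt_shf h) (Nt_shf h'))
      (RR_diff _ _ _ (Nt_shf h') (Nt_shf h))
    have a1 := gdnZ h.1
    have a2 := gdnZ h.2.1
    have a3 := gdnZ (h.2.2 0 0)
    have b1 := gdnZ h'.1
    have b2 := gdnZ h'.2.1
    have b3 := gdnZ (h'.2.2 0 0)
    simp only [Nat.zero_add] at a3 b3
    have c0 : d 0 0 = d' 0 0 := by exact_mod_cast e0
    have c1 : d 0 1 = d' 0 1 := by omega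
    have c2 : d 0 2 = d' 0 2 := by omega
    have c3 : d 1 0 = d' 1 0 := by omega
    have hW' : WW N (shf d) = WW N (shf d') := by
      unfold WW
      have f1 : shf d 0 0 = d 1 0 := rfl
      have f2 : shf d' 0 0 = d' 1 0 := rfl
      rw [f1, f2, c3, e3]
    have ih := WW_uniq N _ _ (Nt_shf h) (Nt_shf h') hW'
    intro i hi
    cases i with
    | zero =>
      funext k
      fin_cases k
      · exact c0
      · exact c1
      · exact c2
    | succ i => exact ih i (by omega)

/-- integer value of the first `N` cells -/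
def IV : ℕ → List Cell → ℤ
  | 0, _ => 0
  | N + 1, l => (16769025 * ((hd l).D 0 : ℤ) + 4095 * ((hd l).D 1 : ℤ) + ((hd l).D 2 : ℤ)) *
      68669157375 ^ N + IV N l.tail

theorem WW_refill (τ : ℕ) : ∀ (N : ℕ) (l : List Cell),
    WW N (dg (refill τ N l)) = 4095 * IV N l + τ
  | 0, l => by
    unfold WW
    rw [RR, IV]
    have : dg (refill τ 0 l) 0 0 = τ := rfl
    rw [this]
    ring
  | N + 1, l => by
    rw [WW_succ, refill, dg_cons, shf_consd, WW_refill τ N, IV]
    have e : consd (hd l).D (dg (refill τ N l.tail)) 0 = (hd l).D := rfl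
    rw [e]
    ring

theorem val_eta (l : List Cell) :
    val l = (Vz (fun k => ((hd l).D k : ℤ)) + val l.tail) / MM := by
  cases l with
  | nil =>
    rw [P18_Vz]
    simp only [hd, zc, val, List.tail_nil]
    unfold MM
    norm_num
  | cons a t => rfl

theorem val_IV : ∀ (N : ℕ) (l : List Cell), MM ^ N * val l = IV N l + val (l.drop N)
  | 0, l => by simp [IV]
  | N + 1, l => by
    have hMM := P18_MMpos
    have e : l.drop (N + 1) = l.tail.drop N := by cases l <;> simp
    rw [val_eta l, IV, e, P18_Vz, pow_succ, mul_assoc, mul_div_cancel₀ _ hMM.ne', mul_add,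
      val_IV N l.tail]
    push_cast
    unfold MM
    ring

theorem Good_tail {l : List Cell} (h : Good l) : Good l.tail :=
  fun a ha => h a (List.mem_of_mem_tail ha)

theorem Good_drop {l : List Cell} (h : Good l) (N : ℕ) : Good (l.drop N) :=
  fun a ha => h a (List.mem_of_mem_drop ha)

theorem Good_hd {l : List Cell} (h : Good l) :
    (hd l).b = false ∧ (hd l).c = false ∧ gd (hd l).D := by
  cases l with
  | nil => exact ⟨rfl, rfl, fun _ => ⟨le_rfl, by show 1 ≤ 4095; norm_num⟩⟩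
  | cons a t => exact h a List.mem_cons_self

theorem Good_cl {l : List Cell} (h : Good l) (i : ℕ) :
    (cl l i).b = false ∧ (cl l i).c = false ∧ gd (cl l i).D := Good_hd (Good_drop h i)

theorem val_good (l : List Cell) (h : Good l) : 1 / 4094 ≤ val l ∧ val l ≤ 1 / 4094 + 1 := by
  induction l with
  | nil => rw [val]; norm_num
  | cons a tl ih =>
    obtain ⟨h1, h2⟩ := ih (Good_tail h)
    have ha : ∀ k, (1 : ℝ) ≤ a.D k ∧ (a.D k : ℝ) ≤ 4095 := by
      intro k
      obtain ⟨k1, k2⟩ := (h a List.mem_cons_self).2.2 k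
      unfold BB at k2
      constructor
      · exact_mod_cast k1
      · exact_mod_cast k2
    have e0 := ha 0
    have e1 := ha 1
    have e2 := ha 2
    rw [val, P18_Vz, le_div_iff₀ P18_MMpos, div_le_iff₀ P18_MMpos]
    unfold MM
    constructor <;> linarith

theorem IV_close (N : ℕ) (l l' : List Cell) (h : Good l) (h' : Good l')
    (hv : |val l - val l'| < 1 / MM ^ N) :
    IV N l' = IV N l ∨ IV N l' = IV N l + 1 ∨ IV N l' = IV N l - 1 := by
  have hp : (0 : ℝ) < MM ^ N := pow_pos P18_MMpos N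
  have e1 := val_IV N l
  have e2 := val_IV N l'
  have g1 := val_good _ (Good_drop h N)
  have g2 := val_good _ (Good_drop h' N)
  rw [lt_div_iff₀ hp, ← abs_of_pos hp, ← abs_mul, abs_lt] at hv
  have k1 : (IV N l' : ℝ) - IV N l < 2 := by nlinarith [hv.1, hv.2]
  have k2 : (-2 : ℝ) < (IV N l' : ℝ) - IV N l := by nlinarith [hv.1, hv.2]
  have k3 : IV N l' - IV N l < 2 := by exact_mod_cast k1
  have k4 : -2 < IV N l' - IV N l := by exact_mod_cast k2
  omega

theorem One_refill (τ : ℕ) (hτ : τ ≤ mm) : ∀ (N : ℕ) (l : List Cell), Good l →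
    One N (dg (refill τ N l))
  | 0, l, _ => by
    have g1 : gdn 1 := ⟨le_rfl, by show 1 ≤ 4095; norm_num⟩
    refine ⟨fun i hi => ?_, hτ, g1, g1⟩
    cases i with
    | zero => exact absurd rfl hi
    | succ i =>
      intro k
      have : dg (refill τ 0 l) (i + 1) k = 1 := by simp [dg, cl, refill, hd, zc]
      rw [this]
      exact g1
  | N + 1, l, h => by
    rw [refill, dg_cons]
    exact One_consd (Good_hd h).2.2 (One_refill τ hτ N _ (Good_tail h))

theorem One_mono {N : ℕ} {d : DS} (h : One N d) (h0 : gdn (d N 0)) : One 0 d := by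
  have hall : ∀ i, gd (d i) := by
    intro i
    by_cases hi : i = N
    · subst hi
      intro k
      fin_cases k
      · exact h0
      · exact h.2.2.1
      · exact h.2.2.2
    · exact h.1 i hi
  exact ⟨fun i _ => hall i, gd_tk (hall 0)⟩

theorem dg_refill (τ : ℕ) : ∀ (N : ℕ) (l : List Cell) (i : ℕ), i < N →
    dg (refill τ N l) i = dg l i
  | 0, _, _, h => absurd h (by omega)
  | N + 1, l, 0, _ => rfl
  | N + 1, l, i + 1, h => by
    rw [refill, dg_cons, dg_eta l]
    exact dg_refill τ N l.tail i (by omega)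

theorem dg_refill_N (τ : ℕ) : ∀ (N : ℕ) (l : List Cell), dg (refill τ N l) N 0 = τ
  | 0, _ => rfl
  | N + 1, l => by
    rw [refill, dg_cons]
    exact dg_refill_N τ N l.tail

/-- after a long run the digits of the first `N` cells are those of `l'` -/
theorem dig_reach (N : ℕ) (l l' : List Cell) (h : Good l) (h' : Good l')
    (hv : |val l - val l'| < 1 / MM ^ N) : ∃ τ, τ ≤ mm ∧ ∃ n0, ∀ n, n0 ≤ n → ∀ i, i < N →
      dg (rn n Ty.E (refill τ N l)) i = dg l' i := by
  obtain ⟨τ, τ', h1, h2, h3⟩ : ∃ τ τ' : ℕ, τ ≤ mm ∧ gdn τ' ∧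
      4095 * IV N l + τ = 4095 * IV N l' + τ' := by
    rcases IV_close N l l' h h' hv with e | e | e
    · exact ⟨1, 1, by unfold mm; norm_num, ⟨le_rfl, by unfold BB; norm_num⟩, by rw [e]⟩
    · exact ⟨4096, 1, by unfold mm; norm_num, ⟨le_rfl, by unfold BB; norm_num⟩, by
        rw [e]; push_cast; ring⟩
    · exact ⟨0, 4095, by unfold mm; norm_num, ⟨by norm_num, by unfold BB; norm_num⟩, by
        rw [e]; push_cast; ring⟩
  have hO := One_refill τ h1 N l h
  obtain ⟨n0, hn0⟩ := conv' N Ty.E _ hO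
  refine ⟨τ, h1, n0, fun n hn i hi => ?_⟩
  have h4 : τ' ≤ mm := by
    have := h2.2
    unfold BB at this
    unfold mm
    omega
  have hO' : One 0 (dg (refill τ' N l')) :=
    One_mono (One_refill τ' h4 N l' h') (by rw [dg_refill_N]; exact h2)
  rw [hn0 n hn, ← dg_refill τ' N l' i hi]
  refine WW_uniq N _ _ (Nt_One (One_NF N _ hO)) (Nt_One hO') ?_ i hi
  rw [WW_NF, WW_refill, WW_refill, h3]

/-- bit `b` zero forces bit `c` zero -/
def BC (l : List Cell) : Prop := ∀ a ∈ l, a.b = false → a.c = false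

theorem BC_cons {a : Cell} {l : List Cell} (ha : a.b = false → a.c = false) (h : BC l) :
    BC (a :: l) := by
  intro c hc
  rcases List.mem_cons.mp hc with rfl | hc
  · exact ha
  · exact h c hc

theorem BC_tail {l : List Cell} (h : BC l) : BC l.tail :=
  fun a ha => h a (List.mem_of_mem_tail ha)

theorem BC_newc (a e : Cell) : (newc false a e).b = false → (newc false a e).c = false := by
  intro h
  have h1 : (!a.b) = false := h
  show (!a.b && !e.c) = false
  rw [h1]
  rfl

theorem BC_stE (l : List Cell) (h : BC l) : BC (st Ty.E false l) := by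
  cases l with
  | nil => exact BC_cons (BC_newc _ _) h
  | cons a tl =>
    refine BC_cons (BC_newc _ _) ?_
    have ht : BC tl := BC_tail h
    cases tl with
    | nil => exact ht
    | cons e t => exact BC_cons (ht e List.mem_cons_self) (BC_tail ht)

theorem BC_st (l : List Cell) : ∀ ty : Ty, BC l → BC (st ty false l) := by
  induction l with
  | nil =>
    intro ty h
    cases ty with
    | E => exact BC_stE _ h
    | F => exact BC_cons (fun _ => rfl) (BC_stE [] h)
  | cons a tl ih =>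
    intro ty h
    cases ty with
    | E => exact BC_stE _ h
    | F =>
      rw [st_F]
      exact BC_cons (h a List.mem_cons_self) (ih _ (BC_tail h))

theorem BC_rn (ty : Ty) (l : List Cell) (h : BC l) (n : ℕ) : BC (rn n ty l) := by
  induction n with
  | zero => exact h
  | succ n ih => rw [rn_succ']; exact BC_st _ _ ih

theorem BC_hd {l : List Cell} (h : BC l) : (hd l).b = false → (hd l).c = false := by
  cases l with
  | nil => exact fun _ => rfl
  | cons a t => exact h a List.mem_cons_self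

/-- the first `N` cells agree -/
def Agr : ℕ → List Cell → List Cell → Prop
  | 0, _, _ => True
  | N + 1, l, l' => hd l' = hd l ∧ Agr N l.tail l'.tail

theorem Agr_of : ∀ (N : ℕ) (l l' : List Cell), Good l → base N l' → BC l' →
    (∀ i, i < N → dg l' i = dg l i) → Agr N l l'
  | 0, _, _, _, _, _, _ => trivial
  | N + 1, l, l', h, hb, hc, hd' => by
    refine ⟨?_, Agr_of N _ _ (Good_tail h) hb.2 (BC_tail hc) (fun i hi => ?_)⟩
    · have k1 := hb.1
      have k2 := BC_hd hc k1
      have k3 : (hd l').D = (hd l).D := hd' 0 (by omega)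
      obtain ⟨k4, k5, -⟩ := Good_hd h
      cases hx : hd l' with
      | mk b c D =>
        cases hy : hd l with
        | mk b' c' D' =>
          rw [hx] at k1 k2 k3
          rw [hy] at k3 k4 k5
          simp only at k1 k2 k3 k4 k5
          rw [k1, k2, k3, k4, k5]
    · have := hd' (i + 1) (by omega)
      rw [dg_eta l, dg_eta l'] at this
      exact this

theorem BC_good {l : List Cell} (h : Good l) : BC l := fun a ha _ => (h a ha).2.1

theorem run_good (N k : ℕ) (l : List Cell) (h : Good l) :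
    Agr N l (rn (2 ^ (N + 1) * k) Ty.E l) := by
  have hb := run_base N (fun _ => false) Ty.E l k ((good_facts l h).2.2 N)
  refine Agr_of N l _ h hb (BC_rn _ _ (BC_good h) _) (fun i _ => ?_)
  have h0 : One 0 (dg (rn 0 Ty.E l)) :=
    ⟨fun i _ => (Good_cl h i).2.2, gd_tk (Good_cl h 0).2.2⟩
  have := rn_static Ty.E l 0 h0 (2 ^ (N + 1) * k)
  rw [zero_add] at this
  rw [this]
  rfl

theorem refill_facts (τ : ℕ) (hτ : τ ≤ mm) : ∀ (N : ℕ) (l : List Cell), Good l →
    Dle (refill τ N l) ∧ (∀ ty, Val ty (refill τ N l)) ∧ base N (refill τ N l) ∧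
      BC (refill τ N l) ∧ Agr N l (refill τ N l)
  | 0, l, _ => by
    refine ⟨?_, fun ty => ?_, trivial, ?_, trivial⟩
    · refine X07_Dle_cons (fun k => ?_) (fun a ha => absurd ha (by simp))
      fin_cases k
      · exact hτ
      · show 1 ≤ mm
        unfold mm; norm_num
      · show 1 ≤ mm
        unfold mm; norm_num
    · rw [refill, Val]
      exact ⟨fun _ => rfl, by rw [Val]; trivial⟩
    · exact BC_cons (fun _ => rfl) (fun a ha => absurd ha (by simp))
  | N + 1, l, h => by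
    obtain ⟨h1, h2, h3, h4, h5⟩ := refill_facts τ hτ N l.tail (Good_tail h)
    obtain ⟨k1, k2, k3⟩ := Good_hd h
    refine ⟨X07_Dle_cons (fun k => ?_) h1, fun ty => ?_, ⟨k1, h3⟩, BC_cons (fun _ => k2) h4,
      ⟨rfl, h5⟩⟩
    · have := (k3 k).2
      unfold BB at this
      unfold mm
      omega
    · rw [refill, Val]
      exact ⟨fun _ => by rw [k1, k2]; rfl, h2 _⟩

/-- the symbolic connection between two good configurations with close values -/
theorem sym_reach (N : ℕ) (l l' : List Cell) (h : Good l) (h' : Good l')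
    (hv : |val l - val l'| < 1 / MM ^ N) : ∃ l0 : List Cell, Dle l0 ∧ Val Ty.E l0 ∧ Agr N l l0 ∧
      ∃ k : ℕ, Agr N l' (rn (6 * k) Ty.E l0) := by
  obtain ⟨τ, hτ, n0, hn0⟩ := dig_reach N l l' h h' hv
  obtain ⟨h1, h2, h3, h4, h5⟩ := refill_facts τ hτ N l h
  refine ⟨refill τ N l, h1, h2 _, h5, 2 ^ (N + 1) * n0, ?_⟩
  have e : 6 * (2 ^ (N + 1) * n0) = 2 ^ (N + 1) * (6 * n0) := by ring
  have hle : n0 ≤ 6 * (2 ^ (N + 1) * n0) := by
    have : 1 ≤ 2 ^ (N + 1) := Nat.one_le_two_pow
    nlinarith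
  refine Agr_of N l' _ h' ?_ (BC_rn _ _ h4 _) (hn0 _ hle)
  rw [e]
  exact run_base N (fun _ => false) Ty.E _ _ h3

theorem rl_close2 (D : ℕ) : ∀ (l l' : List Cell), Dle l → Dle l' → base (6 * D) l →
    Agr (6 * D) l l' → ∀ i tr,
    |rl Ty.E 1 0 l i tr - rl Ty.E 1 0 l' i tr| ≤ (mm + 1) / lam ^ D := by
  induction D with
  | zero =>
    intro l l' hD hD' _ _ i tr
    have h1 := rl_range l hD Ty.E 1 0 i tr
    have h2 := rl_range _ hD' Ty.E 1 0 i tr
    rw [pow_zero, div_one, abs_le]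
    constructor <;> linarith [h1.1, h1.2.1, h2.1, h2.2.1]
  | succ D ih =>
    intro l l' hD hD' hb ha i tr
    have h6 : 6 * (D + 1) = 6 * D + 1 + 1 + 1 + 1 + 1 + 1 := by ring
    rw [h6] at hb ha
    simp only [base] at hb
    simp only [Agr] at ha
    obtain ⟨b1, b2, b3, b4, b5, b6, hb⟩ := hb
    obtain ⟨e1, e2, e3, e4, e5, e6, ha⟩ := ha
    rw [X13_six l l' b1 b2 b3 b4 b5 b6 e1 e2 e3 e4 e5 e6 i tr]
    have h := ih l.tail.tail.tail.tail.tail.tail l'.tail.tail.tail.tail.tail.tail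
      (X13_Dle_tail _ (X13_Dle_tail _ (X13_Dle_tail _ (X13_Dle_tail _ (X13_Dle_tail _
        (X13_Dle_tail _ hD))))))
      (X13_Dle_tail _ (X13_Dle_tail _ (X13_Dle_tail _ (X13_Dle_tail _ (X13_Dle_tail _
        (X13_Dle_tail _ hD')))))) hb ha i tr
    have hl := X13_lam
    have hl1 : (1:ℝ) ≤ lam := by unfold lam; norm_num
    rw [abs_div, abs_of_pos (pow_pos hl 2), div_le_iff₀ (pow_pos hl 2)]
    refine le_trans h ?_
    have hm : (0:ℝ) ≤ (mm:ℝ) + 1 := by positivity
    have : ((mm:ℝ) + 1) / lam ^ (D + 1) * lam ^ 2 = ((mm:ℝ) + 1) / lam ^ D * lam := by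
      field_simp
      ring
    rw [this]
    exact le_mul_of_one_le_right (by positivity) hl1

end Pool.Agent.H385A
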