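import Mathlib
import Pool.Agent.H385Z.Defs
import Pool.Agent.H385Z.ZPer
import Pool.Agent.Helper961.Aub.ZY
import Pool.Agent.Helper961.Aub.ZFlow

set_option autoImplicit false

open Set Filter Topology MeasureTheory

namespace Pool.Agent.H385A

open Pool.Agent.Aub

theorem Z11_run_congr (n : ℕ) (r r' : ℕ → Bool) (ty : Ty) (l : List Cell)
    (h : ∀ k, k < n → r k = r' k) : run n r ty l = run n r' ty l := by
  induction n generalizing r r' ty l with
  | zero => rfl
  | succ n ih =>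
    show run n (fun k => r (k + 1)) ty.other (st ty (r 0) l) =
      run n (fun k => r' (k + 1)) ty.other (st ty (r' 0) l)
    rw [h 0 (Nat.succ_pos n)]
    exact ih _ _ _ _ (fun k hk => h (k + 1) (by omega))

theorem Z11_run_add (a b : ℕ) (r : ℕ → Bool) (ty : Ty) (l : List Cell) :
    run (a + b) r ty l = run b (fun k => r (k + a)) (Ty.other^[a] ty) (run a r ty l) := by
  induction a generalizing r ty l with
  | zero => simp [run]
  | succ a ih =>
    have e : a + 1 + b = (a + b) + 1 := by omega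
    rw [e]
    show run (a + b) (fun k => r (k + 1)) ty.other (st ty (r 0) l) =
      run b (fun k => r (k + (a + 1))) (Ty.other^[a] ty.other)
        (run a (fun k => r (k + 1)) ty.other (st ty (r 0) l))
    rw [ih]
    rfl

theorem Z11_other_even (n : ℕ) : Ty.other^[6 * n] Ty.E = Ty.E := by
  induction n with
  | zero => rfl
  | succ n ih =>
    have e : 6 * (n + 1) = 6 * n + 6 := by omega
    rw [e, Function.iterate_add_apply]
    have h : Ty.other^[6] Ty.E = Ty.E := rfl
    rw [h, ih]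

theorem Z11_run_step (n : ℕ) (r : ℕ → Bool) (l : List Cell) (b : Bool)
    (h : ∀ k, k < 6 → r (k + 6 * n) = b) :
    run (6 * (n + 1)) r Ty.E l = run 6 (fun _ => b) Ty.E (run (6 * n) r Ty.E l) := by
  have e : 6 * (n + 1) = 6 * n + 6 := by omega
  rw [e, Z11_run_add, Z11_other_even]
  exact Z11_run_congr _ _ _ _ _ h

theorem Z11_lat_add (L : ℝ) (m m' : Jx → ℤ) : lat L m + lat L m' = lat L (m + m') := by
  ext i
  simp only [lat, PiLp.add_apply, Pi.add_apply]
  push_cast
  ring

theorem Z11_lat_zero (L : ℝ) : lat L (0 : Jx → ℤ) = 0 := by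
  ext i
  simp [lat]

/-- TARGET -/
theorem run_zero (cc : Clamp (5/4)) (cx : Clamp (mm + 1/2)) (rh : Rho) {F : EE → EE}
    {φ : ℝ → EE → EE} (h : Realz 97 (YY cc cx rh) LL F φ) (n : ℕ) (l : List Cell)
    (hD : Dle l) (hv : Val Ty.E l) (R : Fin 12 → ℝ) (hR : ∀ k, |R k| ≤ 1/32) :
    ∃ (R' : Fin 12 → ℝ) (m : Jx → ℤ), (∀ k, |R' k| ≤ 1/32) ∧
      φ (n * LL) (pt l R 0) = pt (run (6 * n) (fun _ => false) Ty.E l) R' 0 + lat LL m ∧
      Dle (run (6 * n) (fun _ => false) Ty.E l) ∧
      Val Ty.E (run (6 * n) (fun _ => false) Ty.E l) := by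
  have hLL : (0 : ℝ) < LL := by unfold LL; positivity
  obtain ⟨K, B, hK, hB, _, _, hadd, hlat, _⟩ := flow_facts hLL h.smooth h.per h.flow
  obtain ⟨_, _, _, _, _, hpsi0⟩ := yo_facts
  have hρ : rh.ρ 0 = if false then 1 else 0 := by
    rw [rh.zero 0 le_rfl hLL.le ?_]
    · simp
    · rw [zero_sub, abs_neg, abs_of_pos (by positivity)]
      unfold LL
      norm_num
  induction n with
  | zero =>
    refine ⟨R, 0, hR, ?_, hD, hv⟩
    have h0 : φ 0 (pt l R 0) = pt l R 0 := h.flow.1 _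
    rw [Z11_lat_zero]
    simp only [Nat.cast_zero, zero_mul, h0, add_zero]
    rfl
  | succ n ih =>
    obtain ⟨R', m, hR', hφ, hD', hv'⟩ := ih
    obtain ⟨R'', hR'', hφ', hD'', hv'', -⟩ := period_exact cc cx rh h _ hD' hv' R'
      (fun k => (hR' k).trans (by norm_num)) 0 0 false hρ
      ⟨fun _ => 0, rfl, rfl, fun u => by rw [hpsi0]; exact hasDerivAt_const _ _⟩
    rw [Z11_run_step n _ l false (fun _ _ => rfl)]
    refine ⟨R'', Pi.single (Sum.inr 1) 1 + m, hR'', ?_, hD'', hv''⟩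
    have e : ((n + 1 : ℕ) : ℝ) * LL = LL + n * LL := by push_cast; ring
    rw [e, hadd, hφ, hlat, hφ', add_assoc, Z11_lat_add]

end Pool.Agent.H385A
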