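import Mathlib
import Pool.Agent.H385Z.Defs
import Pool.Agent.H385Z.ZRun

/-!
MP_7d4c8f_an: on exact states the registers are forgotten exponentially fast
-/

set_option autoImplicit false

open Set Filter Topology

namespace Pool.Agent.H385A

open Pool.Agent.Aub

/-- the tops of the stacks are readable without ambiguity -/
def Ex (S : Stk) (i : Fin 3) : Prop :=
  (∃ β : Bool, 0 ≤ S i 0 - vb β ∧ S i 0 - vb β ≤ 1/16) ∧
  (∃ β : Bool, 0 ≤ S i 1 - vb β ∧ S i 1 - vb β ≤ 1/16) ∧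
  ∃ D : ℕ, D ≤ mm ∧ 0 ≤ S i 4 - D ∧ S i 4 - D ≤ 1/16

theorem rl_Ex (l : List Cell) (hD : Dle l) : ∀ (ty : Ty) (δ p i : Fin 3), Ex (rl ty δ p l) i := by
  induction l with
  | nil =>
    intro ty δ p i
    refine ⟨⟨false, ?_⟩, ⟨false, ?_⟩, 1, by unfold mm; norm_num, ?_⟩
    · show 0 ≤ 0 - vb false ∧ 0 - vb false ≤ 1/16
      simp [vb]
    · show 0 ≤ 0 - vb false ∧ 0 - vb false ≤ 1/16
      simp [vb]
    · show 0 ≤ lam / (lam - 1) - ((1 : ℕ) : ℝ) ∧ lam / (lam - 1) - ((1 : ℕ) : ℝ) ≤ 1/16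
      unfold lam
      norm_num
  | cons a tl ih =>
    intro ty δ p i
    have htl : Dle tl := fun c hc => hD c (List.mem_cons_of_mem _ hc)
    by_cases hi : i = posn δ ty p
    · have e : ∀ tr, rl ty δ p (a :: tl) i tr = a.val tr +
          rl (sT ty a.b) (-δ) (subP δ ty p) tl i tr / lam := by
        intro tr
        rw [rl]
        exact if_pos hi
      have hs : ∀ tr, 0 ≤ rl ty δ p (a :: tl) i tr - a.val tr ∧
          rl ty δ p (a :: tl) i tr - a.val tr ≤ 1/16 := by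
        intro tr
        have h5 := rl_range tl htl (sT ty a.b) (-δ) (subP δ ty p) i tr
        rw [e, add_sub_cancel_left]
        exact ⟨div_nonneg h5.1 X08_lam.le, X08_small h5.2.1⟩
      exact ⟨⟨a.b, hs 0⟩, ⟨a.c, hs 1⟩, a.D 2, hD a List.mem_cons_self 2, hs 4⟩
    · have e : rl ty δ p (a :: tl) i = rl (sT ty a.b) (-δ) (subP δ ty p) tl i := by
        funext tr
        rw [rl]
        exact if_neg hi
      have := ih htl (sT ty a.b) (-δ) (subP δ ty p) i
      unfold Ex at this ⊢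
      rw [e]
      exact this

theorem cm_regf (cc : Clamp (5/4)) (cx : Clamp (mm + 1/2)) (b : Bool) (s d : Fin 3) (r : ℝ)
    (S : Stk) (hS : Ex S s) : ∃ c : Fin 12 → ℝ, ∀ z : Zs, stk (M0 cc cx s d z) = S →
      (∀ k, k ≠ 0 → |reg z k| ≤ 1/16) → ∀ k, k ≠ 0 →
      reg (cm cc cx b s d r z) k = Real.exp (-16) * (reg z k + c k) := by
  obtain ⟨⟨β, hβ⟩, -, D, hD, hD2⟩ := hS
  refine ⟨fun k => reg (f1 s d (mkz S 0)) k +
    (![0, 0, 0, 0, 0, 0, 0, 0, 0, 0,
      (1 - vb β) * gT (S d 0) * cT D (S d 2) - (1 - vb β) * bt D (S d 2),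
      (1 - vb β) * gt (S d 0) * ct D (S d 2) - (1 - vb β) * bT D (S d 2)] : Fin 12 → ℝ) k, ?_⟩
  intro z hz hR k hk
  obtain ⟨z1, z2, z3, z4, z5, h1, h2, h3, h4, h5, h6⟩ := X02_cm cc cx b s d r z
  rw [h6, M6, X02_reg_mkz]
  simp only [hk, if_false]
  have a5 : reg z5 k = reg z4 k := by
    rw [h5, X02_reg_add]; simp [f5, X02_reg_mkz]
  have a4 : reg z4 k = reg z3 k := by rw [h4, M4, X02_reg_mkz]
  have a3 : reg z3 k = reg z2 k := by
    rw [h3, X02_reg_add]; simp [f3, X02_reg_mkz]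
  have a2 : reg z2 k = reg z1 k + reg (f2 d z1) k := by rw [h2, X02_reg_add]
  have ef1 : f1 s d (M0 cc cx s d z) = f1 s d (mkz S 0) := by
    unfold f1
    rw [hz, X02_stk_mkz]
  have a1 : ∀ k, reg z1 k = reg z k + reg (f1 s d (mkz S 0)) k := by
    intro k
    rw [h1, X02_reg_add, ef1]; rfl
  have s1 : stk z1 = S := by
    funext i tr
    rw [h1, X02_stk_add, hz]
    simp [f1, X02_stk_mkz]
  have q1 : Sc (reg z1 1) = vb β := by
    have e1 : Sc (S s 0) = vb β := by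
      apply X06_Sc
      rw [abs_of_nonneg hβ.1]
      linarith [hβ.2]
    have e2 : reg z1 1 = reg z 1 + vb β := by rw [a1 1, ← e1]; rfl
    apply X06_Sc
    rw [e2, add_sub_cancel_right]
    exact (hR 1 (by decide)).trans (by norm_num)
  have q6 : Qx (reg z1 6) = D := by
    have e1 : S1 (S s 4) = D := X06_S1 hD (by linarith [hD2.1]) (by linarith [hD2.2])
    have e2 : reg z1 6 = reg z 6 + D := by rw [a1 6, X03_f1_6, X02_stk_mkz, e1]
    apply X06_Qx hD
    rw [e2, add_sub_cancel_right]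
    exact hR 6 (by decide)
  have ef2 : reg (f2 d z1) = ![0, 0, 0, 0, 0, 0, 0, 0, 0, 0,
      (1 - vb β) * gT (S d 0) * cT D (S d 2) - (1 - vb β) * bt D (S d 2),
      (1 - vb β) * gt (S d 0) * ct D (S d 2) - (1 - vb β) * bT D (S d 2)] := by
    unfold f2
    rw [X02_reg_mkz, q1, q6, s1]
  rw [a5, a4, a3, a2, a1, ef2, add_assoc]

theorem tick_regf (cc : Clamp (5/4)) (cx : Clamp (mm + 1/2)) (ty : Ty) (p : Fin 3)
    (l : List Cell) (hD : Dle l) (hv : Val ty l) : ∃ c : Fin 12 → ℝ, ∀ z : Zs,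
      (∀ k, |reg z k| ≤ 1/16) → stk z = rl ty 1 p l → ∀ k,
      reg (tick cc cx ty p (if false then 1 else 0) z) k =
        (if k = 0 then Real.exp (-16) else Real.exp (-16) * Real.exp (-16)) * reg z k + c k := by
  have h10 : (1 : Fin 3) ≠ 0 := by decide
  have hv' := (st_val ty false l hD hv).2
  have hpm : p - 1 ≠ p + 1 := (X08_f1 p 1 h10).1
  obtain ⟨κ, hκ⟩ : ∃ κ : Bool, (if ty = Ty.E then 1 else Sc (rl ty 1 p l p 1)) = vb κ := by
    split_ifs
    · exact ⟨true, by simp [vb]⟩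
    · obtain ⟨-, ⟨β, hβ⟩, -⟩ := rl_Ex l hD ty 1 p p
      refine ⟨β, X06_Sc ?_⟩
      rw [abs_of_nonneg hβ.1]
      linarith [hβ.2]
  obtain ⟨c1, hc1⟩ := cm_regf cc cx true (p - 1) (p + 1)
    (if ty = Ty.E then (if false then 1 else 0) else 0) _ (rl_Ex l hD ty 1 p (p - 1))
  obtain ⟨c2, hc2⟩ := cm_regf cc cx false (p + 1) (p - 1) 0
    (if κ then rl ty.other 1 (p + 1) (st ty false l) else rl ty 1 p l) (by
      split_ifs
      · exact rl_Ex _ hv' _ _ _ _
      · exact rl_Ex _ hD _ _ _ _)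
  refine ⟨fun k => if k = 0 then Real.exp (-16) * vb κ else
    Real.exp (-16) * (Real.exp (-16) * c1 k + c2 k), ?_⟩
  intro z hR hz k
  have hex := tick_exact cc cx ty p false l hD hv z hR hz
  obtain ⟨w1, hw1⟩ : ∃ w1 : Zs, w1 = z + g0 ty p z := ⟨_, rfl⟩
  have hs1 : stk w1 = rl ty 1 p l := by
    rw [← hz]
    funext i tr
    rw [hw1, X08_stk_add]
    simp [g0, X08_stk_mkz]
  have hr1 : ∀ k, k ≠ 0 → reg w1 k = reg z k := by
    intro k hk
    rw [hw1, X08_reg_add]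
    simp [g0, X08_reg_mkz, hk]
  have hr10 : reg w1 0 = reg z 0 + vb κ := by
    rw [hw1, X08_reg_add, ← hκ, ← hz]
    simp [g0, X08_reg_mkz]
  have hR1 : ∀ k, k ≠ 0 → |reg w1 k| ≤ 1/16 := fun k hk => by rw [hr1 k hk]; exact hR k
  have hsc : Sc (reg w1 0) = vb κ := by
    apply X06_Sc
    rw [hr10, add_sub_cancel_right]
    exact (hR 0).trans (by norm_num)
  obtain ⟨hc0, hck⟩ := cm_reg cc cx true (p - 1) (p + 1) hpm
    (if ty = Ty.E then (if false then 1 else 0) else 0) w1 hR1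
  have hd1 := hc1 w1 (X08_M0 cc cx _ _ w1 hD hs1) hR1
  have hz1 := cm_zero cc cx true (p - 1) (p + 1) hpm
    (if ty = Ty.E then (if false then 1 else 0) else 0) w1
  obtain ⟨w2, hw2⟩ : ∃ w2 : Zs, w2 = cm cc cx true (p - 1) (p + 1)
    (if ty = Ty.E then (if false then 1 else 0) else 0) w1 := ⟨_, rfl⟩
  have ht : tick cc cx ty p (if false then 1 else 0) z =
      N1 (cm cc cx false (p + 1) (p - 1) 0 w2) := by
    rw [hw2, hw1]
    rfl
  rw [← hw2] at hc0 hck hd1 hz1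
  have hR2 : ∀ k, k ≠ 0 → |reg w2 k| ≤ 1/16 := fun k hk => (hck k hk).trans (by norm_num)
  have hM2 : stk (M0 cc cx (p + 1) (p - 1) w2) =
      if κ then rl ty.other 1 (p + 1) (st ty false l) else rl ty 1 p l := by
    cases κ with
    | true =>
      rw [if_pos rfl, ← hex, ht,
        ← cm_zero cc cx false (p + 1) (p - 1) hpm.symm 0 w2 (by simp [Wt, hc0, hsc, vb])]
      rfl
    | false =>
      rw [if_neg (by simp)]
      refine X08_M0 cc cx _ _ w2 hD ?_
      rw [hz1 (by simp [Wt, hsc, vb])]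
      exact X08_M0 cc cx _ _ w1 hD hs1
  have hd2 := hc2 w2 hM2 hR2
  obtain ⟨he0, -⟩ := cm_reg cc cx false (p + 1) (p - 1) hpm.symm 0 w2 hR2
  rw [ht]
  by_cases hk : k = 0
  · subst hk
    show Real.exp (-16) * reg (cm cc cx false (p + 1) (p - 1) 0 w2) 0 = _
    rw [he0, hc0, hr10]
    simp only [if_true]
    ring
  · have e : reg (N1 (cm cc cx false (p + 1) (p - 1) 0 w2)) k =
        reg (cm cc cx false (p + 1) (p - 1) 0 w2) k := by
      change (if k = 0 then _ else _) = _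
      rw [if_neg hk]
    rw [e, hd2 k hk, hd1 k hk, hr1 k hk]
    simp only [hk, if_false]
    ring

theorem tick_regdiff (cc : Clamp (5/4)) (cx : Clamp (mm + 1/2)) (ty : Ty) (p : Fin 3)
    (l : List Cell) (hD : Dle l) (hv : Val ty l) (z z' : Zs)
    (hR : ∀ k, |reg z k| ≤ 1/16) (hz : stk z = rl ty 1 p l)
    (hR' : ∀ k, |reg z' k| ≤ 1/16) (hz' : stk z' = rl ty 1 p l) (k : Fin 12) :
    |reg (tick cc cx ty p (if false then 1 else 0) z) k -
      reg (tick cc cx ty p (if false then 1 else 0) z') k| ≤ 1/2 * |reg z k - reg z' k| := by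
  obtain ⟨c, hc⟩ := tick_regf cc cx ty p l hD hv
  rw [hc z hR hz k, hc z' hR' hz' k, add_sub_add_right_eq_sub, ← mul_sub, abs_mul]
  refine mul_le_mul_of_nonneg_right ?_ (abs_nonneg _)
  have h1 := X02_exp
  have h2 := Real.exp_pos (-16)
  split_ifs
  · rw [abs_of_pos h2]; linarith
  · rw [abs_of_pos (mul_pos h2 h2)]; nlinarith

theorem zrun_diff (cc : Clamp (5/4)) (cx : Clamp (mm + 1/2)) (l : List Cell) (hD : Dle l)
    (hv : Val Ty.E l) (R R' : Fin 12 → ℝ) (hR : ∀ k, |R k| ≤ 1/16) (hR' : ∀ k, |R' k| ≤ 1/16)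
    (k : Fin 12) : |reg (zrun cc cx false (mkz (rl Ty.E 1 0 l) R) 6) k -
      reg (zrun cc cx false (mkz (rl Ty.E 1 0 l) R') 6) k| ≤ 1/2 * |R k - R' k| := by
  have key1 : ∀ (R : Fin 12 → ℝ), (∀ k, |R k| ≤ 1/16) → ∀ j : ℕ, j ≤ 6 →
      stk (zrun cc cx false (mkz (rl Ty.E 1 0 l) R) j) =
        rl (tyj j) 1 (pj j) (run j (fun _ => false) Ty.E l) ∧
      (∀ k, |reg (zrun cc cx false (mkz (rl Ty.E 1 0 l) R) j) k| ≤ 1/16) ∧
      Dle (run j (fun _ => false) Ty.E l) ∧ Val (tyj j) (run j (fun _ => false) Ty.E l) := by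
    intro R hR j
    induction j with
    | zero => intro _; exact ⟨rfl, hR, hD, hv⟩
    | succ j ih =>
      intro hj
      obtain ⟨h2, h3, h5, h6⟩ := ih (by omega)
      have hS : ∀ i tr, |stk (zrun cc cx false (mkz (rl Ty.E 1 0 l) R) j) i tr| ≤ 2 ^ 32 :=
        fun i tr => (Z10_stk _ _ _ h5 _ h2 i tr).trans (by norm_num)
      have hex := tick_exact cc cx (tyj j) (pj j) false _ h5 h6 _ h3 h2
      have hrel := tick_rel cc cx (tyj j) (pj j) (if false then 1 else 0) (by norm_num)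
        (by norm_num) _ hS h3
      have hsv := st_val (tyj j) false _ h5 h6
      have hrun : run (j + 1) (fun _ => false) Ty.E l =
          st (tyj j) false (run j (fun _ => false) Ty.E l) := Z10_run false j Ty.E l
      refine ⟨?_, ?_, ?_, ?_⟩
      · rw [zrun, hex, hrun, Z10_tyj, Z10_pj j (by omega)]
      · intro k; exact (hrel.2.2 k).trans (by norm_num)
      · rw [hrun]; exact hsv.2
      · rw [hrun, ← Z10_tyj]; exact hsv.1
  have key2 : ∀ j : ℕ, j ≤ 6 → |reg (zrun cc cx false (mkz (rl Ty.E 1 0 l) R) j) k -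
      reg (zrun cc cx false (mkz (rl Ty.E 1 0 l) R') j) k| ≤ (1/2) ^ j * |R k - R' k| := by
    intro j
    induction j with
    | zero => intro _; rw [pow_zero, one_mul]; exact le_rfl
    | succ j ih =>
      intro hj
      obtain ⟨a1, a2, a3, a4⟩ := key1 R hR j (by omega)
      obtain ⟨b1, b2, -, -⟩ := key1 R' hR' j (by omega)
      have h1 := tick_regdiff cc cx (tyj j) (pj j) _ a3 a4 _ _ a2 a1 b2 b1 k
      have h2 := ih (by omega)
      rw [zrun, zrun, pow_succ]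
      linarith
  refine (key2 6 le_rfl).trans (mul_le_mul_of_nonneg_right (by norm_num) (abs_nonneg _))

/-- orbits with the same stacks are asymptotic -/
theorem run_pair (cc : Clamp (5/4)) (cx : Clamp (mm + 1/2)) (rh : Rho) {F : EE → EE}
    {φ : ℝ → EE → EE} (h : Realz 97 (YY cc cx rh) LL F φ) (n : ℕ) (l : List Cell)
    (hD : Dle l) (hv : Val Ty.E l) :
    ∃ (G : (Fin 12 → ℝ) → Fin 12 → ℝ) (m : Jx → ℤ),
      Dle (run (6 * n) (fun _ => false) Ty.E l) ∧
      Val Ty.E (run (6 * n) (fun _ => false) Ty.E l) ∧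
      (∀ R : Fin 12 → ℝ, (∀ k, |R k| ≤ 1/32) → (∀ k, |G R k| ≤ 1/32) ∧
        φ (n * LL) (pt l R 0) = pt (run (6 * n) (fun _ => false) Ty.E l) (G R) 0 + lat LL m) ∧
      ∀ R1 R2 : Fin 12 → ℝ, (∀ k, |R1 k| ≤ 1/32) → (∀ k, |R2 k| ≤ 1/32) →
        ∀ k, |G R1 k - G R2 k| ≤ (1/2) ^ n := by
  have hLL : (0 : ℝ) < LL := by unfold LL; positivity
  obtain ⟨K, B, hK, hB, _, _, hadd, hlat, _⟩ := flow_facts hLL h.smooth h.per h.flow
  obtain ⟨_, _, _, _, _, hpsi0⟩ := yo_facts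
  have hρ : rh.ρ 0 = if false then 1 else 0 := by
    rw [rh.zero 0 le_rfl hLL.le ?_]
    · simp
    · rw [zero_sub, abs_neg, abs_of_pos (by positivity)]
      unfold LL
      norm_num
  induction n with
  | zero =>
    have h0 : ∀ x, φ 0 x = x := h.flow.1
    refine ⟨fun R => R, 0, hD, hv, fun R hR => ⟨hR, ?_⟩, fun R1 R2 hR1 hR2 k => ?_⟩
    · rw [Z11_lat_zero]
      simp only [Nat.cast_zero, zero_mul, h0, add_zero]
      rfl
    · have a1 := abs_le.1 (hR1 k)
      have a2 := abs_le.1 (hR2 k)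
      rw [pow_zero, abs_le]
      constructor <;> linarith [a1.1, a1.2, a2.1, a2.2]
  | succ n ih =>
    obtain ⟨G, m, hD', hv', hG, hdiff⟩ := ih
    have hper := fun (R : Fin 12 → ℝ) (hR : ∀ k, |R k| ≤ 1/32) =>
      period_exact cc cx rh h _ hD' hv' R
        (fun k => (hR k).trans (by norm_num)) 0 0 false hρ
        ⟨fun _ => 0, rfl, rfl, fun u => by rw [hpsi0]; exact hasDerivAt_const _ _⟩
    obtain ⟨-, -, -, hD'', hv'', -⟩ := hper 0 (fun k => by simp)
    rw [Z11_run_step n _ l false (fun _ _ => rfl)]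
    have e : ((n + 1 : ℕ) : ℝ) * LL = LL + n * LL := by push_cast; ring
    refine ⟨fun R => reg (zrun cc cx false
      (mkz (rl Ty.E 1 0 (run (6 * n) (fun _ => false) Ty.E l)) (G R)) 6),
      Pi.single (Sum.inr 1) 1 + m, hD'', hv'', fun R hR => ?_, fun R1 R2 hR1 hR2 k => ?_⟩
    · obtain ⟨g1, g2⟩ := hG R hR
      obtain ⟨R', hR', hφ', -, -, e1⟩ := hper (G R) g1
      beta_reduce
      rw [← e1]
      refine ⟨hR', ?_⟩
      rw [e, hadd, g2, hlat, hφ', add_assoc, Z11_lat_add]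
    · have h1 := zrun_diff cc cx _ hD' hv' (G R1) (G R2)
        (fun k => ((hG R1 hR1).1 k).trans (by norm_num))
        (fun k => ((hG R2 hR2).1 k).trans (by norm_num)) k
      beta_reduce
      rw [pow_succ]
      linarith [hdiff R1 R2 hR1 hR2 k]

end Pool.Agent.H385A
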