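import Mathlib
import Pool.Agent.H385Z.Defs
import Pool.Agent.Helper981.QA.P14
import Pool.Agent.H385Z.XRange
import Pool.Agent.H385Z.XRegD
import Pool.Agent.H385Z.Q18
import Pool.Agent.H385Z.Q21
import Pool.Agent.H385Z.Q22

/-!
MP_7d4c8f_an, recurrent exact states: recur
-/

set_option autoImplicit false

open Set Filter Topology MeasureTheory
open scoped ContDiff

namespace Pool.Agent.H385A

open Pool.Agent.Aub
open Pool.Agent.QA (bN bN_tri bN_move bN_lat bN_omega hT_flow hT_concat hT_lat gen_flow hT_move)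


theorem bN_omega2 {ι : Type} [Fintype ι] {P : ℝ} (hP : 0 < P)
    {F : EuclideanSpace ℝ ι → EuclideanSpace ℝ ι} (hs : ContDiff ℝ ∞ F) (hF : PerField P F)
    {φ : ℝ → EuclideanSpace ℝ ι → EuclideanSpace ℝ ι} (hφ : IsFlow F φ)
    (x0 x : EuclideanSpace ℝ ι) (n : ℕ → ℕ) (hn : Tendsto n atTop atTop)
    (y : ℕ → EuclideanSpace ℝ ι) (k : ℕ → ι → ℤ)
    (hy : ∀ j, φ (n j) x0 = y j + lat P (k j)) (hx : Tendsto y atTop (𝓝 x)) :
    bN P F x0 x = 0 := by
  obtain ⟨K, B, hK0, _, hKL, _, hgr, heq, _⟩ := gen_flow hP hs hF hφ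
  have hFc : Continuous F := hs.continuous
  refine le_antisymm ?_ bot_le
  refine ENNReal.le_of_forall_pos_le_add fun ε hε _ => ?_
  rw [zero_add]
  refine Filter.liminf_le_of_frequently_le' ?_
  rw [Filter.frequently_atTop]
  intro a
  have hlim : Tendsto (fun j => (1 + 1 / (1:ℝ)) * (1 + K) ^ 2 * ‖y j - x‖ ^ 2) atTop (𝓝 0) := by
    have h1 : Tendsto (fun j => ‖y j - x‖) atTop (𝓝 0) := by
      have := (hx.sub_const x).norm
      simpa using this
    have h2 := (h1.pow 2).const_mul ((1 + 1 / (1:ℝ)) * (1 + K) ^ 2)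
    simpa using h2
  have hε' : (0:ℝ) < (ε:ℝ) := by exact_mod_cast hε
  obtain ⟨j, hj1, hj2⟩ := ((hlim.eventually (gt_mem_nhds hε')).and
    (hn.eventually_ge_atTop (2 + a))).exists
  refine ⟨n j, by omega, ?_⟩
  have hT2 : (2:ℝ) ≤ (n j : ℝ) := by exact_mod_cast (by omega : 2 ≤ n j)
  have hT0 : (0:ℝ) ≤ (n j : ℝ) := by linarith
  have z1 := hT_flow P hFc hφ (n j) hT0 x0
  have z3 := hT_lat P hF (n j) hT0 x0 (y j) 0 (k j)
  rw [QA.P10_lat_zero, add_zero, ← hy j, z1] at z3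
  have z4 := hT_move P hFc K hK0 hKL (n j) hT2 x0 (y j) x0 x 1 one_pos
  rw [← z3, mul_zero, zero_add, sub_self, norm_zero] at z4
  refine z4.trans ?_
  have z5 : (1 + 1 / (1:ℝ)) * (1 + K) ^ 2 * (0 ^ 2 + ‖y j - x‖ ^ 2) ≤ (ε:ℝ) := by
    have : (1 + 1 / (1:ℝ)) * (1 + K) ^ 2 * (0 ^ 2 + ‖y j - x‖ ^ 2) =
      (1 + 1 / (1:ℝ)) * (1 + K) ^ 2 * ‖y j - x‖ ^ 2 := by ring
    rw [this]
    linarith
  refine (ENNReal.ofReal_le_ofReal z5).trans ?_
  rw [ENNReal.ofReal_coe_nnreal]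

theorem P23_tendsto (S : ℕ → Stk) (S0 : Stk) (R : ℕ → Fin 12 → ℝ)
    (R0 : Fin 12 → ℝ) (hS : ∀ i tr, Tendsto (fun j => S j i tr) atTop (𝓝 (S0 i tr)))
    (hR : Tendsto R atTop (𝓝 R0)) :
    Tendsto (fun j => mkp (mkz (S j) (R j)) 0 0) atTop (𝓝 (mkp (mkz S0 R0) 0 0)) := by
  unfold mkp
  refine ((PiLp.continuous_toLp 2 _).tendsto _).comp ?_
  rw [tendsto_pi_nhds]
  rintro ((⟨i, tr⟩ | k) | a)
  · exact hS _ _
  · exact (tendsto_pi_nhds.1 hR) _
  · exact tendsto_const_nhds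

theorem recur (cc : Clamp (5/4)) (cx : Clamp (mm + 1/2)) (rh : Rho) {F : EE → EE}
    {φ : ℝ → EE → EE} (h : Realz 97 (YY cc cx rh) LL F φ) (l : List Cell) (hl : Good l) :
    ∃ R : Fin 12 → ℝ, (∀ k, |R k| ≤ 1/32) ∧ ∀ R1 : Fin 12 → ℝ, (∀ k, |R1 k| ≤ 1/32) →
      bN LL F (pt l R1 0) (pt l R 0) = 0 := by
  classical
  obtain ⟨hD, hv, hb⟩ := good_facts l hl
  choose G m hDle hVal hG hdiff using
    fun D : ℕ => run_pair cc cx rh h (2 ^ (6 * D + 1)) l hD (hv Ty.E)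
  have h00 : ∀ k, |(0 : Fin 12 → ℝ) k| ≤ 1/32 := by intro k; simp
  have hcomp : IsCompact (Metric.closedBall (0 : Fin 12 → ℝ) (1/32)) := isCompact_closedBall _ _
  have hmem : ∀ D, G D 0 ∈ Metric.closedBall (0 : Fin 12 → ℝ) (1/32) := by
    intro D
    rw [mem_closedBall_zero_iff, pi_norm_le_iff_of_nonneg (by norm_num)]
    intro k
    rw [Real.norm_eq_abs]
    exact (hG D 0 h00).1 k
  obtain ⟨R0, hR0, θ, hθ, hlim⟩ := hcomp.tendsto_subseq hmem
  refine ⟨R0, ?_, fun R1 hR1 => ?_⟩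
  · rw [mem_closedBall_zero_iff, pi_norm_le_iff_of_nonneg (by norm_num)] at hR0
    intro k
    rw [← Real.norm_eq_abs]
    exact hR0 k
  · have hclose : ∀ D i tr, |rl Ty.E 1 0 (run (6 * 2 ^ (6 * D + 1)) (fun _ => false) Ty.E l) i tr
        - rl Ty.E 1 0 l i tr| ≤ (mm + 1) / lam ^ D := by
      intro D i tr
      have hr := run_good (6 * D) 6 l hl
      rw [mul_comm (2 ^ (6 * D + 1)) 6] at hr
      rw [abs_sub_comm]
      exact rl_close2 D l _ hD (hDle D) (hb _) hr i tr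
    have hlam : Tendsto (fun D : ℕ => ((mm : ℝ) + 1) / lam ^ D) atTop (𝓝 0) := by
      apply tendsto_const_nhds.div_atTop
      apply tendsto_pow_atTop_atTop_of_one_lt
      unfold lam
      norm_num
    have hS : ∀ i tr, Tendsto (fun j => rl Ty.E 1 0
        (run (6 * 2 ^ (6 * (θ j) + 1)) (fun _ => false) Ty.E l) i tr) atTop
        (𝓝 (rl Ty.E 1 0 l i tr)) := by
      intro i tr
      rw [tendsto_iff_norm_sub_tendsto_zero]
      refine squeeze_zero (fun j => norm_nonneg _) (fun j => ?_) (hlam.comp hθ.tendsto_atTop)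
      rw [Real.norm_eq_abs]
      exact hclose (θ j) i tr
    have hn0 : Tendsto (fun j : ℕ => 2 ^ (6 * (θ j) + 1)) atTop atTop := by
      refine tendsto_atTop_mono (fun j => ?_) hθ.tendsto_atTop
      have h1 : 6 * (θ j) + 1 < 2 ^ (6 * (θ j) + 1) := Nat.lt_two_pow_self
      omega
    have hn : Tendsto (fun j : ℕ => 2 ^ (6 * (θ j) + 1) * 2 ^ 40) atTop atTop := by
      refine tendsto_atTop_mono (fun j => ?_) hn0
      exact Nat.le_mul_of_pos_right _ (by norm_num)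
    have hlim1 : Tendsto (fun j => G (θ j) R1) atTop (𝓝 R0) := by
      rw [tendsto_pi_nhds]
      intro k
      have h1 : Tendsto (fun j => G (θ j) R1 k - G (θ j) 0 k) atTop (𝓝 0) := by
        have h2 : Tendsto (fun n : ℕ => ((1:ℝ)/2) ^ n) atTop (𝓝 0) :=
          tendsto_pow_atTop_nhds_zero_of_lt_one (by norm_num) (by norm_num)
        rw [tendsto_zero_iff_norm_tendsto_zero]
        refine squeeze_zero (fun j => norm_nonneg _) (fun j => ?_) (h2.comp hn0)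
        rw [Real.norm_eq_abs]
        exact hdiff (θ j) R1 0 hR1 h00 k
      have h3 : Tendsto (fun j => G (θ j) 0 k) atTop (𝓝 (R0 k)) := (tendsto_pi_nhds.1 hlim) k
      have h4 := h1.add h3
      simpa using h4
    refine bN_omega2 (P := LL) (Fact.out) h.smooth h.per h.flow (pt l R1 0) (pt l R0 0)
      (fun j : ℕ => 2 ^ (6 * (θ j) + 1) * 2 ^ 40) hn
      (fun j => pt (run (6 * 2 ^ (6 * (θ j) + 1)) (fun _ => false) Ty.E l) (G (θ j) R1) 0)
      (fun j => m (θ j)) ?_ ?_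
    · intro j
      have h1 := (hG (θ j) R1 hR1).2
      have h2 : ((2 ^ (6 * (θ j) + 1) * 2 ^ 40 : ℕ) : ℝ) = ((2 ^ (6 * (θ j) + 1) : ℕ) : ℝ) * LL := by
        unfold LL
        push_cast
        ring
      rw [h2]
      exact h1
    · exact P23_tendsto _ _ _ _ hS hlim1

end Pool.Agent.H385A
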