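import Mathlib
import Pool.Agent.H385Z.Defs
import Pool.Agent.Helper981.QA.P14
import Pool.Agent.H385Z.XRange
import Pool.Agent.Helper981.QA.P08
import Pool.Agent.Helper981.QA.P13
import Pool.Agent.H385Z.Q18
import Pool.Agent.H385Z.Q20
import Pool.Agent.H385Z.Q23

/-!
MP_7d4c8f_an, the path of Aubry points: path
-/

set_option autoImplicit false

open Set Filter Topology MeasureTheory
open scoped ContDiff

namespace Pool.Agent.H385A

open Pool.Agent.Aub
open Pool.Agent.QA (bN bN_tri bN_move bN_lat bN_omega hT_flow hT_concat hT_lat gen_flow)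


/-- a bound for the norms of the states -/
noncomputable def P24_bd : ℝ := Real.sqrt (∑ _i : Jx, ((mm : ℝ) + 1) ^ 2)

theorem P24_pt_mem (l : List Cell) (hD : Dle l) (R : Fin 12 → ℝ) (hR : ∀ k, |R k| ≤ 1/32) :
    pt l R 0 ∈ Metric.closedBall (0 : EE) P24_bd := by
  have hmm : (0 : ℝ) ≤ mm := by positivity
  rw [mem_closedBall_zero_iff, EuclideanSpace.norm_eq, P24_bd]
  refine Real.sqrt_le_sqrt (Finset.sum_le_sum fun i _ => ?_)
  have key : ‖(pt l R 0) i‖ ≤ (mm : ℝ) + 1 := by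
    rw [Real.norm_eq_abs]
    rcases i with (⟨a, b⟩ | k) | k
    · have h1 := rl_range l hD Ty.E 1 0 a b
      have h2 : (pt l R 0) (Sum.inl (Sum.inl (a, b))) = rl Ty.E 1 0 l a b := rfl
      rw [h2, abs_le]
      constructor <;> linarith [h1.1, h1.2.1]
    · have h2 : (pt l R 0) (Sum.inl (Sum.inr k)) = R k := rfl
      rw [h2]
      linarith [hR k]
    · fin_cases k
      · have h2 : (pt l R 0) (Sum.inr 0) = 0 := rfl
        show |(pt l R 0) (Sum.inr 0)| ≤ _
        rw [h2, abs_zero]; linarith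
      · have h2 : (pt l R 0) (Sum.inr 1) = 0 := rfl
        show |(pt l R 0) (Sum.inr 1)| ≤ _
        rw [h2, abs_zero]; linarith
  exact pow_le_pow_left₀ (norm_nonneg _) key 2

theorem bN_flow {ι : Type} [Fintype ι] {P : ℝ}
    {F : EuclideanSpace ℝ ι → EuclideanSpace ℝ ι} (hFc : Continuous F) (hF : PerField P F)
    {φ : ℝ → EuclideanSpace ℝ ι → EuclideanSpace ℝ ι} (hφ : IsFlow F φ) (n : ℕ)
    (x y : EuclideanSpace ℝ ι) : bN P F x y ≤ bN P F (φ n x) y := by
  unfold bN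
  rw [← Filter.liminf_nat_add (fun j : ℕ => hT P F j x y) n]
  refine Filter.liminf_le_liminf (Eventually.of_forall fun j => ?_)
  have h1 := hT_concat P hF n j (Nat.cast_nonneg n) (Nat.cast_nonneg j) x (φ n x) y
  rw [hT_flow P hFc hφ n (Nat.cast_nonneg n) x, zero_add] at h1
  have e : ((j + n : ℕ) : ℝ) = (n : ℝ) + j := by push_cast; ring
  rw [e]
  exact h1

theorem pt_close (l l' : List Cell) (R : Fin 12 → ℝ) (η : ℝ) (hη : 0 ≤ η)
    (h : ∀ i tr, |rl Ty.E 1 0 l i tr - rl Ty.E 1 0 l' i tr| ≤ η) :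
    ‖pt l R 0 - pt l' R 0‖ ^ 2 ≤ (Fintype.card Jx : ℝ) * η ^ 2 := by
  rw [EuclideanSpace.norm_sq_eq]
  have key : ∀ i : Jx, ‖(pt l R 0 - pt l' R 0) i‖ ^ 2 ≤ η ^ 2 := by
    intro i
    refine pow_le_pow_left₀ (norm_nonneg _) ?_ 2
    rw [Real.norm_eq_abs]
    rcases i with (⟨a, b⟩ | k) | k
    · exact h a b
    · have h2 : (pt l R 0 - pt l' R 0) (Sum.inl (Sum.inr k)) = R k - R k := rfl
      rw [h2, sub_self, abs_zero]
      exact hη
    · have h2 : (pt l R 0 - pt l' R 0) (Sum.inr k) =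
        (![0, 0] : Fin 2 → ℝ) k - (![0, 0] : Fin 2 → ℝ) k := rfl
      rw [h2, sub_self, abs_zero]
      exact hη
  calc ∑ i, ‖(pt l R 0 - pt l' R 0) i‖ ^ 2 ≤ ∑ _i : Jx, η ^ 2 := Finset.sum_le_sum fun i _ => key i
    _ = (Fintype.card Jx : ℝ) * η ^ 2 := by
      rw [Finset.sum_const, Finset.card_univ, nsmul_eq_mul]

theorem upper (cc : Clamp (5/4)) (cx : Clamp (mm + 1/2)) (rh : Rho) {F : EE → EE}
    {φ : ℝ → EE → EE} (h : Realz 97 (YY cc cx rh) LL F φ) (ε : ℝ) (hε : 0 < ε) :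
    ∃ δ : ℝ, 0 < δ ∧ ∀ (l l' : List Cell) (R : Fin 12 → ℝ) (a' : EE), Good l → Good l' →
      (∀ k, |R k| ≤ 1/32) → bN LL F (pt l R 0) (pt l R 0) = 0 →
      (∀ R1 : Fin 12 → ℝ, (∀ k, |R1 k| ≤ 1/32) → bN LL F (pt l' R1 0) a' = 0) →
      |val l - val l'| < δ → bN LL F (pt l R 0) a' ≤ ENNReal.ofReal ε := by
  obtain ⟨K, B, hK0, hB0, hK, -, -, -, -⟩ := gen_flow (P := LL) Fact.out h.smooth h.per h.flow
  have hFc : Continuous F := h.smooth.continuous
  have hlam : Tendsto (fun D : ℕ => (1 + 1 / 1) * (1 + K) ^ 2 *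
      ((Fintype.card Jx : ℝ) * (((mm : ℝ) + 1) / lam ^ D) ^ 2)) atTop (𝓝 0) := by
    have h1 : Tendsto (fun D : ℕ => ((mm : ℝ) + 1) / lam ^ D) atTop (𝓝 0) := by
      apply tendsto_const_nhds.div_atTop
      apply tendsto_pow_atTop_atTop_of_one_lt
      unfold lam
      norm_num
    have h2 := ((h1.pow 2).const_mul (Fintype.card Jx : ℝ)).const_mul
      ((1 + 1 / 1 : ℝ) * (1 + K) ^ 2)
    simpa using h2
  obtain ⟨D, hDε⟩ := (hlam.eventually (gt_mem_nhds (half_pos hε))).exists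
  refine ⟨1 / MM ^ (6 * D), by have := P18_MMpos; positivity, ?_⟩
  intro l l' R a' hl hl' hR haa ha' hv
  obtain ⟨l0, hD0, hv0, hA0, k, hA1⟩ := sym_reach (6 * D) l l' hl hl' hv
  obtain ⟨R'', m, hR'', hφ, hD1, -⟩ := run_zero cc cx rh h k l0 hD0 hv0 R hR
  obtain ⟨hD, -, hb⟩ := good_facts l hl
  obtain ⟨hD', -, hb'⟩ := good_facts l' hl'
  have hη : (0 : ℝ) ≤ ((mm : ℝ) + 1) / lam ^ D := by
    have := X13_lam
    positivity
  have c1 := pt_close l l0 R _ hη (rl_close2 D l l0 hD hD0 (hb _) hA0)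
  have c2 := pt_close l' _ R'' _ hη (rl_close2 D l' _ hD' hD1 (hb' _) hA1)
  have hc : (0 : ℝ) ≤ (1 + 1 / 1) * (1 + K) ^ 2 := by positivity
  have s1 : bN LL F (pt l R 0) (pt l0 R 0) ≤ ENNReal.ofReal (ε / 2) := by
    have h2 := bN_move (P := LL) hFc K hK0 hK (pt l R 0) (pt l R 0) (pt l R 0) (pt l0 R 0) 1 one_pos
    rw [haa, mul_zero, zero_add, sub_self, norm_zero] at h2
    refine h2.trans (ENNReal.ofReal_le_ofReal ?_)
    have := mul_le_mul_of_nonneg_left c1 hc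
    nlinarith
  have s2 : bN LL F (pt (run (6 * k) (fun _ => false) Ty.E l0) R'' 0) a' ≤
      ENNReal.ofReal (ε / 2) := by
    have h2 := bN_move (P := LL) hFc K hK0 hK (pt l' R'' 0) a'
      (pt (run (6 * k) (fun _ => false) Ty.E l0) R'' 0) a' 1 one_pos
    rw [ha' R'' hR'', mul_zero, zero_add, sub_self, norm_zero] at h2
    refine h2.trans (ENNReal.ofReal_le_ofReal ?_)
    have := mul_le_mul_of_nonneg_left c2 hc
    unfold rn at this
    nlinarith
  have s3 : bN LL F (pt l0 R 0) a' ≤ ENNReal.ofReal (ε / 2) := by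
    have h1 := bN_flow hFc h.per h.flow (k * 2 ^ 40) (pt l0 R 0) a'
    have e : ((k * 2 ^ 40 : ℕ) : ℝ) = (k : ℝ) * LL := by
      unfold LL
      push_cast
      ring
    have h3 := bN_lat h.per (pt (run (6 * k) (fun _ => false) Ty.E l0) R'' 0) a' m 0
    rw [QA.P10_lat_zero, add_zero] at h3
    rw [e, hφ, h3] at h1
    exact h1.trans s2
  calc bN LL F (pt l R 0) a' ≤ bN LL F (pt l R 0) (pt l0 R 0) + bN LL F (pt l0 R 0) a' :=
        bN_tri h.per _ _ _
    _ ≤ ENNReal.ofReal (ε / 2) + ENNReal.ofReal (ε / 2) := add_le_add s1 s3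
    _ = ENNReal.ofReal ε := by
        rw [← ENNReal.ofReal_add (half_pos hε).le (half_pos hε).le, add_halves]

theorem path (cc : Clamp (5/4)) (cx : Clamp (mm + 1/2)) (rh : Rho) {F : EE → EE}
    {φ : ℝ → EE → EE} (h : Realz 97 (YY cc cx rh) LL F φ) :
    ∃ (C : ℝ) (f : Icc (0 : ℝ) 1 → EE), 0 < C ∧ (∀ t, bN LL F (f t) (f t) = 0) ∧
      (∀ s t : Icc (0 : ℝ) 1,
        ENNReal.ofReal ((t : ℝ) - s) ≤ ENNReal.ofReal C * bN LL F (f s) (f t)) ∧
      ∀ ε : ℝ, 0 < ε → ∃ δ : ℝ, 0 < δ ∧ ∀ s t : Icc (0 : ℝ) 1, |(s : ℝ) - t| < δ →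
        bN LL F (f s) (f t) ≤ ENNReal.ofReal ε := by
  obtain ⟨C, hC, hlow⟩ := lower2 cc cx rh h
  obtain ⟨K, B, hK0, hB0, hK, -, -, -, -⟩ := gen_flow (P := LL) Fact.out h.smooth h.per h.flow
  have hFc : Continuous F := h.smooth.continuous
  have key : ∀ t : Icc (0 : ℝ) 1, ∃ (a : EE) (l : ℕ → List Cell) (R : ℕ → Fin 12 → ℝ),
      (∀ j, Good (l j) ∧ (∀ k, |R j k| ≤ 1/32) ∧
        ∀ R1 : Fin 12 → ℝ, (∀ k, |R1 k| ≤ 1/32) →
          bN LL F (pt (l j) R1 0) (pt (l j) (R j) 0) = 0) ∧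
      Tendsto (fun j => val (l j)) atTop (𝓝 (1 / 4094 + (t : ℝ))) ∧
      Tendsto (fun j => pt (l j) (R j) 0) atTop (𝓝 a) := by
    intro t
    choose l hl hval using fun j => val_dense t t.2.1 t.2.2 j
    choose R hR hRb using fun j => recur cc cx rh h (l j) (hl j)
    obtain ⟨a, -, ψ, hψ, ha⟩ := tendsto_subseq_of_bounded
      (Metric.isBounded_closedBall (x := (0 : EE)) (r := P24_bd))
      (x := fun j => pt (l j) (R j) 0)
      (fun j => P24_pt_mem (l j) (good_facts _ (hl j)).1 (R j) (hR j))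
    refine ⟨a, fun j => l (ψ j), fun j => R (ψ j), fun j => ⟨hl _, hR _, hRb _⟩, ?_, ha⟩
    have h1 : Tendsto (fun j => val (l j)) atTop (𝓝 (1 / 4094 + (t : ℝ))) := by
      rw [tendsto_iff_dist_tendsto_zero]
      refine squeeze_zero (g := fun j : ℕ => 1 / MM ^ j) (fun _ => dist_nonneg)
        (fun j => by rw [Real.dist_eq]; exact hval j) ?_
      have h2 : Tendsto (fun j : ℕ => (1 / (MM : ℝ)) ^ j) atTop (𝓝 0) := by
        refine tendsto_pow_atTop_nhds_zero_of_lt_one ?_ ?_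
        · unfold MM; positivity
        · unfold MM; norm_num
      exact h2.congr fun j => by rw [div_pow, one_pow]
    exact h1.comp hψ.tendsto_atTop
  choose f l R hlR hval hpt using key
  refine ⟨C, f, hC, ?_, ?_, ?_⟩
  · intro t
    have h1 : ∀ j, bN LL F (f t) (f t) ≤ ENNReal.ofReal ((1 + 1 / 1) * (1 + K) ^ 2 *
        (‖pt (l t j) (R t j) 0 - f t‖ ^ 2 + ‖pt (l t j) (R t j) 0 - f t‖ ^ 2)) := by
      intro j
      have h2 := bN_move (P := LL) hFc K hK0 hK (pt (l t j) (R t j) 0) (pt (l t j) (R t j) 0)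
        (f t) (f t) 1 one_pos
      rw [(hlR t j).2.2 _ (hlR t j).2.1, mul_zero, zero_add] at h2
      exact h2
    have h2 : Tendsto (fun j => ENNReal.ofReal ((1 + 1 / 1) * (1 + K) ^ 2 *
        (‖pt (l t j) (R t j) 0 - f t‖ ^ 2 + ‖pt (l t j) (R t j) 0 - f t‖ ^ 2))) atTop
        (𝓝 (ENNReal.ofReal 0)) := by
      refine ENNReal.tendsto_ofReal ?_
      have h3 : Tendsto (fun j => ‖pt (l t j) (R t j) 0 - f t‖) atTop (𝓝 0) :=
        tendsto_iff_norm_sub_tendsto_zero.1 (hpt t)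
      have h4 := ((h3.pow 2).add (h3.pow 2)).const_mul ((1 + 1 / 1 : ℝ) * (1 + K) ^ 2)
      simpa using h4
    have h3 := ge_of_tendsto' h2 h1
    rw [ENNReal.ofReal_zero] at h3
    exact le_antisymm h3 bot_le
  · intro s0 t
    have hstep : ∀ j, ENNReal.ofReal (val (l t j) - val (l s0 j)) ≤
        ENNReal.ofReal C * bN LL F (pt (l s0 j) (R s0 j) 0) (pt (l t j) (R t j) 0) := by
      intro j
      have hC0 : ENNReal.ofReal C ≠ 0 := by
        rw [Ne, ENNReal.ofReal_eq_zero, not_le]; exact hC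
      rw [← ENNReal.div_le_iff' hC0 ENNReal.ofReal_ne_top]
      unfold bN
      refine le_liminf_of_le (by isBoundedDefault) ?_
      filter_upwards [eventually_ge_atTop 1] with n hn
      rw [ENNReal.div_le_iff' hC0 ENNReal.ofReal_ne_top]
      obtain ⟨g1, g2, -⟩ := good_facts _ (hlR s0 j).1
      obtain ⟨g1', g2', -⟩ := good_facts _ (hlR t j).1
      exact hlow _ _ g1 g1' (g2 _) (g2' _) _ _ (hlR s0 j).2.1 _ (by exact_mod_cast hn)
    have hs : ∀ s : ℝ, 0 < s → ENNReal.ofReal ((t : ℝ) - s0) ≤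
        ENNReal.ofReal C * (ENNReal.ofReal (1 + s) * bN LL F (f s0) (f t)) := by
      intro s hs
      have h1 : Tendsto (fun j => ENNReal.ofReal (val (l t j) - val (l s0 j))) atTop
          (𝓝 (ENNReal.ofReal ((t : ℝ) - s0))) := by
        refine ENNReal.tendsto_ofReal ?_
        have h5 := (hval t).sub (hval s0)
        rwa [add_sub_add_left_eq_sub] at h5
      have h2 : Tendsto (fun j => ENNReal.ofReal C * (ENNReal.ofReal (1 + s) * bN LL F (f s0) (f t) +
          ENNReal.ofReal ((1 + 1 / s) * (1 + K) ^ 2 * (‖f s0 - pt (l s0 j) (R s0 j) 0‖ ^ 2 +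
            ‖f t - pt (l t j) (R t j) 0‖ ^ 2)))) atTop
          (𝓝 (ENNReal.ofReal C * (ENNReal.ofReal (1 + s) * bN LL F (f s0) (f t) +
            ENNReal.ofReal 0))) := by
        refine ENNReal.Tendsto.const_mul (Tendsto.add tendsto_const_nhds ?_)
          (Or.inr ENNReal.ofReal_ne_top)
        refine ENNReal.tendsto_ofReal ?_
        have h3 : ∀ t : Icc (0 : ℝ) 1, Tendsto (fun j => ‖f t - pt (l t j) (R t j) 0‖) atTop (𝓝 0) := by
          intro t
          have h4 := tendsto_iff_norm_sub_tendsto_zero.1 (hpt t)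
          refine h4.congr fun j => ?_
          rw [norm_sub_rev]
        have h4 := (((h3 s0).pow 2).add ((h3 t).pow 2)).const_mul ((1 + 1 / s : ℝ) * (1 + K) ^ 2)
        simpa using h4
      have h3 := le_of_tendsto_of_tendsto' h1 h2 (fun j => (hstep j).trans
        (mul_le_mul_right (bN_move (P := LL) hFc K hK0 hK (f s0) (f t) (pt (l s0 j) (R s0 j) 0)
          (pt (l t j) (R t j) 0) s hs) _))
      rwa [ENNReal.ofReal_zero, add_zero] at h3
    have h1 : Tendsto (fun n : ℕ => ENNReal.ofReal C *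
        (ENNReal.ofReal (1 + 1 / ((n : ℝ) + 1)) * bN LL F (f s0) (f t))) atTop
        (𝓝 (ENNReal.ofReal C * (ENNReal.ofReal (1 + 0) * bN LL F (f s0) (f t)))) := by
      refine ENNReal.Tendsto.const_mul (ENNReal.Tendsto.mul_const ?_ (Or.inl ?_))
        (Or.inr ENNReal.ofReal_ne_top)
      · exact ENNReal.tendsto_ofReal (tendsto_one_div_add_atTop_nhds_zero_nat.const_add 1)
      · rw [add_zero, ENNReal.ofReal_one]; exact one_ne_zero
    have h2 := ge_of_tendsto' h1 (fun n => hs _ (by positivity))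
    rwa [add_zero, ENNReal.ofReal_one, one_mul] at h2
  · intro ε hε
    obtain ⟨δ, hδ, hup⟩ := upper cc cx rh h (ε / 2) (half_pos hε)
    refine ⟨δ, hδ, fun s t hst => ?_⟩
    have h0 : Tendsto (fun j => |val (l s j) - val (l t j)|) atTop (𝓝 |(s : ℝ) - t|) := by
      have h5 := ((hval s).sub (hval t)).abs
      rwa [add_sub_add_left_eq_sub] at h5
    have h1 : ∀ᶠ j in atTop, bN LL F (f s) (f t) ≤ ENNReal.ofReal ε +
        ENNReal.ofReal ((1 + 1 / 1) * (1 + K) ^ 2 *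
        (‖pt (l s j) (R s j) 0 - f s‖ ^ 2 + ‖pt (l t j) (R t j) 0 - f t‖ ^ 2)) := by
      filter_upwards [h0.eventually (gt_mem_nhds hst)] with j hj
      have h2 := bN_move (P := LL) hFc K hK0 hK (pt (l s j) (R s j) 0) (pt (l t j) (R t j) 0)
        (f s) (f t) 1 one_pos
      have h3 := hup (l s j) (l t j) (R s j) (pt (l t j) (R t j) 0) (hlR s j).1 (hlR t j).1
        (hlR s j).2.1 ((hlR s j).2.2 _ (hlR s j).2.1) (hlR t j).2.2 hj
      refine h2.trans (add_le_add ?_ le_rfl)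
      refine (mul_le_mul_right h3 _).trans (le_of_eq ?_)
      rw [← ENNReal.ofReal_mul (by norm_num)]
      congr 1
      ring
    have h2 : Tendsto (fun j => ENNReal.ofReal ε + ENNReal.ofReal ((1 + 1 / 1) * (1 + K) ^ 2 *
        (‖pt (l s j) (R s j) 0 - f s‖ ^ 2 + ‖pt (l t j) (R t j) 0 - f t‖ ^ 2))) atTop
        (𝓝 (ENNReal.ofReal ε + ENNReal.ofReal 0)) := by
      refine Tendsto.add tendsto_const_nhds (ENNReal.tendsto_ofReal ?_)
      have h3 : ∀ t : Icc (0 : ℝ) 1,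
          Tendsto (fun j => ‖pt (l t j) (R t j) 0 - f t‖) atTop (𝓝 0) :=
        fun t => tendsto_iff_norm_sub_tendsto_zero.1 (hpt t)
      have h4 := (((h3 s).pow 2).add ((h3 t).pow 2)).const_mul ((1 + 1 / 1 : ℝ) * (1 + K) ^ 2)
      simpa using h4
    have h3 := ge_of_tendsto h2 h1
    rwa [ENNReal.ofReal_zero, add_zero] at h3

end Pool.Agent.H385A
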