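import Mathlib
import Pool.Agent.Helper961.Aub.XClamp
import Pool.Agent.Helper961.Aub.ZRho
import Pool.Agent.Helper961.Aub.ZReal
import Pool.Agent.H385Z.ZSmooth
import Pool.Agent.Helper981.QA.P02
import Pool.Agent.Helper981.QA.P05
import Pool.Agent.Helper981.QA.P07
import Pool.Agent.Helper981.QA.P12
import Pool.Agent.Helper981.QA.P15
import Pool.Agent.H385Z.Q24

set_option autoImplicit false

open Set Filter Topology MeasureTheory
open scoped ContDiff

namespace Pool.Agent.H385A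

open Pool.Agent.Aub (lat PerField IsFlow mm Realz Clamp Rho LL Jx EE clamp_exists rho_exists
  realize)
open Pool.Agent.QA

theorem arc_points {F : EE → EE} {φ : ℝ → EE → EE} (hs : ContDiff ℝ ∞ F) (hF : PerField LL F)
    (hφ : IsFlow F φ) (C : ℝ) (hC : 0 < C) (f : Icc (0 : ℝ) 1 → EE)
    (hA : ∀ t, bN LL F (f t) (f t) = 0)
    (hlow : ∀ s t : Icc (0 : ℝ) 1,
      ENNReal.ofReal ((t : ℝ) - s) ≤ ENNReal.ofReal C * bN LL F (f s) (f t))
    (hup : ∀ ε : ℝ, 0 < ε → ∃ δ : ℝ, 0 < δ ∧ ∀ s t : Icc (0 : ℝ) 1, |(s : ℝ) - t| < δ →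
      bN LL F (f s) (f t) ≤ ENNReal.ofReal ε)
    {X : Type} [MetricSpace X] (π : AubrySet LL (LF LL F) 0 0 → X)
    (hπ : ∀ x y : AubrySet LL (LF LL F) 0 0, ((dist (π x) (π y) : ℝ) : EReal) =
      barrier LL (LF LL F) 0 0 x y + barrier LL (LF LL F) 0 0 y x) :
    ∃ g : Icc (0 : ℝ) 1 → X, Continuous g ∧ Function.Injective g := by
  have hmem : ∀ t, prj LL (f t) ∈ AubrySet LL (LF LL F) 0 0 := by
    intro t
    show barrier LL (LF LL F) 0 0 (prj LL (f t)) (prj LL (f t)) = 0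
    rw [barrier_eq LL hs hF hφ, hA t]
    rfl
  have hdist : ∀ s t : Icc (0 : ℝ) 1,
      ENNReal.ofReal (dist (π ⟨prj LL (f s), hmem s⟩) (π ⟨prj LL (f t), hmem t⟩)) =
        bN LL F (f s) (f t) + bN LL F (f t) (f s) := by
    intro s t
    have h1 := hπ ⟨prj LL (f s), hmem s⟩ ⟨prj LL (f t), hmem t⟩
    simp only at h1
    rw [barrier_eq LL hs hF hφ, barrier_eq LL hs hF hφ, ← EReal.coe_ennreal_add] at h1
    set d := dist (π ⟨prj LL (f s), hmem s⟩) (π ⟨prj LL (f t), hmem t⟩) with hd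
    have hd0 : 0 ≤ d := dist_nonneg
    have h2 : ((ENNReal.ofReal d : ENNReal) : EReal) = (d : EReal) := by
      rw [EReal.coe_ennreal_ofReal, max_eq_left hd0]
    rw [← h2] at h1
    exact EReal.coe_ennreal_injective h1
  have key : ∀ s t : Icc (0 : ℝ) 1, (t : ℝ) - s ≤
      C * dist (π ⟨prj LL (f s), hmem s⟩) (π ⟨prj LL (f t), hmem t⟩) := by
    intro s t
    have h5 : ENNReal.ofReal ((t : ℝ) - s) ≤ ENNReal.ofReal
        (C * dist (π ⟨prj LL (f s), hmem s⟩) (π ⟨prj LL (f t), hmem t⟩)) := by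
      rw [ENNReal.ofReal_mul hC.le, hdist]
      exact (hlow s t).trans (mul_le_mul_right le_self_add _)
    exact (ENNReal.ofReal_le_ofReal_iff (mul_nonneg hC.le dist_nonneg)).1 h5
  refine ⟨fun t => π ⟨prj LL (f t), hmem t⟩, ?_, ?_⟩
  · rw [Metric.continuous_iff]
    intro t ε hε
    obtain ⟨δ, hδ, hd⟩ := hup (ε / 3) (by positivity)
    refine ⟨δ, hδ, fun s hs => ?_⟩
    have h1 : |(s : ℝ) - t| < δ := hs
    have h2 : ENNReal.ofReal (dist (π ⟨prj LL (f s), hmem s⟩) (π ⟨prj LL (f t), hmem t⟩)) ≤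
        ENNReal.ofReal (ε / 3 + ε / 3) := by
      rw [hdist, ENNReal.ofReal_add (by positivity) (by positivity)]
      exact add_le_add (hd s t h1) (hd t s (by rw [abs_sub_comm]; exact h1))
    have h3 := (ENNReal.ofReal_le_ofReal_iff (by positivity)).1 h2
    linarith
  · intro s t hst
    have h0 : dist (π ⟨prj LL (f s), hmem s⟩) (π ⟨prj LL (f t), hmem t⟩) = 0 :=
      dist_eq_zero.2 hst
    have h1 := key s t
    have h2 := key t s
    rw [dist_comm] at h2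
    rw [h0, mul_zero] at h1 h2
    exact Subtype.ext (by linarith)

theorem result_aux : ∃ (ι : Type) (_ : Fintype ι) (P : ℝ) (_ : Fact (0 < P)) (L : Phase P ι → ℝ)
    (Φ : ℝ → Phase P ι → Phase P ι) (c : ι → ℝ) (a : ℝ),
    IsTonelli P L ∧ IsELFlow P L Φ ∧ IsAlpha P L Φ c a ∧
    ∃ (X : Type) (_ : MetricSpace X) (π : AubrySet P L c a → X),
      Function.Surjective π ∧
      (∀ x y : AubrySet P L c a, ((dist (π x) (π y) : ℝ) : EReal) =
        barrier P L c a x y + barrier P L c a y x) ∧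
      ∃ g : Set.Icc (0 : ℝ) 1 → X, Continuous g ∧ Function.Injective g ∧
        IsConnected (Set.range g) ∧ (Set.range g).Nontrivial := by
  obtain ⟨cc⟩ := clamp_exists (5/4) (by norm_num) (by norm_num)
  obtain ⟨cx⟩ := clamp_exists (mm + 1/2) (by norm_num [mm]) (by norm_num [mm])
  obtain ⟨rh⟩ := rho_exists
  obtain ⟨hY, hP⟩ := YY_smooth cc cx rh
  obtain ⟨F, φ, h⟩ := realize 97 LL (by norm_num [LL]) (YY cc cx rh) hY hP
  obtain ⟨Φ, hΦ1, hΦ2, hΦ3⟩ := LF_flow LL h.smooth h.per h.flow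
  obtain ⟨X, hX, π, hπ1, hπ2⟩ := aubry_space LL h.smooth h.per h.flow
  obtain ⟨C, f, hC, hA, hlow, hup⟩ := path cc cx rh h
  obtain ⟨g, hg1, hg2⟩ := arc_points h.smooth h.per h.flow C hC f hA hlow hup π hπ2
  haveI : ConnectedSpace (Icc (0 : ℝ) 1) :=
    isConnected_iff_connectedSpace.1 (isConnected_Icc zero_le_one)
  refine ⟨Jx, inferInstance, LL, inferInstance, LF LL F, Φ, 0, 0,
    ⟨LF_smooth LL h.smooth h.per, LF_hess LL h.per, LF_super LL h.smooth h.per,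
      LF_complete LL h.smooth h.per h.flow⟩,
    hΦ1, LF_alpha LL h.smooth h.per h.flow Φ hΦ2 hΦ3,
    X, hX, π, hπ1, hπ2, g, hg1, hg2, isConnected_range hg1, ?_⟩
  refine ⟨g ⟨0, le_rfl, zero_le_one⟩, mem_range_self _, g ⟨1, zero_le_one, le_rfl⟩,
    mem_range_self _, fun e => ?_⟩
  have h1 := congrArg Subtype.val (hg2 e)
  exact zero_ne_one h1

end Pool.Agent.H385A
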